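import Pool.Agent.Helper112.MultLS

set_option autoImplicit false

/-! # Amplified large sieve: few `u` with a large sum over a block of prime moduli -/

namespace Pool.Agent.W154.PV

open Finset

open scoped Classical

/-- a number of modulus at most one with `sgn z * z = ‖z‖` -/
noncomputable def sgn (z : ℂ) : ℂ := if z = 0 then 0 else (starRingEnd ℂ) z / (‖z‖ : ℂ)

theorem sgn_mul (z : ℂ) : sgn z * z = (‖z‖ : ℂ) := by
  unfold sgn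
  by_cases h : z = 0
  · rw [if_pos h, h]; simp
  · rw [if_neg h]
    have h1 : (‖z‖ : ℂ) ≠ 0 := by exact_mod_cast (norm_ne_zero_iff.mpr h)
    have h2 : (starRingEnd ℂ) z * z = (‖z‖ : ℂ) ^ 2 := Complex.conj_mul' z
    field_simp
    rw [h2]

theorem norm_sgn_le (z : ℂ) : ‖sgn z‖ ≤ 1 := by
  unfold sgn
  by_cases h : z = 0
  · rw [if_pos h]; simp
  · rw [if_neg h, norm_div, RCLike.norm_conj, Complex.norm_real, norm_norm,
      div_self (norm_ne_zero_iff.mpr h)]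

/-- the tuples with a given product -/
noncomputable def tup (𝓑 : Finset ℕ) (r n : ℕ) : Finset (Fin r → ℕ) :=
  (Fintype.piFinset (fun _ : Fin r => 𝓑)).filter (fun f => ∏ i, f i = n)

/-- the power of a character sum -/
theorem pow_char_sum (𝓑 : Finset ℕ) (θ : ℕ → ℂ) (T r : ℕ) (hB : ∀ u ∈ 𝓑, 1 ≤ u ∧ u ≤ T)
    (q : ℕ) (χ : DirichletCharacter ℂ q) :
    (∑ u ∈ 𝓑, θ u * χ (u : ZMod q)) ^ r =
      ∑ n ∈ Icc 1 (T ^ r), (∑ f ∈ tup 𝓑 r n, ∏ i, θ (f i)) * χ (n : ZMod q) := by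
  rw [Finset.sum_pow']
  have hmap : ∀ f ∈ Fintype.piFinset (fun _ : Fin r => 𝓑), ∏ i, f i ∈ Icc 1 (T ^ r) := by
    intro f hf
    rw [Fintype.mem_piFinset] at hf
    rw [mem_Icc]
    constructor
    · exact Nat.one_le_iff_ne_zero.mpr (prod_ne_zero_iff.mpr fun i _ => by
        have := (hB _ (hf i)).1
        omega)
    · calc ∏ i, f i ≤ ∏ _i : Fin r, T := prod_le_prod' fun i _ => (hB _ (hf i)).2
        _ = T ^ r := by simp
  rw [← Finset.sum_fiberwise_of_maps_to hmap]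
  refine sum_congr rfl fun n _ => ?_
  rw [sum_mul]
  unfold tup
  refine sum_congr rfl fun f hf => ?_
  rw [mem_filter] at hf
  rw [prod_mul_distrib]
  congr 1
  rw [← hf.2]
  push_cast
  rw [map_prod]

/-- the coefficients in mean square -/
theorem sum_sq_coef (𝓑 : Finset ℕ) (θ : ℕ → ℂ) (hθ : ∀ u, ‖θ u‖ ≤ 1) (T r : ℕ) (R : ℝ)
    (hR : ∀ n, ((tup 𝓑 r n).card : ℝ) ≤ R) :
    ∑ n ∈ Icc 1 (T ^ r), ‖∑ f ∈ tup 𝓑 r n, ∏ i, θ (f i)‖ ^ 2 ≤ R * (𝓑.card : ℝ) ^ r := by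
  have h1 : ∀ n, ‖∑ f ∈ tup 𝓑 r n, ∏ i, θ (f i)‖ ≤ ((tup 𝓑 r n).card : ℝ) := by
    intro n
    refine (norm_sum_le _ _).trans ?_
    refine (sum_le_sum (g := fun _ => (1 : ℝ)) fun f _ => ?_).trans (by simp)
    rw [norm_prod]
    exact prod_le_one (fun _ _ => norm_nonneg _) fun i _ => hθ _
  have h2 : ∑ n ∈ Icc 1 (T ^ r), ((tup 𝓑 r n).card : ℝ) ≤ (𝓑.card : ℝ) ^ r := by
    have h3 : ∑ n ∈ Icc 1 (T ^ r), (tup 𝓑 r n).card ≤ (𝓑.card) ^ r := by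
      unfold tup
      rw [← Fintype.card_piFinset_const 𝓑 r]
      rw [← Finset.card_biUnion]
      · apply card_le_card
        intro f hf
        rw [mem_biUnion] at hf
        obtain ⟨n, _, hf⟩ := hf
        exact (mem_filter.mp hf).1
      · intro n _ m _ hnm
        simp only [Function.onFun]
        rw [disjoint_left]
        intro f hf hf'
        rw [mem_filter] at hf hf'
        exact hnm (hf.2.symm.trans hf'.2)
    exact_mod_cast h3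
  have hR0 : 0 ≤ R := le_trans (Nat.cast_nonneg _) (hR 0)
  calc ∑ n ∈ Icc 1 (T ^ r), ‖∑ f ∈ tup 𝓑 r n, ∏ i, θ (f i)‖ ^ 2 ≤
        ∑ n ∈ Icc 1 (T ^ r), R * ((tup 𝓑 r n).card : ℝ) := by
        refine sum_le_sum fun n _ => ?_
        rw [pow_two]
        exact mul_le_mul ((h1 n).trans (hR n)) (h1 n) (norm_nonneg _) hR0
    _ = R * ∑ n ∈ Icc 1 (T ^ r), ((tup 𝓑 r n).card : ℝ) := by rw [mul_sum]
    _ ≤ _ := mul_le_mul_of_nonneg_left h2 hR0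

/-- the large sieve for the powers -/
theorem ls_pow (𝓑 : Finset ℕ) (θ : ℕ → ℂ) (hθ : ∀ u, ‖θ u‖ ≤ 1) (T r : ℕ) (R : ℝ)
    (hB : ∀ u ∈ 𝓑, 1 ≤ u ∧ u ≤ T)
    (hR : ∀ n, ((tup 𝓑 r n).card : ℝ) ≤ R) (F : ℕ) (I : Finset ℕ)
    (hI : ∀ p ∈ I, 1 ≤ p ∧ p ≤ F) (X : (p : ℕ) → Finset (DirichletCharacter ℂ p))
    (hX : ∀ p ∈ I, ∀ χ ∈ X p, χ.IsPrimitive) :
    ∑ p ∈ I, ∑ χ ∈ X p, ‖∑ u ∈ 𝓑, θ u * χ (u : ZMod p)‖ ^ (2 * r) ≤
      6 * ((T : ℝ) ^ r + (F : ℝ) ^ 2) * (R * (𝓑.card : ℝ) ^ r) := by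
  set α : ℕ → ℂ := fun n => ∑ f ∈ tup 𝓑 r n, ∏ i, θ (f i) with hα
  have key := Pool.Agent.Helper112.mult_large_sieve (T ^ r) F α
  have h1 : ∀ p, ∀ χ : DirichletCharacter ℂ p, ‖∑ u ∈ 𝓑, θ u * χ (u : ZMod p)‖ ^ (2 * r) =
      ‖∑ n ∈ Icc 1 (T ^ r), α n * χ (n : ZMod p)‖ ^ 2 := by
    intro p χ
    rw [mul_comm 2 r, pow_mul, ← norm_pow, pow_char_sum 𝓑 θ T r hB p χ]
  calc ∑ p ∈ I, ∑ χ ∈ X p, ‖∑ u ∈ 𝓑, θ u * χ (u : ZMod p)‖ ^ (2 * r) =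
        ∑ p ∈ I, ∑ χ ∈ X p, ‖∑ n ∈ Icc 1 (T ^ r), α n * χ (n : ZMod p)‖ ^ 2 :=
        sum_congr rfl fun p _ => sum_congr rfl fun χ _ => h1 p χ
    _ ≤ ∑ p ∈ I, ((p : ℝ) / (Nat.totient p : ℝ)) *
          ∑ χ ∈ (univ : Finset (DirichletCharacter ℂ p)).filter (fun χ => χ.IsPrimitive),
            ‖∑ n ∈ Icc 1 (T ^ r), α n * χ (n : ZMod p)‖ ^ 2 := by
        refine sum_le_sum fun p hp => ?_
        have hp1 := (hI p hp).1
        have hf1 : 0 < Nat.totient p := Nat.totient_pos.mpr (by omega)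
        have hf2 : (Nat.totient p : ℝ) ≤ p := by exact_mod_cast Nat.totient_le p
        have hf3 : (0 : ℝ) < Nat.totient p := by exact_mod_cast hf1
        have hf4 : 1 ≤ (p : ℝ) / (Nat.totient p : ℝ) := by
          rw [one_le_div hf3]; exact hf2
        have hsub : X p ⊆ (univ : Finset (DirichletCharacter ℂ p)).filter
            (fun χ => χ.IsPrimitive) := by
          intro χ hχ
          rw [mem_filter]
          exact ⟨mem_univ _, hX p hp χ hχ⟩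
        have h2 : ∑ χ ∈ X p, ‖∑ n ∈ Icc 1 (T ^ r), α n * χ (n : ZMod p)‖ ^ 2 ≤
            ∑ χ ∈ (univ : Finset (DirichletCharacter ℂ p)).filter (fun χ => χ.IsPrimitive),
              ‖∑ n ∈ Icc 1 (T ^ r), α n * χ (n : ZMod p)‖ ^ 2 :=
          sum_le_sum_of_subset_of_nonneg hsub fun _ _ _ => by positivity
        refine h2.trans (le_mul_of_one_le_left (sum_nonneg fun _ _ => by positivity) hf4)
    _ ≤ ∑ p ∈ Icc 1 F, ((p : ℝ) / (Nat.totient p : ℝ)) *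
          ∑ χ ∈ (univ : Finset (DirichletCharacter ℂ p)).filter (fun χ => χ.IsPrimitive),
            ‖∑ n ∈ Icc 1 (T ^ r), α n * χ (n : ZMod p)‖ ^ 2 := by
        refine sum_le_sum_of_subset_of_nonneg (fun p hp => mem_Icc.mpr (hI p hp)) fun p _ _ => ?_
        exact mul_nonneg (by positivity) (sum_nonneg fun _ _ => by positivity)
    _ ≤ _ := key
    _ ≤ _ := by
        push_cast
        apply mul_le_mul_of_nonneg_left (sum_sq_coef 𝓑 θ hθ T r R hR) (by positivity)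

/-- few elements with a large value -/
theorem amp (𝓑 : Finset ℕ) (T r j d : ℕ) (R η : ℝ) (hr : 1 ≤ r)
    (hB : ∀ u ∈ 𝓑, 1 ≤ u ∧ u ≤ T)
    (hR : ∀ n, ((tup 𝓑 r n).card : ℝ) ≤ R) (I : Finset ℕ)
    (hI : ∀ p ∈ I, 2 ^ j ≤ p ∧ p < 2 ^ (j + 1)) (X : (p : ℕ) → Finset (DirichletCharacter ℂ p))
    (hX : ∀ p ∈ I, ∀ χ ∈ X p, χ.IsPrimitive) (hXd : ∀ p ∈ I, (X p).card ≤ d)
    (c : (p : ℕ) → DirichletCharacter ℂ p → ℂ) (hc : ∀ p ∈ I, ∀ χ ∈ X p, ‖c p χ‖ ≤ 1)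
    (hη : 0 ≤ η)
    (hlarge : ∀ u ∈ 𝓑, η ≤ ‖∑ p ∈ I, ∑ χ ∈ X p, c p χ * χ (u : ZMod p) / (p : ℂ)‖) :
    ((𝓑.card : ℝ) * η) ^ (2 * r) ≤
      (d : ℝ) ^ (2 * r - 1) / 2 ^ j *
        (6 * ((T : ℝ) ^ r + 4 * (4 : ℝ) ^ j) * (R * (𝓑.card : ℝ) ^ r)) := by
  set W : ℕ → ℂ := fun u => ∑ p ∈ I, ∑ χ ∈ X p, c p χ * χ (u : ZMod p) / (p : ℂ) with hW
  set θ : ℕ → ℂ := fun u => sgn (W u) with hθ
  have hθ1 : ∀ u, ‖θ u‖ ≤ 1 := fun u => norm_sgn_le _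
  set b : (Σ p : ℕ, DirichletCharacter ℂ p) → ℝ := fun s =>
    ‖∑ u ∈ 𝓑, θ u * s.2 (u : ZMod s.1)‖ with hb
  have h2j : (0 : ℝ) < 2 ^ j := by positivity
  have h1 : (𝓑.card : ℝ) * η ≤ (1 / 2 ^ j) * ∑ s ∈ I.sigma X, b s := by
    have h2 : (𝓑.card : ℝ) * η ≤ ∑ u ∈ 𝓑, ‖W u‖ := by
      rw [← nsmul_eq_mul]
      exact card_nsmul_le_sum _ _ _ hlarge
    have h3 : ((∑ u ∈ 𝓑, ‖W u‖ : ℝ) : ℂ) =
        ∑ p ∈ I, ∑ χ ∈ X p, (c p χ / (p : ℂ)) * ∑ u ∈ 𝓑, θ u * χ (u : ZMod p) := by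
      push_cast
      calc ∑ u ∈ 𝓑, (‖W u‖ : ℂ) = ∑ u ∈ 𝓑, θ u * W u :=
            sum_congr rfl fun u _ => (sgn_mul _).symm
        _ = ∑ u ∈ 𝓑, ∑ p ∈ I, ∑ χ ∈ X p, (c p χ / (p : ℂ)) * (θ u * χ (u : ZMod p)) := by
            refine sum_congr rfl fun u _ => ?_
            rw [hW]
            simp only
            rw [mul_sum]
            refine sum_congr rfl fun p _ => ?_
            rw [mul_sum]
            refine sum_congr rfl fun χ _ => ?_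
            ring
        _ = ∑ p ∈ I, ∑ u ∈ 𝓑, ∑ χ ∈ X p, (c p χ / (p : ℂ)) * (θ u * χ (u : ZMod p)) :=
            sum_comm
        _ = _ := by
            refine sum_congr rfl fun p _ => ?_
            rw [sum_comm]
            refine sum_congr rfl fun χ _ => ?_
            rw [mul_sum]
    have h4 : ∑ u ∈ 𝓑, ‖W u‖ ≤ (1 / 2 ^ j) * ∑ s ∈ I.sigma X, b s := by
      have h5 : ‖((∑ u ∈ 𝓑, ‖W u‖ : ℝ) : ℂ)‖ = ∑ u ∈ 𝓑, ‖W u‖ := by
        rw [Complex.norm_real, Real.norm_eq_abs, abs_of_nonneg (sum_nonneg fun _ _ => norm_nonneg _)]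
      rw [← h5, h3, sum_sigma, mul_sum]
      refine (norm_sum_le _ _).trans (sum_le_sum fun p hp => ?_)
      rw [mul_sum]
      refine (norm_sum_le _ _).trans (sum_le_sum fun χ hχ => ?_)
      rw [norm_mul, norm_div, Complex.norm_natCast]
      apply mul_le_mul_of_nonneg_right _ (norm_nonneg _)
      have h6 : ((2 : ℝ) ^ j) ≤ p := by exact_mod_cast (hI p hp).1
      exact div_le_div₀ zero_le_one (hc p hp χ hχ) h2j h6
    exact h2.trans h4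
  have hb0 : ∀ s ∈ I.sigma X, 0 ≤ b s := fun s _ => norm_nonneg _
  have h7 : (∑ s ∈ I.sigma X, b s) ^ (2 * r) ≤
      ((I.sigma X).card : ℝ) ^ (2 * r - 1) * ∑ s ∈ I.sigma X, b s ^ (2 * r) := by
    have := pow_sum_le_card_mul_sum_pow hb0 (2 * r - 1)
    have e : 2 * r - 1 + 1 = 2 * r := by omega
    rw [e] at this
    exact this
  have hIc : (I.card : ℝ) ≤ 2 ^ j := by
    have h8 : I ⊆ Ico (2 ^ j) (2 ^ (j + 1)) := fun p hp => mem_Ico.mpr (hI p hp)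
    have h9 := card_le_card h8
    rw [Nat.card_Ico, pow_succ] at h9
    have h10 : I.card ≤ 2 ^ j := by omega
    exact_mod_cast h10
  have hcard : ((I.sigma X).card : ℝ) ≤ d * 2 ^ j := by
    rw [card_sigma]
    push_cast
    calc ∑ p ∈ I, ((X p).card : ℝ) ≤ ∑ _p ∈ I, (d : ℝ) :=
          sum_le_sum fun p hp => by exact_mod_cast hXd p hp
      _ = I.card * d := by rw [sum_const, nsmul_eq_mul]
      _ ≤ 2 ^ j * d := by gcongr
      _ = d * 2 ^ j := by ring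
  have h11 : ∑ s ∈ I.sigma X, b s ^ (2 * r) ≤
      6 * ((T : ℝ) ^ r + 4 * (4 : ℝ) ^ j) * (R * (𝓑.card : ℝ) ^ r) := by
    rw [sum_sigma]
    have h12 := ls_pow 𝓑 θ hθ1 T r R hB hR (2 ^ (j + 1)) I
      (fun p hp => ⟨(Nat.one_le_two_pow).trans (hI p hp).1, (hI p hp).2.le⟩) X hX
    refine h12.trans (le_of_eq ?_)
    have : (((2 ^ (j + 1) : ℕ) : ℝ)) ^ 2 = 4 * (4 : ℝ) ^ j := by
      push_cast
      rw [← pow_mul, mul_comm, pow_mul, pow_succ]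
      norm_num
      ring
    rw [this]
  have hS0 : 0 ≤ ∑ s ∈ I.sigma X, b s ^ (2 * r) := sum_nonneg fun s hs => pow_nonneg (hb0 s hs) _
  calc ((𝓑.card : ℝ) * η) ^ (2 * r) ≤ ((1 / 2 ^ j) * ∑ s ∈ I.sigma X, b s) ^ (2 * r) :=
        pow_le_pow_left₀ (by positivity) h1 _
    _ = (1 / 2 ^ j) ^ (2 * r) * (∑ s ∈ I.sigma X, b s) ^ (2 * r) := mul_pow _ _ _
    _ ≤ (1 / 2 ^ j) ^ (2 * r) * (((I.sigma X).card : ℝ) ^ (2 * r - 1) *
          ∑ s ∈ I.sigma X, b s ^ (2 * r)) := by gcongr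
    _ ≤ (1 / 2 ^ j) ^ (2 * r) * ((d * 2 ^ j) ^ (2 * r - 1) *
          ∑ s ∈ I.sigma X, b s ^ (2 * r)) := by gcongr
    _ = (d : ℝ) ^ (2 * r - 1) / 2 ^ j * ∑ s ∈ I.sigma X, b s ^ (2 * r) := by
        obtain ⟨m, hm⟩ : ∃ m, 2 * r = m + 1 := ⟨2 * r - 1, by omega⟩
        rw [hm, Nat.add_sub_cancel, mul_pow, one_div, inv_pow, pow_succ]
        field_simp
    _ ≤ _ := by gcongr

end Pool.Agent.W154.PV
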