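import Pool.Agent.H426R3.SQ.N1

set_option autoImplicit false

/-! # The number of solutions of `a x ^ d + k ≡ 0 (mod p)` and characters -/

namespace Pool.Agent.W154.PV

open Finset

open scoped Classical

/-- number of solutions of `a x ^ d + k ≡ 0` modulo `p` -/
noncomputable def rt (a d : ℕ) (k : ℤ) (p : ℕ) : ℕ :=
  ((range p).filter (fun x : ℕ => (p : ℤ) ∣ (a : ℤ) * (x : ℤ) ^ d + k)).card

/-- the characters whose order divides `d` -/
noncomputable def Xd (p d : ℕ) : Finset (DirichletCharacter ℂ p) :=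
  (univ : Finset (DirichletCharacter ℂ p)).filter (fun χ => χ ^ d = 1)

/-- the characters different from `1` whose order divides `d` -/
noncomputable def Xe (p d : ℕ) : Finset (DirichletCharacter ℂ p) :=
  (univ : Finset (DirichletCharacter ℂ p)).filter (fun χ => χ ^ d = 1 ∧ χ ≠ 1)

theorem sum_Xd (p d : ℕ) (f : DirichletCharacter ℂ p → ℂ) :
    ∑ χ ∈ Xd p d, f χ = f 1 + ∑ χ ∈ Xe p d, f χ := by
  have h1 : Xd p d = insert 1 (Xe p d) := by
    ext χ
    unfold Xd Xe
    simp only [mem_filter, mem_univ, true_and, mem_insert]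
    constructor
    · intro h
      by_cases h1 : χ = 1
      · exact Or.inl h1
      · exact Or.inr ⟨h, h1⟩
    · rintro (rfl | h)
      · exact one_pow d
      · exact h.1
  rw [h1, sum_insert]
  unfold Xe
  simp

theorem count_roots {p : ℕ} [Fact p.Prime] {d : ℕ} (hd : 1 ≤ d) {u : ZMod p} (hu : u ≠ 0) :
    (((univ : Finset (ZMod p)).filter (fun x => x ^ d = u)).card : ℂ) = ∑ χ ∈ Xd p d, χ u := by
  have hp := Fact.out (p := p.Prime)
  have hp1 : ((p : ℂ) - 1) ≠ 0 := by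
    have : ((p - 1 : ℕ) : ℂ) ≠ 0 := by
      have := hp.one_lt
      exact_mod_cast (by omega : p - 1 ≠ 0)
    rwa [Nat.cast_sub hp.one_lt.le, Nat.cast_one] at this
  have htot : ((p.totient : ℕ) : ℂ) = (p : ℂ) - 1 := by
    rw [Nat.totient_prime hp, Nat.cast_sub hp.one_lt.le, Nat.cast_one]
  have hU : IsUnit u := hu.isUnit
  have h1 : ((p : ℂ) - 1) * (((univ : Finset (ZMod p)).filter (fun x => x ^ d = u)).card : ℂ) =
      ∑ x : ZMod p, ∑ χ : DirichletCharacter ℂ p, χ u⁻¹ * χ (x ^ d) := by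
    rw [Finset.card_filter]
    push_cast
    rw [mul_sum]
    refine sum_congr rfl fun x _ => ?_
    rw [DirichletCharacter.sum_char_inv_mul_char_eq ℂ hU (x ^ d), htot]
    by_cases h : x ^ d = u
    · rw [if_pos h, if_pos h.symm, mul_one]
    · rw [if_neg h, if_neg (fun h' => h h'.symm), mul_zero]
  have h2 : ∑ x : ZMod p, ∑ χ : DirichletCharacter ℂ p, χ u⁻¹ * χ (x ^ d) =
      ∑ χ : DirichletCharacter ℂ p, χ u⁻¹ * (if χ ^ d = 1 then ((p : ℂ) - 1) else 0) := by
    rw [sum_comm]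
    refine sum_congr rfl fun χ _ => ?_
    rw [← mul_sum]
    congr 1
    have h3 : ∀ x : ZMod p, χ (x ^ d) = (χ ^ d) x := by
      intro x
      rw [map_pow, MulChar.pow_apply' χ (by omega)]
    rw [sum_congr rfl fun x _ => h3 x]
    by_cases h : χ ^ d = 1
    · rw [if_pos h, h]
      rw [MulChar.sum_one_eq_card_units, ZMod.card_units_eq_totient, htot]
    · rw [if_neg h]
      exact MulChar.sum_eq_zero_of_ne_one h
  have h3 : ∑ χ : DirichletCharacter ℂ p, χ u⁻¹ * (if χ ^ d = 1 then ((p : ℂ) - 1) else 0) =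
      ((p : ℂ) - 1) * ∑ χ ∈ Xd p d, χ u := by
    unfold Xd
    rw [sum_filter, mul_sum]
    refine Finset.sum_equiv (Equiv.inv _) (by simp) ?_
    intro χ _
    simp only [Equiv.inv_apply, inv_pow, inv_eq_one]
    by_cases h : χ ^ d = 1
    · rw [if_pos h, if_pos h, MulChar.inv_apply', mul_comm]
    · rw [if_neg h, if_neg h, mul_zero, mul_zero]
  exact mul_left_cancel₀ hp1 (h1.trans (h2.trans h3))

theorem card_roots_le {p : ℕ} [Fact p.Prime] {d : ℕ} (hd : 1 ≤ d) (u : ZMod p) :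
    ((univ : Finset (ZMod p)).filter (fun x => x ^ d = u)).card ≤ d := by
  have h1 : (univ : Finset (ZMod p)).filter (fun x => x ^ d = u) ⊆
      (Polynomial.nthRoots d u).toFinset := by
    intro x hx
    rw [mem_filter] at hx
    rw [Multiset.mem_toFinset, Polynomial.mem_nthRoots (by omega)]
    exact hx.2
  exact (card_le_card h1).trans ((Multiset.toFinset_card_le _).trans
    (Polynomial.card_nthRoots d u))

theorem card_Xd_le {p : ℕ} [Fact p.Prime] {d : ℕ} (hd : 1 ≤ d) : (Xd p d).card ≤ d := by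
  have h1 := count_roots (p := p) hd (u := 1) one_ne_zero
  simp only [MulChar.map_one, sum_const, nsmul_eq_mul, mul_one] at h1
  have h2 := card_roots_le (p := p) hd 1
  have h3 : (Xd p d).card = ((univ : Finset (ZMod p)).filter (fun x => x ^ d = 1)).card := by
    exact_mod_cast h1.symm
  omega

theorem prim_of_ne_one {p : ℕ} [Fact p.Prime] {χ : DirichletCharacter ℂ p} (h : χ ≠ 1) :
    χ.IsPrimitive := by
  have hp := Fact.out (p := p.Prime)
  rw [DirichletCharacter.isPrimitive_def]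
  rcases (Nat.dvd_prime hp).mp χ.conductor_dvd_level with h1 | h1
  · exact absurd (DirichletCharacter.eq_one_iff_conductor_eq_one.mpr h1) h
  · exact h1

/-- the number of solutions -/
theorem rt_card {a d p : ℕ} {k : ℤ} (hp : p.Prime) (ha : ¬ p ∣ a) :
    haveI : Fact p.Prime := ⟨hp⟩
    rt a d k p = ((univ : Finset (ZMod p)).filter
      (fun x => x ^ d = -(k : ZMod p) / (a : ZMod p))).card := by
  have : Fact p.Prime := ⟨hp⟩
  have ha0 : (a : ZMod p) ≠ 0 := by
    rw [Ne, ZMod.natCast_eq_zero_iff]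
    exact ha
  have hiff : ∀ x : ℕ, (p : ℤ) ∣ (a : ℤ) * (x : ℤ) ^ d + k ↔
      (x : ZMod p) ^ d = -(k : ZMod p) / (a : ZMod p) := by
    intro x
    rw [← ZMod.intCast_zmod_eq_zero_iff_dvd]
    push_cast
    rw [eq_div_iff ha0]
    constructor
    · intro h
      linear_combination h
    · intro h
      linear_combination h
  unfold rt
  refine Finset.card_bij (fun x _ => (x : ZMod p)) ?_ ?_ ?_
  · intro x hx
    rw [mem_filter] at hx ⊢
    exact ⟨mem_univ _, (hiff x).mp hx.2⟩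
  · intro x hx y hy h
    rw [mem_filter, mem_range] at hx hy
    rw [ZMod.natCast_eq_natCast_iff'] at h
    rwa [Nat.mod_eq_of_lt hx.1, Nat.mod_eq_of_lt hy.1] at h
  · intro z hz
    rw [mem_filter] at hz
    refine ⟨z.val, ?_, ZMod.natCast_zmod_val z⟩
    rw [mem_filter, mem_range]
    refine ⟨ZMod.val_lt z, (hiff _).mpr ?_⟩
    rw [ZMod.natCast_zmod_val]
    exact hz.2

theorem rt_le {a d p : ℕ} {k : ℤ} (hp : p.Prime) (ha : ¬ p ∣ a) (hd : 1 ≤ d) :
    rt a d k p ≤ d := by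
  have : Fact p.Prime := ⟨hp⟩
  rw [rt_card hp ha]
  exact card_roots_le hd _

/-- the unit `-σ / a` -/
noncomputable def bb (a : ℕ) (σ : ℤ) (p : ℕ) : ZMod p := -(σ : ZMod p) * (a : ZMod p)⁻¹

theorem rt_eq {a d p u : ℕ} {σ : ℤ} (hp : p.Prime) (ha : ¬ p ∣ a) (hd : 1 ≤ d)
    (hσ : σ = 1 ∨ σ = -1) (hu : ¬ p ∣ u) :
    ((rt a d (σ * u) p : ℕ) : ℂ) - 1 =
      ∑ χ ∈ Xe p d, χ (bb a σ p) * χ (u : ZMod p) := by
  have : Fact p.Prime := ⟨hp⟩
  have ha0 : (a : ZMod p) ≠ 0 := by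
    rw [Ne, ZMod.natCast_eq_zero_iff]
    exact ha
  have hu0 : (u : ZMod p) ≠ 0 := by
    rw [Ne, ZMod.natCast_eq_zero_iff]
    exact hu
  have hσ0 : (σ : ZMod p) ≠ 0 := by
    rcases hσ with rfl | rfl <;> simp
  have e : -((σ * (u : ℤ) : ℤ) : ZMod p) / (a : ZMod p) = bb a σ p * (u : ZMod p) := by
    unfold bb
    push_cast
    ring
  have hb0 : bb a σ p ≠ 0 := by
    unfold bb
    exact mul_ne_zero (neg_ne_zero.mpr hσ0) (inv_ne_zero ha0)
  rw [rt_card hp ha, e]
  have hne : bb a σ p * (u : ZMod p) ≠ 0 := mul_ne_zero hb0 hu0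
  rw [count_roots hd hne]
  rw [sum_Xd, MulChar.one_apply hne.isUnit, add_sub_cancel_left]
  refine sum_congr rfl fun χ _ => ?_
  rw [map_mul]

theorem Xe_subset (p d : ℕ) : Xe p d ⊆ Xd p d := by
  intro χ hχ
  unfold Xe at hχ
  unfold Xd
  rw [mem_filter] at hχ ⊢
  exact ⟨hχ.1, hχ.2.1⟩

theorem mem_Xe_ne {p d : ℕ} {χ : DirichletCharacter ℂ p} (h : χ ∈ Xe p d) : χ ≠ 1 := by
  unfold Xe at h
  rw [mem_filter] at h
  exact h.2.2

theorem card_Xe_le {p : ℕ} [Fact p.Prime] {d : ℕ} (hd : 1 ≤ d) : (Xe p d).card ≤ d :=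
  (card_le_card (Xe_subset p d)).trans (card_Xd_le (p := p) hd)

end Pool.Agent.W154.PV
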