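import Mathlib

set_option autoImplicit false

/-! # Two different colours are never hit by the same large prime -/

namespace Pool.Agent.W154.PV

open Finset

open scoped Classical

/-- perfect powers with an exponent between `2` and `D` -/
def IsPP (D m : ℕ) : Prop := ∃ e b : ℕ, 2 ≤ e ∧ e ≤ D ∧ b ^ e = m

theorem pp_of_pow_eq {D x y d d' : ℕ} (hd : 1 ≤ d) (hdd : d < d') (hD : d' ≤ D)
    (h : x ^ d' = y ^ d) : IsPP D y := by
  set g := Nat.gcd d' d with hg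
  have hg0 : 0 < g := Nat.gcd_pos_of_pos_right _ (by omega)
  obtain ⟨e₂, he₂⟩ := Nat.gcd_dvd_left d' d
  obtain ⟨e₁, he₁⟩ := Nat.gcd_dvd_right d' d
  rw [← hg] at he₁ he₂
  have hcop : Nat.Coprime e₂ e₁ := by
    have h1 : Nat.gcd (g * e₂) (g * e₁) = g := by rw [← he₁, ← he₂]
    rw [Nat.gcd_mul_left] at h1
    exact Nat.eq_of_mul_eq_mul_left hg0 (by rw [h1, mul_one])
  have h12 : e₁ < e₂ := by
    have h1 : g * e₁ < g * e₂ := by rw [← he₁, ← he₂]; exact hdd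
    exact Nat.lt_of_mul_lt_mul_left h1
  have he10 : 1 ≤ e₁ := by
    rcases Nat.eq_zero_or_pos e₁ with h0 | h0
    · rw [h0, mul_zero] at he₁; omega
    · exact h0
  have heD : e₂ ≤ D := by
    have : e₂ ≤ g * e₂ := Nat.le_mul_of_pos_left _ hg0
    omega
  have h1 : x ^ e₂ = y ^ e₁ := by
    rw [he₁, he₂, mul_comm g e₂, mul_comm g e₁, pow_mul, pow_mul] at h
    exact Nat.pow_left_injective (by omega : g ≠ 0) h
  have h2 : ((x : ℚ)) ^ e₂ = ((y : ℚ)) ^ e₁ := by exact_mod_cast h1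
  obtain ⟨c, -, hc⟩ := (pow_eq_pow_iff_of_coprime hcop).mp h2
  have h3 : c.den ^ e₂ = 1 := by
    rw [← Rat.den_pow, ← hc]
    exact Rat.den_natCast y
  have h4 : c.den = 1 := by
    exact (Nat.pow_eq_one.mp h3).resolve_right (by omega)
  have h5 : (c.num : ℚ) = c := (Rat.den_eq_one_iff c).mp h4
  refine ⟨e₂, c.num.natAbs, by omega, heD, ?_⟩
  have h6 : ((c.num : ℤ)) ^ e₂ = (y : ℤ) := by
    have : ((c.num : ℚ)) ^ e₂ = (y : ℚ) := by rw [h5]; exact hc.symm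
    exact_mod_cast this
  rw [← Int.natAbs_pow, h6, Int.natAbs_natCast]

/-- few perfect powers -/
theorem card_PP (D T : ℕ) :
    (((Icc 1 T).filter (fun m => IsPP D m)).card : ℝ) ≤ D * Real.sqrt T := by
  have hsub : (Icc 1 T).filter (fun m => IsPP D m) ⊆
      (Icc 2 D).biUnion (fun e => (Icc 1 (Nat.sqrt T)).image (fun b => b ^ e)) := by
    intro m hm
    rw [mem_filter, mem_Icc] at hm
    obtain ⟨⟨h1, h2⟩, e, b, he, heD, hb⟩ := hm
    rw [mem_biUnion]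
    refine ⟨e, mem_Icc.mpr ⟨he, heD⟩, ?_⟩
    rw [mem_image]
    refine ⟨b, ?_, hb⟩
    rw [mem_Icc]
    have hb1 : 1 ≤ b := by
      rcases Nat.eq_zero_or_pos b with h0 | h0
      · rw [h0, zero_pow (by omega)] at hb; omega
      · exact h0
    refine ⟨hb1, ?_⟩
    rw [Nat.le_sqrt]
    calc b * b = b ^ 2 := by ring
      _ ≤ b ^ e := Nat.pow_le_pow_right hb1 he
      _ ≤ T := by omega
  have h1 : ((Icc 1 T).filter (fun m => IsPP D m)).card ≤ D * Nat.sqrt T := by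
    refine (card_le_card hsub).trans (card_biUnion_le.trans ?_)
    calc ∑ e ∈ Icc 2 D, ((Icc 1 (Nat.sqrt T)).image (fun b => b ^ e)).card ≤
          ∑ _e ∈ Icc 2 D, Nat.sqrt T := sum_le_sum fun e _ => by
            refine card_image_le.trans ?_
            rw [Nat.card_Icc]; omega
      _ ≤ D * Nat.sqrt T := by
          rw [sum_const, smul_eq_mul, Nat.card_Icc]
          exact Nat.mul_le_mul_right _ (by omega)
  have h2 : (Nat.sqrt T : ℝ) ≤ Real.sqrt T := Real.nat_sqrt_le_real_sqrt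
  calc (((Icc 1 T).filter (fun m => IsPP D m)).card : ℝ) ≤ ((D * Nat.sqrt T : ℕ) : ℝ) := by
        exact_mod_cast h1
    _ = D * (Nat.sqrt T : ℝ) := by push_cast; ring
    _ ≤ _ := by gcongr

theorem coll_aux {D T a a' d d' : ℕ} {k k' : ℤ} {p : ℕ} {n : ℤ}
    (ha' : 1 ≤ a') (haD : a ≤ D) (haD' : a' ≤ D) (hd : 1 ≤ d)
    (hdD' : d' ≤ D) (hT : 1 ≤ T) (hkT : |k| ≤ (T : ℤ)) (hkT' : |k'| ≤ (T : ℤ))
    (hg : Int.gcd a k = 1) (hg' : Int.gcd a' k' = 1)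
    (hpp' : ¬ IsPP D k'.natAbs) (hbig : 2 * (D * T) ^ D < p)
    (h1 : (p : ℤ) ∣ (a : ℤ) * n ^ d + k) (h2 : (p : ℤ) ∣ (a' : ℤ) * n ^ d' + k')
    (hdd : d < d') : False := by
  have hD1 : 1 ≤ D := by omega
  -- the resultant
  have hR : (p : ℤ) ∣ (a' : ℤ) ^ d * (-k) ^ d' - (a : ℤ) ^ d' * (-k') ^ d := by
    have e1 : (p : ℤ) ∣ ((a : ℤ) * n ^ d) ^ d' - (-k) ^ d' := by
      refine dvd_trans ?_ (sub_dvd_pow_sub_pow _ _ d')
      have : (a : ℤ) * n ^ d - -k = (a : ℤ) * n ^ d + k := by ring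
      rw [this]; exact h1
    have e2 : (p : ℤ) ∣ ((a' : ℤ) * n ^ d') ^ d - (-k') ^ d := by
      refine dvd_trans ?_ (sub_dvd_pow_sub_pow _ _ d)
      have : (a' : ℤ) * n ^ d' - -k' = (a' : ℤ) * n ^ d' + k' := by ring
      rw [this]; exact h2
    have e3 := dvd_sub (Dvd.dvd.mul_left e2 ((a : ℤ) ^ d')) (Dvd.dvd.mul_left e1 ((a' : ℤ) ^ d))
    have e4 : (a : ℤ) ^ d' * (((a' : ℤ) * n ^ d') ^ d - (-k') ^ d) -
        (a' : ℤ) ^ d * (((a : ℤ) * n ^ d) ^ d' - (-k) ^ d') =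
        (a' : ℤ) ^ d * (-k) ^ d' - (a : ℤ) ^ d' * (-k') ^ d := by
      rw [mul_pow, mul_pow, ← pow_mul, ← pow_mul, mul_comm d' d]
      ring
    rwa [e4] at e3
  have hbd : ∀ (x z : ℤ) (i j : ℕ), |x| ≤ D → |z| ≤ T → i ≤ D → j ≤ D →
      |x ^ i * z ^ j| ≤ ((D * T : ℕ) : ℤ) ^ D := by
    intro x z i j hx hz hi hj
    rw [abs_mul, abs_pow, abs_pow]
    have hD' : (1 : ℤ) ≤ D := by exact_mod_cast hD1
    have hT' : (1 : ℤ) ≤ T := by exact_mod_cast hT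
    calc |x| ^ i * |z| ^ j ≤ (D : ℤ) ^ i * (T : ℤ) ^ j := by
          gcongr
      _ ≤ (D : ℤ) ^ D * (T : ℤ) ^ D := by
          gcongr
      _ = ((D * T : ℕ) : ℤ) ^ D := by push_cast; rw [mul_pow]
  have hz : (a' : ℤ) ^ d * (-k) ^ d' - (a : ℤ) ^ d' * (-k') ^ d = 0 := by
    apply Int.eq_zero_of_abs_lt_dvd hR
    have b1 := hbd (a' : ℤ) (-k) d d' (by rw [Nat.abs_cast]; exact_mod_cast haD')
      (by rw [abs_neg]; exact hkT) (by omega) hdD'
    have b2 := hbd (a : ℤ) (-k') d' d (by rw [Nat.abs_cast]; exact_mod_cast haD)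
      (by rw [abs_neg]; exact hkT') hdD' (by omega)
    have b3 : (2 : ℤ) * ((D * T : ℕ) : ℤ) ^ D < p := by exact_mod_cast hbig
    have b4 := abs_sub ((a' : ℤ) ^ d * (-k) ^ d') ((a : ℤ) ^ d' * (-k') ^ d)
    linarith
  -- absolute values
  have hnat : a' ^ d * k.natAbs ^ d' = a ^ d' * k'.natAbs ^ d := by
    have h3 : (a' : ℤ) ^ d * (-k) ^ d' = (a : ℤ) ^ d' * (-k') ^ d := by linarith
    have h4 := congrArg Int.natAbs h3
    rw [Int.natAbs_mul, Int.natAbs_mul, Int.natAbs_pow, Int.natAbs_pow, Int.natAbs_pow,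
      Int.natAbs_pow, Int.natAbs_neg, Int.natAbs_neg, Int.natAbs_natCast, Int.natAbs_natCast] at h4
    exact h4
  have hc1 : Nat.Coprime (a ^ d') (k.natAbs ^ d') := by
    apply Nat.Coprime.pow
    exact hg
  have hc2 : Nat.Coprime (a' ^ d) (k'.natAbs ^ d) := by
    apply Nat.Coprime.pow
    exact hg'
  have hd1 : k.natAbs ^ d' ∣ k'.natAbs ^ d := by
    have : k.natAbs ^ d' ∣ a ^ d' * k'.natAbs ^ d := ⟨a' ^ d, by rw [← hnat]; ring⟩
    exact hc1.symm.dvd_of_dvd_mul_left this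
  have hd2 : k'.natAbs ^ d ∣ k.natAbs ^ d' := by
    have : k'.natAbs ^ d ∣ a' ^ d * k.natAbs ^ d' := ⟨a ^ d', by rw [hnat]; ring⟩
    exact hc2.symm.dvd_of_dvd_mul_left this
  exact hpp' (pp_of_pow_eq hd hdd hdD' (Nat.dvd_antisymm hd1 hd2))

theorem coll {D T a a' d d' : ℕ} {k k' : ℤ} {p : ℕ} {n : ℤ}
    (ha : 1 ≤ a) (ha' : 1 ≤ a') (haD : a ≤ D) (haD' : a' ≤ D) (hd : 1 ≤ d) (hd' : 1 ≤ d')
    (hdD : d ≤ D) (hdD' : d' ≤ D) (hT : 1 ≤ T) (hkT : |k| ≤ (T : ℤ)) (hkT' : |k'| ≤ (T : ℤ))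
    (hg : Int.gcd a k = 1) (hg' : Int.gcd a' k' = 1)
    (hpp : ¬ IsPP D k.natAbs) (hpp' : ¬ IsPP D k'.natAbs) (hbig : 2 * (D * T) ^ D < p)
    (h1 : (p : ℤ) ∣ (a : ℤ) * n ^ d + k) (h2 : (p : ℤ) ∣ (a' : ℤ) * n ^ d' + k') :
    a = a' ∧ d = d' ∧ k = k' := by
  rcases lt_trichotomy d d' with hdd | hdd | hdd
  · exact (coll_aux ha' haD haD' hd hdD' hT hkT hkT' hg hg' hpp' hbig h1 h2 hdd).elim
  · subst hdd
    have hR : (p : ℤ) ∣ (a' : ℤ) * k - (a : ℤ) * k' := by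
      have e3 := dvd_sub (Dvd.dvd.mul_left h1 (a' : ℤ)) (Dvd.dvd.mul_left h2 (a : ℤ))
      have e4 : (a' : ℤ) * ((a : ℤ) * n ^ d + k) - (a : ℤ) * ((a' : ℤ) * n ^ d + k') =
          (a' : ℤ) * k - (a : ℤ) * k' := by ring
      rwa [e4] at e3
    have hz : (a' : ℤ) * k - (a : ℤ) * k' = 0 := by
      apply Int.eq_zero_of_abs_lt_dvd hR
      have b3 : (2 : ℤ) * ((D * T : ℕ) : ℤ) ^ D < p := by exact_mod_cast hbig
      have b5 : ((D * T : ℕ) : ℤ) ≤ ((D * T : ℕ) : ℤ) ^ D := by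
        have : D * T ≤ (D * T) ^ D := Nat.le_self_pow (by omega) _
        exact_mod_cast this
      have b4 := abs_sub ((a' : ℤ) * k) ((a : ℤ) * k')
      have b1 : |(a' : ℤ) * k| ≤ ((D * T : ℕ) : ℤ) := by
        rw [abs_mul, Nat.abs_cast]
        push_cast
        have : (a' : ℤ) ≤ D := by exact_mod_cast haD'
        gcongr
      have b2 : |(a : ℤ) * k'| ≤ ((D * T : ℕ) : ℤ) := by
        rw [abs_mul, Nat.abs_cast]
        push_cast
        have : (a : ℤ) ≤ D := by exact_mod_cast haD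
        gcongr
      linarith
    have h3 : (a' : ℤ) * k = (a : ℤ) * k' := by linarith
    have hc : IsCoprime (a : ℤ) k := Int.isCoprime_iff_gcd_eq_one.mpr hg
    have hc' : IsCoprime (a' : ℤ) k' := Int.isCoprime_iff_gcd_eq_one.mpr hg'
    have e1 : (a : ℤ) ∣ a' := by
      have : (a : ℤ) ∣ (a' : ℤ) * k := ⟨k', h3⟩
      exact hc.dvd_of_dvd_mul_right this
    have e2 : (a' : ℤ) ∣ a := by
      have : (a' : ℤ) ∣ (a : ℤ) * k' := ⟨k, h3.symm⟩
      exact hc'.dvd_of_dvd_mul_right this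
    have e3 : a = a' := Nat.dvd_antisymm (by exact_mod_cast e1) (by exact_mod_cast e2)
    refine ⟨e3, rfl, ?_⟩
    rw [e3] at h3
    have : (a' : ℤ) ≠ 0 := by
      have : 0 < a' := by omega
      exact_mod_cast this.ne'
    exact mul_left_cancel₀ this h3
  · exact (coll_aux ha haD' haD hd' hdD hT hkT' hkT hg' hg hpp hbig h2 h1 hdd).elim

end Pool.Agent.W154.PV
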