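import Pool.Agent.W154.PV.Cnt
import Pool.Agent.W154.PV.Chars
import Pool.Agent.W154.PV.Coll
import Pool.Agent.H426R3.SQ.M1b

set_option autoImplicit false

/-! # The arithmetic core for the values `a n ^ d` -/

namespace Pool.Agent.W154.PV

open Finset Pool.Agent.H256R2.SC Pool.Agent.H426R3.SQ

open scoped Classical

/-- the covering theorem at `X` -/
def CovAtD (Δ c₂ c X : ℝ) : Prop :=
    ∀ (B : Finset ℕ) (κ : Type) [Fintype κ] [DecidableEq κ] [Nonempty κ],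
    (Fintype.card κ : ℝ) ≤ c * Real.log X →
    ∀ (hit : ℕ → ℤ → κ → Prop) (g : ℕ → κ → ℝ),
    (∀ p k, 0 ≤ g p k ∧ g p k ≤ Δ / (p : ℝ)) →
    (∀ p : ℕ, p.Prime → (Real.log X) ^ 3 < p → ∀ a k l, hit p a k → hit p a l → k = l) →
    (∀ k, ∀ z x : ℝ, (Real.log X) ^ 3 ≤ x → x ≤ z → z ≤ Real.exp ((Real.log X) ^ (1 / 20 : ℝ)) →
      c₂ * Real.log x / Real.log (Real.log X) - 1 ≤
        ∑ s ∈ ((SP ((Real.log X) ^ 3) z B).powerset.filter
            (fun s : Finset ℕ => s.Nonempty ∧ ∏ p ∈ s, (p : ℝ) ≤ x)), ∏ p ∈ s, g p k) →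
    ∀ (𝒜 : Finset ℤ) (N Err : ℝ), X ^ (1 / 2 : ℝ) ≤ N → 0 ≤ Err → Err ≤ X ^ (1 / 10 : ℝ) →
    (∀ (T : Finset ℕ) (s : ℕ → κ), (∏ p ∈ T, (p : ℝ)) ≤ X ^ (1 / 4 : ℝ) →
      (∀ p ∈ T, p.Prime ∧ (Real.log X) ^ 3 < p ∧ p ∉ B) →
      |((𝒜.filter (fun a => ∀ p ∈ T, hit p a (s p))).card : ℝ) - N * ∏ p ∈ T, g p (s p)| ≤ Err) →
    ∃ a ∈ 𝒜, ∀ k : κ, ∃ p : ℕ, p.Prime ∧ (Real.log X) ^ 3 < p ∧
      (p : ℝ) ≤ Real.exp ((Real.log X) ^ (1 / 20 : ℝ)) ∧ p ∉ B ∧ hit p a k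

/-- the colours `(a, d, k)`, standing for the number `a n ^ d + k` -/
abbrev Cl := ℕ × ℕ × ℤ

/-- the value -/
def val (c : Cl) (n : ℤ) : ℤ := (c.1 : ℤ) * n ^ c.2.1 + c.2.2

/-- all the colours -/
noncomputable def box (D T : ℕ) : Finset Cl :=
  ((Icc 1 D) ×ˢ ((Icc 1 D) ×ˢ (Icc (-(T : ℤ)) (T : ℤ)))).filter
    (fun c => Int.gcd c.1 c.2.2 = 1)

theorem mem_box {D T : ℕ} {c : Cl} : c ∈ box D T ↔
    (1 ≤ c.1 ∧ c.1 ≤ D) ∧ (1 ≤ c.2.1 ∧ c.2.1 ≤ D) ∧ |c.2.2| ≤ (T : ℤ) ∧ Int.gcd c.1 c.2.2 = 1 := by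
  unfold box
  rw [mem_filter, mem_product, mem_product, mem_Icc, mem_Icc, mem_Icc, abs_le]
  tauto

/-- the surviving colours -/
noncomputable def GP (D : ℕ) (y : ℝ) (T : ℕ) (Bad : Finset Cl) : Finset Cl :=
  (box D T).filter (fun c => c ∉ Bad ∧
    (∀ p : ℕ, p.Prime → zR y < (p : ℝ) → (p : ℝ) ≤ y → ¬ (p : ℤ) ∣ c.2.2) ∧
    (∀ p : ℕ, p.Prime → (p : ℝ) ≤ zR y → ¬ (p : ℤ) ∣ (c.1 : ℤ) + c.2.2))

/-- the density -/
noncomputable def gc (Y₁ : ℝ) (p : ℕ) (c : Cl) : ℝ :=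
  if p.Prime ∧ Y₁ < (p : ℝ) then (rt c.1 c.2.1 c.2.2 p : ℝ) / (p : ℝ) else 0

theorem gc_bound {D T : ℕ} {Y₁ : ℝ} (hDY : (D : ℝ) ≤ Y₁) (p : ℕ) (c : Cl) (hc : c ∈ box D T) :
    0 ≤ gc Y₁ p c ∧ gc Y₁ p c ≤ (D : ℝ) / (p : ℝ) := by
  unfold gc
  split_ifs with h
  · obtain ⟨⟨h1, h2⟩, ⟨h3, h4⟩, -, -⟩ := mem_box.mp hc
    have hpa : ¬ p ∣ c.1 := by
      intro hd
      have h5 := Nat.le_of_dvd (by omega) hd
      have h6 : (p : ℝ) ≤ D := by exact_mod_cast h5.trans h2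
      linarith [h.2]
    have h5 : rt c.1 c.2.1 c.2.2 p ≤ D := (rt_le h.1 hpa h3).trans h4
    have h6 : (rt c.1 c.2.1 c.2.2 p : ℝ) ≤ D := by exact_mod_cast h5
    exact ⟨by positivity, div_le_div_of_nonneg_right h6 (Nat.cast_nonneg p)⟩
  · exact ⟨le_rfl, by positivity⟩

theorem val_congr (c : Cl) (p : ℕ) (x y : ℤ) (h : (p : ℤ) ∣ x - y) :
    (p : ℤ) ∣ val c x ↔ (p : ℤ) ∣ val c y := by
  refine dvd_iff_dvd_of_dvd_sub ?_
  unfold val
  have e : (c.1 : ℤ) * x ^ c.2.1 + c.2.2 - ((c.1 : ℤ) * y ^ c.2.1 + c.2.2) =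
      (c.1 : ℤ) * (x ^ c.2.1 - y ^ c.2.1) := by ring
  rw [e]
  exact Dvd.dvd.mul_left (h.trans (sub_dvd_pow_sub_pow _ _ _)) _

theorem nu_val (c : Cl) (p : ℕ) :
    nu (fun a => (p : ℤ) ∣ val c a) p = rt c.1 c.2.1 c.2.2 p := by
  unfold nu rt val
  congr 1
  ext x
  simp only [mem_filter]

/-- the arithmetic core -/
theorem pow_arith {D : ℕ} {c₂ c Y Y₁ : ℝ} (hcov : CovAtD D c₂ c Y) (hY : 1 ≤ Y) {y : ℝ}
    (hy0 : 0 ≤ y) (hDy : (D : ℝ) ≤ y) (hzy : zR y ≤ y) (hyL : y ≤ (Real.log Y) ^ 3)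
    (hDL : (D : ℝ) ≤ Real.log Y) (hY₁ : (Real.log Y) ^ 3 ≤ Y₁)
    {T : ℕ} (hT1 : 1 ≤ T) (hT : ((2 * (D * T) ^ D : ℕ) : ℝ) ≤ Y₁)
    (Bad : Finset Cl) (pu : Cl → ℕ) (P9 R : ℝ) (hP9 : 1 ≤ P9)
    (hpu : ∀ c ∈ Bad, (pu c).Prime ∧ y < (pu c : ℝ) ∧ (pu c : ℝ) ≤ P9 ∧
      ∃ t : ℤ, (pu c : ℤ) ∣ val c t)
    (hinj : Set.InjOn pu (Bad : Set Cl))
    (hPP : ∀ c ∈ box D T, IsPP D c.2.2.natAbs → c ∈ Bad)
    (hrough : ∀ c ∈ GP D y T Bad, ∀ z x : ℝ, (Real.log Y) ^ 3 ≤ x →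
      x ≤ z → z ≤ Real.exp ((Real.log Y) ^ (1 / 20 : ℝ)) →
      c₂ * Real.log x / Real.log (Real.log Y) - 1 ≤
        ∑ s ∈ ((SP ((Real.log Y) ^ 3) z (Bad.image pu)).powerset.filter
            (fun s : Finset ℕ => s.Nonempty ∧ ∏ p ∈ s, (p : ℝ) ≤ x)), ∏ p ∈ s, gc Y₁ p c)
    (hcard : ((GP D y T Bad).card : ℝ) ≤ c * Real.log Y)
    (hW : 4 * ((primorial ⌊y⌋₊ : ℝ) * P9 ^ Bad.card) ≤ Y ^ (1 / 2 : ℝ))
    (hR1 : y ≤ R) (hR2 : P9 ≤ R) (hR3 : Real.exp ((Real.log Y) ^ (1 / 20 : ℝ)) ≤ R)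
    (M : ℕ) (hR4 : R + T < (M : ℝ)) :
    ∃ m : ℕ, M < m ∧ (m : ℝ) ≤ M + Y ∧
      ∀ a d : ℕ, 1 ≤ a → a ≤ D → 1 ≤ d → d ≤ D →
        ∀ q : ℕ, |(q : ℤ) - (a : ℤ) * (m : ℤ) ^ d| ≤ (T : ℤ) → ¬ q.Prime := by
  have hY0 : 0 < Y := by linarith
  set L : ℝ := Real.log Y with hL
  have hL0 : 0 ≤ L := Real.log_nonneg hY
  have hYr : ∀ s : ℝ, Y ^ s = Real.exp (s * L) := by
    intro s
    rw [Real.rpow_def_of_pos hY0, mul_comm]
  have hDY₁ : (D : ℝ) ≤ Y₁ := by linarith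
  -- the set of primes
  set S₁ : Finset ℕ := (range (⌊y⌋₊ + 1)).filter Nat.Prime with hS₁
  set B : Finset ℕ := Bad.image pu with hB
  have hS₁mem : ∀ p : ℕ, p ∈ S₁ ↔ p.Prime ∧ (p : ℝ) ≤ y := by
    intro p
    rw [hS₁, mem_filter, mem_range, Nat.lt_succ_iff, Nat.le_floor_iff hy0]
    exact and_comm
  have hBmem : ∀ p ∈ B, p.Prime ∧ y < (p : ℝ) ∧ (p : ℝ) ≤ P9 := by
    intro p hp
    obtain ⟨u, hu, rfl⟩ := mem_image.mp hp
    exact ⟨(hpu u hu).1, (hpu u hu).2.1, (hpu u hu).2.2.1⟩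
  have hdisj : Disjoint S₁ B := by
    rw [Finset.disjoint_left]
    intro p h1 h2
    have h3 := ((hS₁mem p).mp h1).2
    have h4 := (hBmem p h2).2.1
    linarith
  set S : Finset ℕ := S₁ ∪ B with hS
  have hSp : ∀ p ∈ S, p.Prime := by
    intro p hp
    rcases mem_union.mp hp with h | h
    · exact ((hS₁mem p).mp h).1
    · exact (hBmem p h).1
  set W : ℕ := ∏ p ∈ S, p with hWdef
  have hWeq : W = primorial ⌊y⌋₊ * ∏ p ∈ B, p := by
    rw [hWdef, hS, prod_union hdisj]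
    rfl
  have hWpos : 1 ≤ W := Nat.one_le_iff_ne_zero.mpr
    (Finset.prod_ne_zero_iff.mpr fun p hp => (hSp p hp).ne_zero)
  have hWle : (W : ℝ) ≤ (primorial ⌊y⌋₊ : ℝ) * P9 ^ Bad.card := by
    rw [hWeq]
    push_cast
    apply mul_le_mul_of_nonneg_left _ (Nat.cast_nonneg _)
    calc ∏ p ∈ B, (p : ℝ) ≤ ∏ p ∈ B, P9 :=
          prod_le_prod (fun _ _ => Nat.cast_nonneg _) fun p hp => (hBmem p hp).2.2
      _ = P9 ^ B.card := by rw [prod_const]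
      _ ≤ P9 ^ Bad.card := pow_le_pow_right₀ hP9 (by rw [hB]; exact card_image_le)
  have hWr : (0 : ℝ) < W := by exact_mod_cast hWpos
  -- roots for the bad colours
  have hroot : ∀ p : ℕ, ∃ t : ℤ, ∀ u ∈ Bad, pu u = p → (p : ℤ) ∣ val u t := by
    intro p
    by_cases h : ∃ u ∈ Bad, pu u = p
    · obtain ⟨u, hu, hup⟩ := h
      obtain ⟨q1, q2, _, t, ht⟩ := hpu u hu
      refine ⟨t, fun v hv hvp => ?_⟩
      have : v = u := hinj hv hu (hvp.trans hup.symm)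
      rw [this, ← hup]
      exact ht
    · exact ⟨0, fun u hu hup => absurd ⟨u, hu, hup⟩ h⟩
  choose tt htt using hroot
  obtain ⟨r, hr⟩ := crt_int S (fun p => (p : ℤ)) (by
      intro i hi j hj hij
      exact Nat.isCoprime_iff_coprime.mpr ((Nat.coprime_primes (hSp i hi) (hSp j hj)).mpr hij))
    (fun p => if (p : ℝ) ≤ zR y then 1 else if (p : ℝ) ≤ y then 0 else tt p)
  set 𝒜 : Finset ℤ := (Ioc (M : ℤ) ((M : ℤ) + ⌊Y⌋₊)).filter (fun a => (W : ℤ) ∣ a - r) with h𝒜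
  have hfl : Y / 2 ≤ (⌊Y⌋₊ : ℝ) := by
    have h1 := Nat.lt_floor_add_one Y
    have h2 : (1 : ℝ) ≤ (⌊Y⌋₊ : ℝ) := by
      have : 1 ≤ ⌊Y⌋₊ := Nat.le_floor (by simpa using hY)
      exact_mod_cast this
    linarith
  set N : ℝ := (⌊Y⌋₊ : ℝ) / W with hNdef
  have hN : Y ^ (1 / 2 : ℝ) ≤ N := by
    rw [hNdef, le_div_iff₀ hWr]
    have h1 : (Y ^ (1 / 2 : ℝ)) * (Y ^ (1 / 2 : ℝ)) = Y := by
      rw [← Real.rpow_add hY0]; norm_num
    have h2 : 0 < Y ^ (1 / 2 : ℝ) := Real.rpow_pos_of_pos hY0 _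
    have h3 : (W : ℝ) ≤ Y ^ (1 / 2 : ℝ) / 4 := by linarith
    calc Y ^ (1 / 2 : ℝ) * W ≤ Y ^ (1 / 2 : ℝ) * (Y ^ (1 / 2 : ℝ) / 4) :=
          mul_le_mul_of_nonneg_left h3 h2.le
      _ = Y / 4 := by rw [← mul_div_assoc, h1]
      _ ≤ _ := by linarith
  have hN2 : 4 ≤ N := by
    refine le_trans ?_ hN
    refine le_trans ?_ hW
    have h1 : (1 : ℝ) ≤ (primorial ⌊y⌋₊ : ℝ) := by
      exact_mod_cast Nat.one_le_iff_ne_zero.mpr (primorial_pos _).ne'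
    have h2 : (1 : ℝ) ≤ P9 ^ Bad.card := one_le_pow₀ hP9
    nlinarith
  -- the counts
  have hcount : ∀ (T'' : Finset ℕ) (s : ℕ → Cl), (∀ p, s p ∈ box D T) →
      (∏ p ∈ T'', (p : ℝ)) ≤ Y ^ (1 / 4 : ℝ) → (∀ p ∈ T'', p.Prime ∧ L ^ 3 < p ∧ p ∉ B) →
      |((𝒜.filter (fun a => ∀ p ∈ T'', Y₁ < (p : ℝ) ∧ (p : ℤ) ∣ val (s p) a)).card : ℝ) -
        N * ∏ p ∈ T'', gc Y₁ p (s p)| ≤ Y ^ (1 / 10 : ℝ) := by
    intro T'' s hs hprod hT'
    by_cases hall : ∀ p ∈ T'', Y₁ < (p : ℝ)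
    · have hnd : ∀ p ∈ T'', p.Prime ∧ ¬ p ∣ W := by
        intro p hp
        obtain ⟨h1, h2, h3⟩ := hT' p hp
        refine ⟨h1, fun h4 => ?_⟩
        rw [hWdef, Prime.dvd_finsetProd_iff h1.prime] at h4
        obtain ⟨q, hq, hpq⟩ := h4
        have h5 : p = q := (Nat.prime_dvd_prime_iff_eq h1 (hSp q hq)).mp hpq
        rw [← h5] at hq
        rcases mem_union.mp hq with h | h
        · have := ((hS₁mem p).mp h).2
          linarith
        · exact h3 h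
      have h1 := count_gen (M : ℤ) ((M : ℤ) + ⌊Y⌋₊) (by omega) W hWpos r T'' hnd
        (fun p a => (p : ℤ) ∣ val (s p) a) (fun p _ x y' h => val_congr (s p) p x y' h)
      have h2 : ∀ p ∈ T'', (nu (fun a => (p : ℤ) ∣ val (s p) a) p : ℝ) / (p : ℝ) =
          gc Y₁ p (s p) := by
        intro p hp
        unfold gc
        rw [if_pos ⟨(hT' p hp).1, hall p hp⟩, nu_val]
      rw [prod_congr rfl h2] at h1
      have h4 : (((M : ℤ) + ⌊Y⌋₊ : ℤ) : ℝ) - ((M : ℤ) : ℝ) = (⌊Y⌋₊ : ℝ) := by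
        push_cast
        ring
      rw [h4] at h1
      have h5 : (𝒜.filter (fun a => ∀ p ∈ T'', Y₁ < (p : ℝ) ∧ (p : ℤ) ∣ val (s p) a)) =
          (Ioc (M : ℤ) ((M : ℤ) + ⌊Y⌋₊)).filter (fun a : ℤ => (W : ℤ) ∣ a - r ∧
            ∀ p ∈ T'', (p : ℤ) ∣ val (s p) a) := by
        rw [h𝒜, filter_filter]
        apply filter_congr
        intro a _
        constructor
        · rintro ⟨h6, h7⟩
          exact ⟨h6, fun p hp => (h7 p hp).2⟩
        · rintro ⟨h6, h7⟩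
          exact ⟨h6, fun p hp => ⟨hall p hp, h7 p hp⟩⟩
      rw [h5, hNdef]
      refine le_trans (le_of_eq (by congr!)) (h1.trans ?_)
      -- the error
      have hnu : ∀ p ∈ T'', (nu (fun a => (p : ℤ) ∣ val (s p) a) p : ℝ) ≤ D := by
        intro p hp
        obtain ⟨⟨e1, e2⟩, ⟨e3, e4⟩, -, -⟩ := mem_box.mp (hs p)
        have hpa : ¬ p ∣ (s p).1 := by
          intro hd
          have h5 := Nat.le_of_dvd (by omega) hd
          have h6 : (p : ℝ) ≤ D := by exact_mod_cast h5.trans e2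
          linarith [hall p hp]
        have h5 : rt (s p).1 (s p).2.1 (s p).2.2 p ≤ D := (rt_le (hT' p hp).1 hpa e3).trans e4
        rw [nu_val]
        exact_mod_cast h5
      have hE : (∏ p ∈ T'', (nu (fun a => (p : ℤ) ∣ val (s p) a) p : ℝ)) ^ 3 ≤
          (Y ^ (1 / 10 : ℝ)) ^ 3 := by
        rw [← prod_pow]
        calc ∏ p ∈ T'', (nu (fun a => (p : ℤ) ∣ val (s p) a) p : ℝ) ^ 3 ≤
              ∏ p ∈ T'', (p : ℝ) := by
              refine prod_le_prod (fun _ _ => by positivity) fun p hp => ?_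
              calc (nu (fun a => (p : ℤ) ∣ val (s p) a) p : ℝ) ^ 3 ≤ (D : ℝ) ^ 3 := by
                    have := hnu p hp
                    gcongr
                _ ≤ L ^ 3 := by gcongr
                _ ≤ p := (hT' p hp).2.1.le
          _ ≤ Y ^ (1 / 4 : ℝ) := hprod
          _ ≤ Y ^ (3 / 10 : ℝ) := Real.rpow_le_rpow_of_exponent_le hY (by norm_num)
          _ = (Y ^ (1 / 10 : ℝ)) ^ 3 := by
              rw [← Real.rpow_natCast, ← Real.rpow_mul hY0.le]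
              norm_num
      exact le_of_pow_le_pow_left₀ (by norm_num) (Real.rpow_nonneg hY0.le _) hE
    · push Not at hall
      obtain ⟨p, hp, hpY⟩ := hall
      have h1 : (𝒜.filter (fun a => ∀ p ∈ T'', Y₁ < (p : ℝ) ∧ (p : ℤ) ∣ val (s p) a)) = ∅ := by
        rw [filter_eq_empty_iff]
        intro a _ h
        linarith [(h p hp).1]
      have h2 : ∏ p ∈ T'', gc Y₁ p (s p) = 0 := by
        apply prod_eq_zero hp
        unfold gc
        rw [if_neg]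
        rintro ⟨_, h⟩
        linarith
      rw [h1, h2]
      simp only [card_empty, Nat.cast_zero, mul_zero, sub_zero, abs_zero]
      exact Real.rpow_nonneg hY0.le _
  -- the covering step
  have key : ∃ a ∈ 𝒜, ∀ u ∈ GP D y T Bad, ∃ p : ℕ, p.Prime ∧
      (p : ℝ) ≤ Real.exp (L ^ (1 / 20 : ℝ)) ∧ (p : ℤ) ∣ val u a := by
    rcases (GP D y T Bad).eq_empty_or_nonempty with hE | hE
    · have h2 : (0 : ℝ) < (𝒜.card : ℝ) := by
        have h1 := count_gen (M : ℤ) ((M : ℤ) + ⌊Y⌋₊) (by omega) W hWpos r ∅ (by simp)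
          (fun _ _ => True) (by simp)
        simp only [Finset.notMem_empty, IsEmpty.forall_iff, implies_true, prod_empty,
          mul_one, and_true] at h1
        have h4 : (((M : ℤ) + ⌊Y⌋₊ : ℤ) : ℝ) - ((M : ℤ) : ℝ) = (⌊Y⌋₊ : ℝ) := by
          push_cast
          ring
        rw [h4] at h1
        have := (abs_le.mp h1).1
        rw [h𝒜]
        linarith
      obtain ⟨a, ha⟩ := Finset.card_pos.mp (by exact_mod_cast h2)
      exact ⟨a, ha, fun u hu => by rw [hE] at hu; exact absurd hu (Finset.notMem_empty u)⟩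
    · have hne : Nonempty (GP D y T Bad) := ⟨⟨hE.choose, hE.choose_spec⟩⟩
      have hG : ∀ u ∈ GP D y T Bad, u ∈ box D T ∧ u ∉ Bad := by
        intro u hu
        unfold GP at hu
        rw [mem_filter] at hu
        exact ⟨hu.1, hu.2.1⟩
      obtain ⟨a, ha, hcv⟩ := hcov B (GP D y T Bad) (by simpa using hcard)
        (fun p a k => Y₁ < (p : ℝ) ∧ (p : ℤ) ∣ val (k : Cl) a)
        (fun p k => gc Y₁ p (k : Cl))
        (fun p k => gc_bound hDY₁ p k (hG k k.2).1)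
        (by
          intro p hp hpL a k l h1 h2
          obtain ⟨⟨a1, a2⟩, ⟨a3, a4⟩, a5, a6⟩ := mem_box.mp (hG k k.2).1
          obtain ⟨⟨b1, b2⟩, ⟨b3, b4⟩, b5, b6⟩ := mem_box.mp (hG l l.2).1
          have hpk : ¬ IsPP D ((k : Cl).2.2.natAbs) := fun h =>
            (hG k k.2).2 (hPP _ (hG k k.2).1 h)
          have hpl : ¬ IsPP D ((l : Cl).2.2.natAbs) := fun h =>
            (hG l l.2).2 (hPP _ (hG l l.2).1 h)
          have hbig : 2 * (D * T) ^ D < p := by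
            have : ((2 * (D * T) ^ D : ℕ) : ℝ) < (p : ℝ) := lt_of_le_of_lt hT h1.1
            exact_mod_cast this
          obtain ⟨e1, e2, e3⟩ := coll (n := a) a1 b1 a2 b2 a3 b3 a4 b4 hT1 a5 b5 a6 b6 hpk hpl hbig
            h1.2 h2.2
          exact Subtype.ext (Prod.ext e1 (Prod.ext e2 e3)))
        (fun k z x h1 h2 h3 => hrough _ k.2 z x h1 h2 h3)
        𝒜 N (Y ^ (1 / 10 : ℝ)) hN (Real.rpow_nonneg hY0.le _) le_rfl
        (by
          intro T'' s hprod hT'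
          refine le_trans (le_of_eq ?_) (hcount T'' (fun p => ((s p : GP D y T Bad) : Cl))
            (fun p => (hG _ (s p).2).1) hprod hT')
          congr!)
      refine ⟨a, ha, fun u hu => ?_⟩
      obtain ⟨p, hp1, hp2, hp3, _, hp5⟩ := hcv ⟨u, hu⟩
      exact ⟨p, hp1, hp3, hp5.2⟩
  obtain ⟨a, ha, hcv⟩ := key
  rw [h𝒜, mem_filter, mem_Ioc] at ha
  have ha0 : 0 < a := lt_of_le_of_lt (by positivity) ha.1.1
  obtain ⟨m, hm⟩ := Int.eq_ofNat_of_zero_le ha0.le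
  have hmM : M < m := by
    have : (M : ℤ) < (m : ℤ) := by rw [← hm]; exact ha.1.1
    exact_mod_cast this
  have hmY : (m : ℝ) ≤ M + Y := by
    have h1 : (m : ℤ) ≤ (M : ℤ) + ⌊Y⌋₊ := by rw [← hm]; exact ha.1.2
    have h2 : (m : ℝ) ≤ (M : ℝ) + (⌊Y⌋₊ : ℝ) := by exact_mod_cast h1
    have h3 := Nat.floor_le hY0.le
    linarith
  refine ⟨m, hmM, hmY, fun a₁ d₁ ha1 haD hd1 hdD q hq hqp => ?_⟩
  have hmM' : (M : ℤ) < (m : ℤ) := by exact_mod_cast hmM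
  -- the value is large
  have hqR : R < (q : ℝ) := by
    have h1 := (abs_le.mp hq).1
    have h2 : (m : ℤ) ≤ (a₁ : ℤ) * (m : ℤ) ^ d₁ := by
      have h3 : m ≤ a₁ * m ^ d₁ := by
        calc m ≤ m ^ d₁ := Nat.le_self_pow (by omega) m
          _ ≤ a₁ * m ^ d₁ := Nat.le_mul_of_pos_left _ (by omega)
      exact_mod_cast h3
    have h3 : (M : ℤ) - (T : ℤ) ≤ (q : ℤ) := by linarith
    have h4 : (M : ℝ) - (T : ℝ) ≤ (q : ℝ) := by exact_mod_cast h3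
    linarith
  have hnd : ∀ p : ℕ, p.Prime → (p : ℝ) ≤ R → ¬ (p : ℤ) ∣ (q : ℤ) := by
    intro p hp hpR h
    have h1 : p ∣ q := by exact_mod_cast h
    have h2 := (Nat.prime_dvd_prime_iff_eq hp hqp).mp h1
    rw [h2] at hpR
    linarith
  -- divisibility by the primes of S
  have hdiv : ∀ p ∈ S, (p : ℤ) ∣ a - (if (p : ℝ) ≤ zR y then 1 else if (p : ℝ) ≤ y then 0
      else tt p) := by
    intro p hp
    have h1 : (p : ℤ) ∣ a - r := by
      refine dvd_trans ?_ ha.2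
      exact_mod_cast Finset.dvd_prod_of_mem (fun p => p) hp
    have h2 := dvd_add h1 (hr p hp)
    have e : a - r + (r - (if (p : ℝ) ≤ zR y then 1 else if (p : ℝ) ≤ y then 0
      else tt p)) = a - (if (p : ℝ) ≤ zR y then 1 else if (p : ℝ) ≤ y then 0
      else tt p) := by ring
    rwa [e] at h2
  set k : ℤ := (q : ℤ) - (a₁ : ℤ) * (m : ℤ) ^ d₁ with hk
  set u : Cl := (a₁, d₁, k) with hu
  have hqu : (q : ℤ) = val u a := by
    unfold val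
    rw [hu, hk, hm]
    simp only
    ring
  by_cases hgcd : Int.gcd a₁ k = 1
  swap
  · -- a common factor
    have h1 : (Int.gcd a₁ k : ℤ) ∣ (a₁ : ℤ) := Int.gcd_dvd_left ..
    have h2 : (Int.gcd a₁ k : ℤ) ∣ k := Int.gcd_dvd_right ..
    obtain ⟨p, hp, hpd⟩ := Nat.exists_prime_and_dvd hgcd
    have h3 : (p : ℤ) ∣ (Int.gcd a₁ k : ℤ) := by exact_mod_cast hpd
    have h4 : (p : ℤ) ∣ (a₁ : ℤ) := h3.trans h1
    have h5 : (p : ℤ) ∣ k := h3.trans h2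
    have h6 : p ≤ a₁ := Nat.le_of_dvd (by omega) (by exact_mod_cast h4)
    have h7 : (p : ℝ) ≤ R := by
      have : (p : ℝ) ≤ D := by exact_mod_cast h6.trans haD
      linarith
    apply hnd p hp h7
    rw [hqu]
    unfold val
    exact dvd_add (Dvd.dvd.mul_right h4 _) h5
  have hbox : u ∈ box D T := mem_box.mpr ⟨⟨ha1, haD⟩, ⟨hd1, hdD⟩, hq, hgcd⟩
  by_cases hbad : u ∈ Bad
  · obtain ⟨h1, h2, h3, _⟩ := hpu _ hbad
    set P : ℕ := pu u with hPdef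
    have hpB : P ∈ B := mem_image.mpr ⟨_, hbad, rfl⟩
    have hpS : P ∈ S := mem_union_right _ hpB
    have h4 := hdiv P hpS
    rw [if_neg (not_le.mpr (lt_of_le_of_lt hzy h2)), if_neg (not_le.mpr h2)] at h4
    have h5 := htt P u hbad rfl
    apply hnd P h1 (h3.trans hR2)
    rw [hqu]
    exact (val_congr u P _ _ h4).mpr h5
  by_cases hG : u ∈ GP D y T Bad
  · obtain ⟨p, hp1, hp3, hp4⟩ := hcv u hG
    apply hnd p hp1 (hp3.trans hR3)
    rw [hqu]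
    exact hp4
  · apply hG
    unfold GP
    rw [mem_filter]
    refine ⟨hbox, hbad, ?_, ?_⟩
    · intro p hp hp1 hp2 hpu'
      have hpS : p ∈ S := mem_union_left _ ((hS₁mem p).mpr ⟨hp, hp2⟩)
      have h4 := hdiv p hpS
      rw [if_neg (not_le.mpr hp1), if_pos hp2, sub_zero] at h4
      apply hnd p hp (hp2.trans hR1)
      rw [hqu]
      unfold val
      exact dvd_add (Dvd.dvd.mul_left (dvd_pow h4 (by
        change d₁ ≠ 0
        omega)) _) hpu'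
    · intro p hp hp1 hpu'
      have hp2 : (p : ℝ) ≤ y := hp1.trans hzy
      have hpS : p ∈ S := mem_union_left _ ((hS₁mem p).mpr ⟨hp, hp2⟩)
      have h4 := hdiv p hpS
      rw [if_pos hp1] at h4
      apply hnd p hp (hp2.trans hR1)
      rw [hqu]
      refine (val_congr u p _ _ h4).mpr ?_
      unfold val
      rw [one_pow, mul_one]
      exact hpu'

end Pool.Agent.W154.PV
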