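import Pool.Agent.W154.PV.Tup
import Pool.Agent.W154.PV.Chars

set_option autoImplicit false

/-! # Bad elements for one block of primes -/

namespace Pool.Agent.W154.PV

open Finset Pool.Agent.H256R2.SC Pool.Agent.H426R3.SQ

open scoped Classical

/-- dyadic block of primes above `Y₁` -/
noncomputable def PB (Y₁ : ℝ) (j : ℕ) : Finset ℕ :=
  (Finset.Ico (2 ^ j) (2 ^ (j + 1))).filter (fun p => p.Prime ∧ Y₁ < (p : ℝ))

/-- deviation over a block -/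
noncomputable def SB (Y₁ : ℝ) (j a d : ℕ) (k : ℤ) : ℝ :=
  ∑ p ∈ PB Y₁ j, ((rt a d k p : ℝ) - 1) / (p : ℝ)

/-- candidates: numbers up to `T` with a large prime factor and a small cofactor -/
noncomputable def UU (T yn M₀ : ℕ) : Finset ℕ :=
  (Icc 1 T).filter (fun u => ∃ l : ℕ, l.Prime ∧ yn < l ∧ l ∣ u ∧ u / l ≤ M₀)

/-- the bad elements of a block -/
noncomputable def BB (Y₁ : ℝ) (j a d : ℕ) (σ : ℤ) (T yn M₀ : ℕ) : Finset ℕ :=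
  (UU T yn M₀).filter (fun u => SB Y₁ j a d (σ * u) < -(1 / (j : ℝ) ^ 2))

lemma mem_PB {Y₁ : ℝ} {j p : ℕ} (h : p ∈ PB Y₁ j) :
    2 ^ j ≤ p ∧ p < 2 ^ (j + 1) ∧ p.Prime ∧ Y₁ < (p : ℝ) := by
  unfold PB at h
  rw [mem_filter, mem_Ico] at h
  exact ⟨h.1.1, h.1.2, h.2.1, h.2.2⟩

lemma card_PB_le (Y₁ : ℝ) (j : ℕ) : (PB Y₁ j).card ≤ 2 ^ j := by
  refine (card_filter_le _ _).trans ?_
  rw [Nat.card_Ico, pow_succ]; omega

theorem SB_eq {Y₁ : ℝ} {j a d u : ℕ} {σ : ℤ} (hd : 1 ≤ d) (ha : 1 ≤ a) (hu : 1 ≤ u)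
    (hσ : σ = 1 ∨ σ = -1) (haY : (a : ℝ) ≤ Y₁) (huY : (u : ℝ) ≤ Y₁) :
    ((SB Y₁ j a d (σ * u) : ℝ) : ℂ) =
      ∑ p ∈ PB Y₁ j, ∑ χ ∈ Xe p d, χ (bb a σ p) * χ (u : ZMod p) / (p : ℂ) := by
  unfold SB
  push_cast
  refine sum_congr rfl fun p hp => ?_
  obtain ⟨-, -, h3, h4⟩ := mem_PB hp
  have hpa : ¬ p ∣ a := by
    intro h
    have h5 := Nat.le_of_dvd (by omega) h
    have h6 : (p : ℝ) ≤ a := by exact_mod_cast h5
    linarith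
  have hpu : ¬ p ∣ u := by
    intro h
    have h5 := Nat.le_of_dvd (by omega) h
    have h6 : (p : ℝ) ≤ u := by exact_mod_cast h5
    linarith
  rw [rt_eq h3 hpa hd hσ hpu, sum_div]

theorem blk_real {B A T : ℝ} {n j : ℕ} (hn : 10 ≤ n) (hA : 0 ≤ A) (hT : 1 ≤ T)
    (hj : (4 : ℝ) * 4 ^ j ≤ T ^ (n + 1))
    (h : B ^ n ≤ 48 * 2 ^ j * A ^ n) : B ≤ 48 * T ^ (11 / 20 : ℝ) * A := by
  have hT0 : 0 < T := by linarith
  by_contra hcon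
  push Not at hcon
  have h1 : (48 * T ^ (11 / 20 : ℝ) * A) ^ n < B ^ n :=
    pow_lt_pow_left₀ hcon (by positivity) (by omega)
  have h2 : (2 : ℝ) ^ j ≤ T ^ (11 / 20 * n : ℝ) := by
    have h3 : (2 : ℝ) ^ j ≤ T ^ (((n : ℝ) + 1) / 2) := by
      have h4 : ((2 : ℝ) ^ j) ^ 2 ≤ (T ^ (((n : ℝ) + 1) / 2)) ^ 2 := by
        have e1 : (T ^ (((n : ℝ) + 1) / 2)) ^ 2 = T ^ (n + 1) := by
          rw [← Real.rpow_natCast (T ^ (((n : ℝ) + 1) / 2)) 2, ← Real.rpow_mul hT0.le,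
            ← Real.rpow_natCast T (n + 1)]
          congr 1
          push_cast
          ring
        rw [e1]
        have e2 : ((2 : ℝ) ^ j) ^ 2 = 4 ^ j := by
          rw [← pow_mul, mul_comm, pow_mul]; norm_num
        rw [e2]
        have e3 : (0 : ℝ) < 4 ^ j := by positivity
        linarith
      exact le_of_sq_le_sq h4 (by positivity)
    refine h3.trans (Real.rpow_le_rpow_of_exponent_le hT ?_)
    have : (10 : ℝ) ≤ n := by exact_mod_cast hn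
    linarith
  have h4 : 48 * (2 : ℝ) ^ j * A ^ n ≤ (48 * T ^ (11 / 20 : ℝ) * A) ^ n := by
    rw [mul_pow, mul_pow]
    have e1 : (T ^ (11 / 20 : ℝ)) ^ n = T ^ (11 / 20 * n : ℝ) := by
      rw [← Real.rpow_natCast, ← Real.rpow_mul hT0.le]
    rw [e1]
    have e2 : (48 : ℝ) ≤ 48 ^ n := le_self_pow₀ (by norm_num) (by omega)
    gcongr
  linarith

theorem BB_card {Y₁ : ℝ} {j a d : ℕ} {σ : ℤ} {T yn M₀ : ℕ} (hj : 1 ≤ j) (hd : 1 ≤ d)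
    (ha : 1 ≤ a) (hσ : σ = 1 ∨ σ = -1) (haY : (a : ℝ) ≤ Y₁) (hTY : (T : ℝ) ^ 5 ≤ Y₁)
    (hT : 2 ≤ T) (hM : M₀ ≤ yn) :
    ((BB Y₁ j a d σ T yn M₀).card : ℝ) ≤
      48 * (T : ℝ) ^ (11 / 20 : ℝ) * ((d : ℝ) ^ 2 * (j : ℝ) ^ 4 * ((2 * j + 2) * M₀)) := by
  have hT1 : (1 : ℝ) ≤ T := by exact_mod_cast (by omega : 1 ≤ T)
  have hTT : (T : ℝ) ≤ (T : ℝ) ^ 5 := le_self_pow₀ hT1 (by norm_num)
  have hj0 : (0 : ℝ) < j := by exact_mod_cast hj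
  rcases (PB Y₁ j).eq_empty_or_nonempty with h0 | ⟨p₀, hp₀⟩
  · have : BB Y₁ j a d σ T yn M₀ = ∅ := by
      rw [eq_empty_iff_forall_notMem]
      intro u hu
      unfold BB at hu
      rw [mem_filter] at hu
      have h1 := hu.2
      unfold SB at h1
      rw [h0, sum_empty] at h1
      have : (0 : ℝ) < 1 / (j : ℝ) ^ 2 := by positivity
      linarith
    rw [this]
    simp only [card_empty, Nat.cast_zero]
    positivity
  obtain ⟨-, hp2, -, hp4⟩ := mem_PB hp₀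
  -- the exponent
  have h4j : (T : ℝ) ^ 10 ≤ 4 * 4 ^ j := by
    have h1 : (T : ℝ) ^ 5 ≤ 2 ^ (j + 1) := by
      have : (p₀ : ℝ) ≤ 2 ^ (j + 1) := by exact_mod_cast hp2.le
      linarith
    calc (T : ℝ) ^ 10 = ((T : ℝ) ^ 5) ^ 2 := by ring
      _ ≤ (2 ^ (j + 1)) ^ 2 := by gcongr
      _ = 4 * 4 ^ j := by
          rw [← pow_mul, mul_comm, pow_mul, pow_succ]; norm_num; ring
  have h4jn : T ^ 10 ≤ 4 ^ (j + 1) := by
    have e : (4 : ℝ) ^ (j + 1) = 4 * 4 ^ j := by ring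
    have : (T : ℝ) ^ 10 ≤ (4 : ℝ) ^ (j + 1) := by rw [e]; exact h4j
    exact_mod_cast this
  set r : ℕ := Nat.log T (4 ^ (j + 1)) with hr
  have hr10 : 10 ≤ r := Nat.le_log_of_pow_le (by omega) h4jn
  have hr1 : T ^ r ≤ 4 ^ (j + 1) := Nat.pow_log_le_self T (by positivity)
  have hr2 : 4 ^ (j + 1) < T ^ (r + 1) := Nat.lt_pow_succ_log_self (by omega) _
  have hrj : r ≤ 2 * j + 2 := by
    have h1 : 2 ^ r ≤ 2 ^ (2 * j + 2) := by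
      calc 2 ^ r ≤ T ^ r := Nat.pow_le_pow_left hT r
        _ ≤ 4 ^ (j + 1) := hr1
        _ = 2 ^ (2 * j + 2) := by
            rw [show (4 : ℕ) = 2 ^ 2 by norm_num, ← pow_mul]
            congr 1
    exact (Nat.pow_le_pow_iff_right (by norm_num)).mp h1
  have hr1' : (T : ℝ) ^ r ≤ 4 * 4 ^ j := by
    have : (T : ℝ) ^ r ≤ (4 : ℝ) ^ (j + 1) := by exact_mod_cast hr1
    rw [pow_succ] at this
    linarith
  have hr2' : (4 : ℝ) * 4 ^ j ≤ (T : ℝ) ^ (r + 1) := by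
    have : (4 : ℝ) ^ (j + 1) ≤ (T : ℝ) ^ (r + 1) := by exact_mod_cast hr2.le
    rw [pow_succ] at this
    linarith
  -- the amplified sieve
  set 𝓑 : Finset ℕ := BB Y₁ j a d σ T yn M₀ with h𝓑
  have hBU : ∀ u ∈ 𝓑, (1 ≤ u ∧ u ≤ T) ∧ (∃ l : ℕ, l.Prime ∧ yn < l ∧ l ∣ u ∧ u / l ≤ M₀) ∧
      SB Y₁ j a d (σ * u) < -(1 / (j : ℝ) ^ 2) := by
    intro u hu
    rw [h𝓑] at hu
    unfold BB UU at hu
    rw [mem_filter, mem_filter, mem_Icc] at hu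
    exact ⟨hu.1.1, hu.1.2, hu.2⟩
  have hprime : ∀ p ∈ PB Y₁ j, p.Prime := fun p hp => (mem_PB hp).2.2.1
  have key := amp 𝓑 T r j d (((r : ℝ) * M₀) ^ r) (1 / (j : ℝ) ^ 2) (by omega)
    (fun u hu => (hBU u hu).1)
    (fun n => tup_card_le 𝓑 yn M₀ r hM (fun u hu => ⟨(hBU u hu).1.1, (hBU u hu).2.1⟩) n)
    (PB Y₁ j) (fun p hp => ⟨(mem_PB hp).1, (mem_PB hp).2.1⟩) (fun p => Xe p d)
    (fun p hp χ hχ => by
      have : Fact p.Prime := ⟨hprime p hp⟩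
      exact prim_of_ne_one (mem_Xe_ne hχ))
    (fun p hp => by
      have : Fact p.Prime := ⟨hprime p hp⟩
      exact card_Xe_le (p := p) hd)
    (fun p χ => χ (bb a σ p)) (fun p _ χ _ => DirichletCharacter.norm_le_one χ _)
    (by positivity)
    (by
      intro u hu
      obtain ⟨⟨h1, h2⟩, -, h3⟩ := hBU u hu
      have h4 : (u : ℝ) ≤ T := by exact_mod_cast h2
      rw [← SB_eq hd ha h1 hσ haY (by linarith), Complex.norm_real, Real.norm_eq_abs]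
      have := neg_le_abs (SB Y₁ j a d (σ * u))
      linarith)
  -- conclusion
  rcases Nat.eq_zero_or_pos 𝓑.card with hc | hc
  · rw [hc]
    simp only [Nat.cast_zero]
    positivity
  have hc' : (0 : ℝ) < 𝓑.card := by exact_mod_cast hc
  have hd0 : (0 : ℝ) < d := by exact_mod_cast hd
  have h1 : (𝓑.card : ℝ) ^ r ≤ 48 * 2 ^ j * ((d : ℝ) ^ 2 * (j : ℝ) ^ 4 * (r * M₀)) ^ r := by
    have e1 : ((𝓑.card : ℝ) * (1 / (j : ℝ) ^ 2)) ^ (2 * r) =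
        (𝓑.card : ℝ) ^ r * (𝓑.card : ℝ) ^ r / ((j : ℝ) ^ 4) ^ r := by
      rw [mul_one_div, div_pow, ← pow_mul, ← pow_mul, two_mul r, pow_add]
      congr 2
      ring
    have e2 : (d : ℝ) ^ (2 * r - 1) ≤ ((d : ℝ) ^ 2) ^ r := by
      rw [← pow_mul]
      exact pow_le_pow_right₀ (by exact_mod_cast hd) (by omega)
    have e3 : (d : ℝ) ^ (2 * r - 1) / 2 ^ j *
        (6 * ((T : ℝ) ^ r + 4 * (4 : ℝ) ^ j) * ((((r : ℝ) * M₀) ^ r) * (𝓑.card : ℝ) ^ r)) ≤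
        ((d : ℝ) ^ 2) ^ r / 2 ^ j *
        (6 * (4 * (4 : ℝ) ^ j + 4 * (4 : ℝ) ^ j) * ((((r : ℝ) * M₀) ^ r) * (𝓑.card : ℝ) ^ r)) := by
      gcongr
    have e4 : ((d : ℝ) ^ 2) ^ r / 2 ^ j *
        (6 * (4 * (4 : ℝ) ^ j + 4 * (4 : ℝ) ^ j) * ((((r : ℝ) * M₀) ^ r) * (𝓑.card : ℝ) ^ r)) =
        (𝓑.card : ℝ) ^ r * (48 * 2 ^ j * (((d : ℝ) ^ 2) ^ r * ((r : ℝ) * M₀) ^ r)) := by
      have : (4 : ℝ) ^ j = 2 ^ j * 2 ^ j := by
        rw [← mul_pow]; norm_num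
      rw [this]
      field_simp
      ring
    rw [e1] at key
    have e5 := key.trans (e3.trans e4.le)
    rw [div_le_iff₀ (by positivity)] at e5
    have e6 : (𝓑.card : ℝ) ^ r * (48 * 2 ^ j * (((d : ℝ) ^ 2) ^ r * ((r : ℝ) * M₀) ^ r)) *
        ((j : ℝ) ^ 4) ^ r =
        (𝓑.card : ℝ) ^ r * (48 * 2 ^ j * ((d : ℝ) ^ 2 * (j : ℝ) ^ 4 * (r * M₀)) ^ r) := by
      rw [mul_pow, mul_pow]
      ring
    rw [e6] at e5
    exact le_of_mul_le_mul_left e5 (by positivity)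
  have h2 := blk_real hr10 (by positivity) hT1 hr2' h1
  refine h2.trans ?_
  have hrj' : (r : ℝ) ≤ 2 * j + 2 := by exact_mod_cast hrj
  gcongr

end Pool.Agent.W154.PV
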