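import Pool.Agent.H426R3.SQ.C1e

set_option autoImplicit false

/-! # Counting with a periodic condition for every prime (adapted from `C1e_count`) -/

namespace Pool.Agent.W154.PV

open Finset Pool.Agent.H426R3.SQ

open scoped Classical

/-- the number of residues with a property -/
noncomputable def nu (Q : ℤ → Prop) (p : ℕ) : ℕ := ((range p).filter (fun x : ℕ => Q (x : ℤ))).card

theorem count_gen (A B : ℤ) (hAB : A ≤ B) (W : ℕ) (hW : 1 ≤ W) (r : ℤ)
    (T : Finset ℕ) (hT : ∀ p ∈ T, p.Prime ∧ ¬ p ∣ W) (Q : ℕ → ℤ → Prop)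
    (hQ : ∀ p ∈ T, ∀ x y : ℤ, (p : ℤ) ∣ x - y → (Q p x ↔ Q p y)) :
    |(((Finset.Ioc A B).filter (fun a : ℤ => (W : ℤ) ∣ a - r ∧ ∀ p ∈ T, Q p a)).card : ℝ) -
      ((B : ℝ) - A) / W * ∏ p ∈ T, (nu (Q p) p : ℝ) / (p : ℝ)| ≤ ∏ p ∈ T, (nu (Q p) p : ℝ) := by
  induction T using Finset.induction_on generalizing W r with
  | empty =>
    have h := C1e_count_ap A B hAB W hW r
    simpa using h
  | insert p T hpT ih =>
    obtain ⟨hp, hpW⟩ := hT p (Finset.mem_insert_self p T)
    have hp0 : (0 : ℤ) < (p : ℤ) := by exact_mod_cast hp.pos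
    have hpR : (0 : ℝ) < (p : ℝ) := by exact_mod_cast hp.pos
    have hWR : (0 : ℝ) < (W : ℝ) := by exact_mod_cast hW
    have hQp := hQ p (Finset.mem_insert_self p T)
    obtain ⟨Z, hZ⟩ : ∃ Z, Z = (Finset.range p).filter (fun x : ℕ => Q p (x : ℤ)) := ⟨_, rfl⟩
    have hZc : Z.card = nu (Q p) p := by rw [hZ]; rfl
    have hcop : IsCoprime (W : ℤ) (p : ℤ) := by
      rw [Nat.isCoprime_iff_coprime]
      exact (Nat.Coprime.symm ((Nat.Prime.coprime_iff_not_dvd hp).2 hpW))
    -- the classes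
    have hcrt : ∀ c : ℕ, ∃ rc : ℤ, (W : ℤ) ∣ rc - r ∧ (p : ℤ) ∣ rc - (c : ℤ) := by
      intro c
      obtain ⟨u, v, huv⟩ := hcop
      refine ⟨r * (v * p) + (c : ℤ) * (u * W), ?_, ?_⟩
      · refine ⟨u * ((c : ℤ) - r), ?_⟩
        have : v * (p : ℤ) = 1 - u * W := by linarith
        rw [this]; ring
      · refine ⟨v * (r - (c : ℤ)), ?_⟩
        have : u * (W : ℤ) = 1 - v * p := by linarith
        rw [this]; ring
    choose rc hrc1 hrc2 using hcrt
    obtain ⟨F, hF⟩ : ∃ F, F = (Finset.Ioc A B).filter (fun a : ℤ => (W : ℤ) ∣ a - r ∧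
        ∀ q ∈ insert p T, Q q a) := ⟨_, rfl⟩
    have hfib : F.card = ∑ c ∈ Z, ((Finset.Ioc A B).filter (fun a : ℤ =>
        ((W * p : ℕ) : ℤ) ∣ a - rc c ∧ ∀ q ∈ T, Q q a)).card := by
      have hmod : ∀ a : ℤ, (((a % (p : ℤ)).toNat : ℕ) : ℤ) = a % (p : ℤ) :=
        fun a => Int.toNat_of_nonneg (Int.emod_nonneg _ hp0.ne')
      have hdvd : ∀ a : ℤ, (p : ℤ) ∣ a - ((a % (p : ℤ)).toNat : ℕ) := by
        intro a
        rw [hmod]
        exact Int.dvd_self_sub_emod
      have hmaps : Set.MapsTo (fun a : ℤ => (a % (p : ℤ)).toNat) (F : Set ℤ) (Z : Set ℕ) := by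
        intro a ha
        rw [Finset.mem_coe, hF, Finset.mem_filter] at ha
        rw [Finset.mem_coe, hZ, Finset.mem_filter, Finset.mem_range]
        constructor
        · have h1 := Int.emod_lt_of_pos a hp0
          have h2 := hmod a
          show (a % (p : ℤ)).toNat < p
          omega
        · have h3 := ha.2.2 p (Finset.mem_insert_self p T)
          exact (hQp _ _ (hdvd a)).1 h3
      rw [Finset.card_eq_sum_card_fiberwise hmaps]
      refine Finset.sum_congr rfl (fun c hc => ?_)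
      congr 1
      rw [hZ, Finset.mem_filter, Finset.mem_range] at hc
      ext a
      rw [hF, Finset.mem_filter, Finset.mem_filter, Finset.mem_filter]
      constructor
      · rintro ⟨⟨h1, h2, h3⟩, h4⟩
        refine ⟨h1, ?_, fun q hq => h3 q (Finset.mem_insert_of_mem hq)⟩
        have h5 := hdvd a
        rw [h4] at h5
        have h6 : (p : ℤ) ∣ a - rc c := by
          have := dvd_sub h5 (hrc2 c)
          have e : a - (c : ℤ) - (rc c - (c : ℤ)) = a - rc c := by ring
          rwa [e] at this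
        have h7 : (W : ℤ) ∣ a - rc c := by
          have := dvd_sub h2 (hrc1 c)
          have e : a - r - (rc c - r) = a - rc c := by ring
          rwa [e] at this
        push_cast
        exact hcop.mul_dvd h7 h6
      · rintro ⟨h1, h2, h3⟩
        push_cast at h2
        have h7 : (W : ℤ) ∣ a - rc c := (Dvd.intro _ rfl).trans h2
        have h6 : (p : ℤ) ∣ a - rc c := (Dvd.intro_left _ rfl).trans h2
        have h5 : (p : ℤ) ∣ a - (c : ℤ) := by
          have := dvd_add h6 (hrc2 c)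
          have e : a - rc c + (rc c - (c : ℤ)) = a - (c : ℤ) := by ring
          rwa [e] at this
        refine ⟨⟨h1, ?_, ?_⟩, ?_⟩
        · have := dvd_add h7 (hrc1 c)
          have e : a - rc c + (rc c - r) = a - r := by ring
          rwa [e] at this
        · intro q hq
          rcases Finset.mem_insert.1 hq with rfl | hq
          · exact (hQp _ _ h5).2 hc.2
          · exact h3 q hq
        · have h8 : a % (p : ℤ) = c := by
            have h10 : a % (p : ℤ) = (c : ℤ) % (p : ℤ) :=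
              ((Int.modEq_iff_dvd.2 h5).symm)
            rw [h10]
            exact Int.emod_eq_of_lt (by omega) (by exact_mod_cast hc.1)
          show (a % (p : ℤ)).toNat = c
          rw [h8]
          simp
    rw [← hF, hfib]
    have hWp : 1 ≤ W * p := Nat.mul_pos hW hp.pos
    have hT' : ∀ q ∈ T, q.Prime ∧ ¬ q ∣ W * p := by
      intro q hq
      obtain ⟨h1, h2⟩ := hT q (Finset.mem_insert_of_mem hq)
      refine ⟨h1, fun h => ?_⟩
      rcases (Nat.Prime.dvd_mul h1).1 h with h | h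
      · exact h2 h
      · have := (Nat.prime_dvd_prime_iff_eq h1 hp).1 h
        exact hpT (this ▸ hq)
    have hbd := fun c => ih (W * p) hWp (rc c) hT'
      (fun q hq => hQ q (Finset.mem_insert_of_mem hq))
    rw [Finset.prod_insert hpT, Finset.prod_insert hpT]
    push_cast
    have e1 : ∑ c ∈ Z, (((Finset.Ioc A B).filter (fun a : ℤ =>
        ((W : ℤ) * p) ∣ a - rc c ∧ ∀ q ∈ T, Q q a)).card : ℝ) -
        ((B : ℝ) - A) / W * ((nu (Q p) p : ℝ) / p * ∏ q ∈ T, (nu (Q q) q : ℝ) / (q : ℝ)) =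
        ∑ c ∈ Z, ((((Finset.Ioc A B).filter (fun a : ℤ =>
        ((W * p : ℕ) : ℤ) ∣ a - rc c ∧ ∀ q ∈ T, Q q a)).card : ℝ) -
        ((B : ℝ) - A) / (W * p : ℕ) * ∏ q ∈ T, (nu (Q q) q : ℝ) / (q : ℝ)) := by
      rw [Finset.sum_sub_distrib, Finset.sum_const, hZc, nsmul_eq_mul]
      push_cast
      congr 1
      field_simp
    rw [e1]
    calc _ ≤ ∑ c ∈ Z, |((((Finset.Ioc A B).filter (fun a : ℤ =>
        ((W * p : ℕ) : ℤ) ∣ a - rc c ∧ ∀ q ∈ T, Q q a)).card : ℝ) -
        ((B : ℝ) - A) / (W * p : ℕ) * ∏ q ∈ T, (nu (Q q) q : ℝ) / (q : ℝ))| :=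
          Finset.abs_sum_le_sum_abs _ _
      _ ≤ ∑ c ∈ Z, ∏ q ∈ T, (nu (Q q) q : ℝ) := Finset.sum_le_sum (fun c _ => hbd c)
      _ = (nu (Q p) p : ℝ) * ∏ q ∈ T, (nu (Q q) q : ℝ) := by
          rw [Finset.sum_const, hZc, nsmul_eq_mul]

end Pool.Agent.W154.PV
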