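import Pool.Agent.W154.PV.Blk
import Pool.Agent.H426R3.SQ.N4

set_option autoImplicit false

/-! # All but few shifts have the full Mertens sum -/

namespace Pool.Agent.W154.PV

open Finset Filter Pool.Agent.H256R2.SC Pool.Agent.H426R3.SQ

open scoped Classical

/-- the decomposition of `SP` in blocks -/
lemma SP_eqD (Y₁ w : ℝ) (J : ℕ) (hJ : Nat.log 2 ⌊w⌋₊ = J) (f : ℕ → ℝ) :
    ∑ p ∈ SP Y₁ w ∅, f p =
      (∑ j ∈ range J, ∑ p ∈ PB Y₁ j, f p) + ∑ p ∈ (PB Y₁ J).filter (fun p => p ≤ ⌊w⌋₊), f p := by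
  have hdis : ∀ i ∈ range J, ∀ j ∈ range J, i ≠ j → Disjoint (PB Y₁ i) (PB Y₁ j) := by
    intro i _ j _ hij
    rw [disjoint_left]
    intro p hp hp'
    have h1 := mem_PB hp
    have h2 := mem_PB hp'
    have e1 : Nat.log 2 p = i := Nat.log_eq_of_pow_le_of_lt_pow h1.1 h1.2.1
    have e2 : Nat.log 2 p = j := Nat.log_eq_of_pow_le_of_lt_pow h2.1 h2.2.1
    exact hij (e1.symm.trans e2)
  rw [← sum_biUnion hdis, ← sum_union]
  · refine sum_congr ?_ (fun _ _ => rfl)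
    ext p
    rw [mem_union, mem_biUnion]
    unfold SP
    simp only [mem_filter, mem_Icc, notMem_empty, not_false_eq_true, and_true, mem_range]
    constructor
    · rintro ⟨⟨h1, h2⟩, h3, h4⟩
      have hp0 : p ≠ 0 := by omega
      have hle : Nat.log 2 p ≤ J := by rw [← hJ]; exact Nat.log_mono_right h2
      have hmem : p ∈ PB Y₁ (Nat.log 2 p) := by
        unfold PB
        rw [mem_filter, mem_Ico]
        exact ⟨⟨Nat.pow_log_le_self 2 hp0, Nat.lt_pow_succ_log_self (by norm_num) p⟩, h3, h4⟩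
      rcases hle.lt_or_eq with h | h
      · left; exact ⟨_, h, hmem⟩
      · right; rw [h] at hmem; exact ⟨hmem, h2⟩
    · rintro (⟨j, hj, hp⟩ | ⟨hp, h⟩)
      · have h1 := mem_PB hp
        refine ⟨⟨h1.2.2.1.one_lt.le, ?_⟩, h1.2.2.1, h1.2.2.2⟩
        by_contra hlt
        push Not at hlt
        have : J ≤ j := by
          have h5 : Nat.log 2 ⌊w⌋₊ ≤ Nat.log 2 p := Nat.log_mono_right hlt.le
          have e1 : Nat.log 2 p = j := Nat.log_eq_of_pow_le_of_lt_pow h1.1 h1.2.1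
          rw [hJ, e1] at h5
          exact h5
        omega
      · have h1 := mem_PB hp
        exact ⟨⟨h1.2.2.1.one_lt.le, h⟩, h1.2.2.1, h1.2.2.2⟩
  · rw [disjoint_left]
    intro p hp hp'
    rw [mem_biUnion] at hp
    obtain ⟨j, hj, hp⟩ := hp
    rw [mem_filter] at hp'
    rw [mem_range] at hj
    have h1 := mem_PB hp
    have h2 := mem_PB hp'.1
    have e1 : Nat.log 2 p = j := Nat.log_eq_of_pow_le_of_lt_pow h1.1 h1.2.1
    have e2 : Nat.log 2 p = J := Nat.log_eq_of_pow_le_of_lt_pow h2.1 h2.2.1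
    omega

lemma PB_zero (Y₁ : ℝ) : PB Y₁ 0 = ∅ := by
  rw [eq_empty_iff_forall_notMem]
  intro p hp
  have := mem_PB hp
  have h := this.2.2.1.one_lt
  have h2 := this.2.1
  norm_num at h2
  omega

theorem few_badD (D C₁ : ℕ) (hC₁ : 6 ≤ C₁) :
    ∃ C : ℝ, 0 ≤ C ∧ ∃ L₀ : ℝ, ∀ L : ℝ, L₀ ≤ L → ∀ T yn M₀ : ℕ, 2 ≤ T →
      (T : ℝ) ≤ L ^ (11 / 10 : ℝ) → M₀ ≤ yn → (M₀ : ℝ) ≤ L ^ (1 / 50 : ℝ) →
      ∀ a d : ℕ, 1 ≤ a → a ≤ D → 1 ≤ d → d ≤ D → ∀ σ : ℤ, (σ = 1 ∨ σ = -1) →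
      ∃ 𝓑 : Finset ℕ, (𝓑.card : ℝ) ≤ L ^ (19 / 20 : ℝ) ∧ 𝓑 ⊆ UU T yn M₀ ∧
        ∀ u ∈ UU T yn M₀, u ∉ 𝓑 → ∀ w : ℝ, L ^ C₁ ≤ w → w ≤ Real.exp (L ^ (1 / 20 : ℝ)) →
          Real.log (Real.log w) - Real.log (Real.log (L ^ C₁)) - C ≤
            ∑ p ∈ SP (L ^ C₁) w ∅, (rt a d (σ * u) p : ℝ) / (p : ℝ) := by
  obtain ⟨C₂, hC2, hM⟩ := mertens_SP
  have hev : ∀ᶠ L : ℝ in atTop, 2187 * (D : ℝ) ^ 2 ≤ L ^ (1 / 40 : ℝ) :=
    (tendsto_rpow_atTop (by norm_num)).eventually_ge_atTop _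
  have hev2 : ∀ᶠ L : ℝ in atTop, (1 : ℝ) ≤ L ^ (1 / 20 : ℝ) :=
    (tendsto_rpow_atTop (by norm_num)).eventually_ge_atTop _
  obtain ⟨L₁, hL₁⟩ := eventually_atTop.mp (hev.and hev2)
  refine ⟨3 + C₂, by positivity, max L₁ (max 4 D), fun L hL T yn M₀ hT2 hT hM₀ hM₀L a d ha haD hd
    hdD σ hσ => ?_⟩
  obtain ⟨g1, g2⟩ := hL₁ L ((le_max_left _ _).trans hL)
  have hL4 : (4 : ℝ) ≤ L := (le_max_left _ _).trans ((le_max_right _ _).trans hL)
  have hLD : (D : ℝ) ≤ L := (le_max_right _ _).trans ((le_max_right _ _).trans hL)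
  have hL0 : (0 : ℝ) < L := by linarith
  have hL1 : (1 : ℝ) ≤ L := by linarith
  set x : ℝ := L ^ (1 / 20 : ℝ) with hx
  set Y₁ : ℝ := L ^ C₁ with hY₁
  have hLY : L ≤ Y₁ := le_self_pow₀ hL1 (by omega)
  have hTY : (T : ℝ) ^ 5 ≤ Y₁ := by
    have h1 : (T : ℝ) ^ 5 ≤ (L ^ (11 / 10 : ℝ)) ^ 5 := pow_le_pow_left₀ (by positivity) hT 5
    have h2 : (L ^ (11 / 10 : ℝ)) ^ 5 = L ^ (11 / 2 : ℝ) := by
      rw [← Real.rpow_natCast, ← Real.rpow_mul hL0.le]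
      norm_num
    have h3 : L ^ (11 / 2 : ℝ) ≤ L ^ (C₁ : ℝ) := by
      apply Real.rpow_le_rpow_of_exponent_le hL1
      have : (6 : ℝ) ≤ C₁ := by exact_mod_cast hC₁
      linarith
    rw [Real.rpow_natCast] at h3
    rw [h2] at h1
    exact h1.trans h3
  have haY : (a : ℝ) ≤ Y₁ := by
    have : (a : ℝ) ≤ D := by exact_mod_cast haD
    linarith
  set J : ℕ := ⌊(3 / 2 : ℝ) * x⌋₊ with hJdef
  have hx0 : 0 < x := by linarith
  have hJle : (J : ℝ) ≤ 3 / 2 * x := Nat.floor_le (by positivity)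
  refine ⟨(Icc 1 J).biUnion (fun j => BB Y₁ j a d σ T yn M₀), ?_, ?_, ?_⟩
  · -- size
    have h1 : (((Icc 1 J).biUnion (fun j => BB Y₁ j a d σ T yn M₀)).card : ℝ) ≤
        ∑ j ∈ Icc 1 J, ((BB Y₁ j a d σ T yn M₀).card : ℝ) := by
      exact_mod_cast card_biUnion_le
    have h2 : ∑ j ∈ Icc 1 J, ((BB Y₁ j a d σ T yn M₀).card : ℝ) ≤
        ∑ _j ∈ Icc 1 J, 48 * (T : ℝ) ^ (11 / 20 : ℝ) * ((D : ℝ) ^ 2 * (J : ℝ) ^ 4 * ((4 * J) * M₀)) := by
      refine sum_le_sum fun j hj => ?_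
      rw [mem_Icc] at hj
      refine (BB_card hj.1 hd ha hσ haY hTY hT2 hM₀).trans ?_
      have e1 : (j : ℝ) ≤ J := by exact_mod_cast hj.2
      have e2 : (d : ℝ) ≤ D := by exact_mod_cast hdD
      have e3 : 2 * (j : ℝ) + 2 ≤ 4 * J := by
        have : (1 : ℝ) ≤ j := by exact_mod_cast hj.1
        linarith
      gcongr
    have h3 : ∑ _j ∈ Icc 1 J, 48 * (T : ℝ) ^ (11 / 20 : ℝ) *
        ((D : ℝ) ^ 2 * (J : ℝ) ^ 4 * ((4 * J) * M₀)) =
        192 * (D : ℝ) ^ 2 * ((J : ℝ) ^ 6 * (T : ℝ) ^ (11 / 20 : ℝ) * M₀) := by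
      rw [sum_const, Nat.card_Icc, nsmul_eq_mul, add_tsub_cancel_right]
      ring
    refine h1.trans (h2.trans ?_)
    rw [h3]
    have h4 : (T : ℝ) ^ (11 / 20 : ℝ) ≤ L ^ (121 / 200 : ℝ) := by
      calc (T : ℝ) ^ (11 / 20 : ℝ) ≤ (L ^ (11 / 10 : ℝ)) ^ (11 / 20 : ℝ) :=
            Real.rpow_le_rpow (by positivity) hT (by norm_num)
        _ = L ^ (121 / 200 : ℝ) := by
            rw [← Real.rpow_mul hL0.le]; norm_num
    have h5 : (J : ℝ) ^ 6 ≤ 729 / 64 * L ^ (3 / 10 : ℝ) := by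
      calc (J : ℝ) ^ 6 ≤ (3 / 2 * x) ^ 6 := pow_le_pow_left₀ (by positivity) hJle 6
        _ = 729 / 64 * x ^ 6 := by ring
        _ = 729 / 64 * L ^ (3 / 10 : ℝ) := by
            rw [hx, ← Real.rpow_natCast, ← Real.rpow_mul hL0.le]
            norm_num
    calc 192 * (D : ℝ) ^ 2 * ((J : ℝ) ^ 6 * (T : ℝ) ^ (11 / 20 : ℝ) * M₀) ≤
          192 * (D : ℝ) ^ 2 * ((729 / 64 * L ^ (3 / 10 : ℝ)) * L ^ (121 / 200 : ℝ) *
            L ^ (1 / 50 : ℝ)) := by gcongr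
      _ = 2187 * (D : ℝ) ^ 2 * (L ^ (3 / 10 : ℝ) * L ^ (121 / 200 : ℝ) * L ^ (1 / 50 : ℝ)) := by
          ring
      _ ≤ L ^ (1 / 40 : ℝ) * (L ^ (3 / 10 : ℝ) * L ^ (121 / 200 : ℝ) * L ^ (1 / 50 : ℝ)) := by
          gcongr
      _ = L ^ (19 / 20 : ℝ) := by
          rw [← Real.rpow_add hL0, ← Real.rpow_add hL0, ← Real.rpow_add hL0]
          norm_num
  · intro u hu
    rw [mem_biUnion] at hu
    obtain ⟨j, _, hu⟩ := hu
    unfold BB at hu
    exact (mem_filter.mp hu).1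
  · intro u hu hub w hw1 hw2
    have hgood : ∀ j ∈ Icc 1 J, -(1 / (j : ℝ) ^ 2) ≤ SB Y₁ j a d (σ * u) := by
      intro j hj
      by_contra hcon
      push Not at hcon
      apply hub
      rw [mem_biUnion]
      refine ⟨j, hj, ?_⟩
      unfold BB
      rw [mem_filter]
      exact ⟨hu, hcon⟩
    have hw0 : 0 < w := lt_of_lt_of_le (by positivity) hw1
    set M : ℕ := Nat.log 2 ⌊w⌋₊ with hM'
    have hMJ : M ≤ J := by
      rw [hJdef]
      refine Nat.le_floor ?_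
      have hw1' : (1 : ℝ) ≤ w := by linarith
      have hfl : ⌊w⌋₊ ≠ 0 := by
        have := (Nat.one_le_floor_iff w).mpr hw1'
        omega
      have h1 : 2 ^ M ≤ ⌊w⌋₊ := Nat.pow_log_le_self 2 hfl
      have h2 : ((2 : ℝ) ^ M) ≤ w := by
        have h3 : ((2 ^ M : ℕ) : ℝ) ≤ (⌊w⌋₊ : ℝ) := by exact_mod_cast h1
        push_cast at h3
        exact h3.trans (Nat.floor_le hw0.le)
      have h3 : (M : ℝ) * Real.log 2 ≤ x := by
        rw [← Real.log_pow]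
        have h4 : Real.log ((2 : ℝ) ^ M) ≤ Real.log (Real.exp x) :=
          Real.log_le_log (by positivity) (h2.trans hw2)
        rwa [Real.log_exp] at h4
      have h5 := Real.log_two_gt_d9
      have hM0 : (0 : ℝ) ≤ M := by positivity
      nlinarith
    have hdev : -3 ≤ ∑ p ∈ SP Y₁ w ∅, ((rt a d (σ * u) p : ℝ) - 1) / (p : ℝ) := by
      rw [SP_eqD Y₁ w M hM'.symm]
      have hsum : -2 ≤ ∑ j ∈ range M, ∑ p ∈ PB Y₁ j, ((rt a d (σ * u) p : ℝ) - 1) / (p : ℝ) := by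
        have h1 : -(∑ j ∈ Icc 1 M, 1 / (j : ℝ) ^ 2) ≤
            ∑ j ∈ range M, ∑ p ∈ PB Y₁ j, ((rt a d (σ * u) p : ℝ) - 1) / (p : ℝ) := by
          rcases M.eq_zero_or_pos with h0 | hpos
          · rw [h0]; simp
          · have hr : range M = insert 0 (Ico 1 M) := by
              ext i; rw [mem_range, mem_insert, mem_Ico]; omega
            rw [hr, sum_insert (by simp)]
            rw [PB_zero, sum_empty, zero_add, ← sum_neg_distrib]
            have h2 : ∑ j ∈ Icc 1 M, -(1 / (j : ℝ) ^ 2) ≤ ∑ j ∈ Ico 1 M, -(1 / (j : ℝ) ^ 2) := by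
              rw [sum_neg_distrib, sum_neg_distrib, neg_le_neg_iff]
              refine sum_le_sum_of_subset_of_nonneg ?_ (fun _ _ _ => by positivity)
              intro j hj
              rw [mem_Ico] at hj
              rw [mem_Icc]; omega
            refine h2.trans (sum_le_sum fun j hj => ?_)
            rw [mem_Ico] at hj
            exact hgood j (by rw [mem_Icc]; omega)
        have h3 := N1.sum_inv_sq_le M
        linarith
      have hpart : -1 ≤ ∑ p ∈ (PB Y₁ M).filter (fun p => p ≤ ⌊w⌋₊),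
          ((rt a d (σ * u) p : ℝ) - 1) / (p : ℝ) := by
        have h3 : (0 : ℝ) < 2 ^ M := by positivity
        have h4 : ∑ p ∈ (PB Y₁ M).filter (fun p => p ≤ ⌊w⌋₊), -(1 / (2 : ℝ) ^ M) ≤
            ∑ p ∈ (PB Y₁ M).filter (fun p => p ≤ ⌊w⌋₊),
              ((rt a d (σ * u) p : ℝ) - 1) / (p : ℝ) := by
          refine sum_le_sum fun p hp => ?_
          have h5 := (mem_PB (mem_filter.mp hp).1).1
          have h6 : ((2 : ℝ) ^ M) ≤ p := by exact_mod_cast h5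
          have hp0 : (0 : ℝ) < p := by linarith
          have h7 : -(1 / (p : ℝ)) ≤ ((rt a d (σ * u) p : ℝ) - 1) / (p : ℝ) := by
            rw [← neg_div]
            apply div_le_div_of_nonneg_right _ hp0.le
            have : (0 : ℝ) ≤ (rt a d (σ * u) p : ℝ) := Nat.cast_nonneg _
            linarith
          refine le_trans ?_ h7
          rw [neg_le_neg_iff]
          exact one_div_le_one_div_of_le h3 h6
        refine le_trans ?_ h4
        rw [sum_const, nsmul_eq_mul]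
        have h1 : (((PB Y₁ M).filter (fun p => p ≤ ⌊w⌋₊)).card : ℝ) ≤ 2 ^ M := by
          exact_mod_cast (card_filter_le _ _).trans (card_PB_le Y₁ M)
        have h5 : (((PB Y₁ M).filter (fun p => p ≤ ⌊w⌋₊)).card : ℝ) * (1 / 2 ^ M) ≤ 1 := by
          calc _ ≤ 2 ^ M * (1 / (2 : ℝ) ^ M) := mul_le_mul_of_nonneg_right h1 (by positivity)
            _ = 1 := by field_simp
        linarith
      linarith
    have h6 := hM Y₁ w (by linarith) hw1
    have h7 : ∑ p ∈ SP Y₁ w ∅, (rt a d (σ * u) p : ℝ) / (p : ℝ) =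
        ∑ p ∈ SP Y₁ w ∅, (1 : ℝ) / p +
          ∑ p ∈ SP Y₁ w ∅, ((rt a d (σ * u) p : ℝ) - 1) / (p : ℝ) := by
      rw [← Finset.sum_add_distrib]
      refine Finset.sum_congr rfl fun p _ => ?_
      ring
    rw [h7]
    linarith

end Pool.Agent.W154.PV
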