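import Pool.Agent.W154.PV.Many1

set_option autoImplicit false

/-! # Many primes above `y` for which `a x ^ d + k` has a root -/

namespace Pool.Agent.W154.PV

open Finset

open scoped Classical

open Pool.Agent.H426R3.SQ.N5 (geom_le fact_card mertens' sum_log)

section
variable {a d : ℕ} {k : ℤ}

theorem per_prime {p : ℕ} (hp : p.Prime) (ha : 1 ≤ a) (hd : 1 ≤ d) (hk : k ≠ 0)
    (hg : Int.gcd a k = 1) (V X : ℕ) (hX1 : 1 ≤ X)
    (hn0 : ∀ t ∈ Icc 1 V, FF a d k t ≠ 0) (hX : ∀ t ∈ Icc 1 V, FF a d k t ≤ X) :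
    ∑ t ∈ Icc 1 V, ((FF a d k t).factorization p : ℝ) * Real.log p ≤
      d * (V * (Real.log p / (p - 1)) + Real.log X) := by
  have hp1 : (1 : ℝ) < p := by exact_mod_cast hp.one_lt
  have hlp : 0 < Real.log p := Real.log_pos hp1
  set K := Nat.log p X with hK
  have h1 : ∑ t ∈ Icc 1 V, ((FF a d k t).factorization p : ℝ) =
      ∑ i ∈ Icc 1 K, (((Icc 1 V).filter (fun t => p ^ i ∣ FF a d k t)).card : ℝ) := by
    have h2 : ∀ t ∈ Icc 1 V, ((FF a d k t).factorization p : ℝ) =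
        ∑ i ∈ Icc 1 K, (if p ^ i ∣ FF a d k t then (1 : ℝ) else 0) := by
      intro t ht
      rw [fact_card hp (hn0 t ht) (hX t ht), Finset.card_filter]
      push_cast
      rfl
    rw [Finset.sum_congr rfl h2, Finset.sum_comm]
    refine Finset.sum_congr rfl fun i _ => ?_
    rw [Finset.card_filter]
    push_cast
    rfl
  have h3 : ∑ i ∈ Icc 1 K, (((Icc 1 V).filter (fun t => p ^ i ∣ FF a d k t)).card : ℝ) ≤
      d * (V * (1 / ((p : ℝ) - 1)) + K) := by
    calc ∑ i ∈ Icc 1 K, (((Icc 1 V).filter (fun t => p ^ i ∣ FF a d k t)).card : ℝ) ≤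
        ∑ i ∈ Icc 1 K, ((d : ℝ) * (V * (1 / (p : ℝ) ^ i) + 1)) := by
          refine Finset.sum_le_sum fun i hi => ?_
          have := card_sol (e := i) hp (Finset.mem_Icc.mp hi).1 ha hd hk hg V
          rw [mul_one_div]
          exact this
      _ = d * (V * ∑ i ∈ Icc 1 K, (1 / (p : ℝ) ^ i) + K) := by
          rw [← Finset.mul_sum, Finset.sum_add_distrib, ← Finset.mul_sum]
          simp
      _ ≤ _ := by
          have := geom_le p hp1 K
          gcongr
  have h4 : (K : ℝ) * Real.log p ≤ Real.log X := by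
    have h5 : p ^ K ≤ X := Nat.pow_log_le_self p (by omega)
    have h6 : ((p : ℝ)) ^ K ≤ X := by exact_mod_cast h5
    have h7 := Real.log_le_log (by positivity) h6
    rwa [Real.log_pow] at h7
  rw [← Finset.sum_mul, h1]
  calc (∑ i ∈ Icc 1 K, (((Icc 1 V).filter (fun t => p ^ i ∣ FF a d k t)).card : ℝ)) *
        Real.log p ≤ (d * (V * (1 / ((p : ℝ) - 1)) + K)) * Real.log p :=
        mul_le_mul_of_nonneg_right h3 hlp.le
    _ = d * (V * (Real.log p / (p - 1)) + K * Real.log p) := by ring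
    _ ≤ _ := by gcongr

/-- the primes dividing some value -/
noncomputable def PSF (a d : ℕ) (k : ℤ) (V X : ℕ) : Finset ℕ :=
  (Icc 1 X).filter (fun p => p.Prime ∧ ∃ t ∈ Icc 1 V, p ∣ FF a d k t)

theorem mem_PSF {V X p : ℕ} : p ∈ PSF a d k V X ↔
    (1 ≤ p ∧ p ≤ X) ∧ p.Prime ∧ ∃ t ∈ Icc 1 V, p ∣ FF a d k t := by
  unfold PSF
  simp only [Finset.mem_filter, Finset.mem_Icc]

theorem main_ineqF (ha : 1 ≤ a) (hd : 1 ≤ d) (hk : k ≠ 0)
    (hg : Int.gcd a k = 1) (V X : ℕ) (hV : 1 ≤ V) (hX1 : 1 ≤ X)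
    (hX : ∀ t ∈ Icc 1 V, FF a d k t ≤ X) :
    V * Real.log V - V ≤
      ∑ p ∈ PSF a d k V X, (V * (Real.log p / (p - 1)) + Real.log X) := by
  have hd0 : (0 : ℝ) < d := by exact_mod_cast hd
  have hle : ∀ t : ℕ, t ^ d ≤ FF a d k t := fun t => (FF_eq ha hd hk t).2
  have hn0 : ∀ t ∈ Icc 1 V, FF a d k t ≠ 0 := by
    intro t ht
    have h1 := (Finset.mem_Icc.1 ht).1
    have := hle t
    have h2 : 0 < t ^ d := by positivity
    omega
  have h1 : d * (V * Real.log V - V) ≤ ∑ t ∈ Icc 1 V, d * Real.log t := by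
    have h2 := sum_log V
    rw [← Finset.mul_sum, h2]
    have h3 := Real.pow_div_factorial_le_exp (V : ℝ) (by positivity) V
    have h4 : (0 : ℝ) < V := by exact_mod_cast hV
    have h5 : (0 : ℝ) < V.factorial := by exact_mod_cast V.factorial_pos
    have h6 := Real.log_le_log (by positivity) h3
    rw [Real.log_exp, Real.log_div (by positivity) (by positivity), Real.log_pow] at h6
    apply mul_le_mul_of_nonneg_left _ hd0.le
    linarith
  have h2 : ∑ t ∈ Icc 1 V, d * Real.log t ≤ ∑ t ∈ Icc 1 V, Real.log (FF a d k t) := by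
    refine Finset.sum_le_sum fun t ht => ?_
    have h3 := (Finset.mem_Icc.1 ht).1
    have h4 := hle t
    have h5 : ((t : ℝ)) ^ d ≤ FF a d k t := by exact_mod_cast h4
    have h6 : (0 : ℝ) < t := by exact_mod_cast h3
    have h7 := Real.log_le_log (by positivity) h5
    rw [Real.log_pow] at h7
    exact_mod_cast h7
  have h3 : ∀ t ∈ Icc 1 V, Real.log (FF a d k t) =
      ∑ p ∈ PSF a d k V X, ((FF a d k t).factorization p : ℝ) * Real.log p := by
    intro t ht
    rw [Real.log_nat_eq_sum_factorization, Finsupp.sum]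
    refine Finset.sum_subset ?_ ?_
    · intro p hp
      rw [Nat.support_factorization, Nat.mem_primeFactors] at hp
      obtain ⟨h4, h5, h6⟩ := hp
      refine mem_PSF.2 ⟨⟨h4.one_lt.le, (Nat.le_of_dvd (Nat.pos_of_ne_zero h6) h5).trans (hX t ht)⟩,
        h4, t, ht, h5⟩
    · intro p _ hp
      rw [Finsupp.notMem_support_iff] at hp
      rw [hp]
      simp
  have h4 : d * (V * Real.log V - V) ≤
      ∑ p ∈ PSF a d k V X, d * (V * (Real.log p / (p - 1)) + Real.log X) := by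
    calc d * (V * Real.log V - V) ≤ ∑ t ∈ Icc 1 V, Real.log (FF a d k t) := h1.trans h2
      _ = ∑ t ∈ Icc 1 V, ∑ p ∈ PSF a d k V X, ((FF a d k t).factorization p : ℝ) * Real.log p :=
          Finset.sum_congr rfl h3
      _ = ∑ p ∈ PSF a d k V X, ∑ t ∈ Icc 1 V, ((FF a d k t).factorization p : ℝ) * Real.log p :=
          Finset.sum_comm
      _ ≤ _ := by
          refine Finset.sum_le_sum fun p hp => ?_
          have h4 : p.Prime := (mem_PSF.1 hp).2.1
          exact per_prime h4 ha hd hk hg V X hX1 hn0 hX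
  rw [← Finset.mul_sum] at h4
  exact le_of_mul_le_mul_left h4 hd0

end

theorem many_roots (D : ℕ) (hD : 1 ≤ D) : ∃ y₀ : ℝ, ∀ y : ℝ, y₀ ≤ y →
    ∀ a d : ℕ, 1 ≤ a → a ≤ D → 1 ≤ d → d ≤ D → ∀ k : ℤ, k ≠ 0 → Int.gcd a k = 1 →
    (|k| : ℝ) ≤ y ^ 2 →
    y ≤ (((Finset.Icc 1 ⌊y ^ (8 * D + 1)⌋₊).filter (fun p : ℕ => p.Prime ∧ y < (p : ℝ) ∧
      ∃ t : ℤ, (p : ℤ) ∣ (a : ℤ) * t ^ d + k)).card : ℝ) := by
  obtain ⟨C, hC0, hC⟩ := mertens'
  refine ⟨max (100 + 10 * D) (Real.exp (2 + C)), fun y hy a d ha haD hd hdD k hk hg hky => ?_⟩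
  have hD1 : (1 : ℝ) ≤ D := by exact_mod_cast hD
  have hyD : (100 + 10 * D : ℝ) ≤ y := (le_max_left _ _).trans hy
  have hy100 : (100 : ℝ) ≤ y := by linarith
  have hy0 : (0 : ℝ) < y := by linarith
  have hy1 : (1 : ℝ) ≤ y := by linarith
  have hyL : 2 + C ≤ Real.log y := by
    rw [Real.le_log_iff_exp_le hy0]
    exact (le_max_right _ _).trans hy
  set L := Real.log y with hL
  have hL0 : 0 < L := by linarith
  have hLy : L ≤ y := (Real.log_le_sub_one_of_pos hy0).trans (by linarith)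
  set V : ℕ := ⌈y⌉₊ ^ 5 with hV
  set X : ℕ := ⌊y ^ (8 * D + 1)⌋₊ with hX
  have hc1 : y ≤ (⌈y⌉₊ : ℝ) := Nat.le_ceil y
  have hc2 : (⌈y⌉₊ : ℝ) ≤ 2 * y := by
    have := Nat.ceil_lt_add_one hy0.le
    linarith
  have hV1 : y ^ 5 ≤ (V : ℝ) := by
    rw [hV]; push_cast
    gcongr
  have hV2 : (V : ℝ) ≤ 32 * y ^ 5 := by
    rw [hV]; push_cast
    calc (⌈y⌉₊ : ℝ) ^ 5 ≤ (2 * y) ^ 5 := by gcongr
      _ = 32 * y ^ 5 := by ring
  have hVpos : (0 : ℝ) < V := lt_of_lt_of_le (by positivity) hV1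
  have hVn : 1 ≤ V := by exact_mod_cast hVpos
  have hXr : (X : ℝ) ≤ y ^ (8 * D + 1) := Nat.floor_le (by positivity)
  have hX1 : 1 ≤ X := by
    rw [hX, Nat.one_le_floor_iff]
    exact one_le_pow₀ (by linarith)
  have hky' : ((k.natAbs : ℕ) : ℝ) ≤ y ^ 2 := by
    rw [Nat.cast_natAbs]
    push_cast
    exact hky
  have hnX : ∀ t ∈ Icc 1 V, FF a d k t ≤ X := by
    intro t ht
    apply Nat.le_floor
    have h1 : (t : ℝ) ≤ V := by exact_mod_cast (Finset.mem_Icc.1 ht).2
    have h2 : (FF a d k t : ℤ) = (a : ℤ) * (xs k t : ℤ) ^ d + k := (FF_eq ha hd hk t).1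
    have h3 : (FF a d k t : ℝ) = (a : ℝ) * (xs k t : ℝ) ^ d + k := by exact_mod_cast h2
    have h4 : (xs k t : ℝ) ≤ y ^ 8 := by
      unfold xs
      push_cast
      rw [Nat.cast_natAbs] at *
      push_cast at *
      calc 1 + |(k : ℝ)| * (2 * (t : ℝ) + 1) ≤ 1 + y ^ 2 * (2 * (32 * y ^ 5) + 1) := by
            gcongr
            exact h1.trans hV2
        _ = 1 + y ^ 2 + 64 * y ^ 7 := by ring
        _ ≤ y ^ 7 + y ^ 7 + 64 * y ^ 7 := by
            have e1 : (1 : ℝ) ≤ y ^ 7 := one_le_pow₀ hy1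
            have e2 : y ^ 2 ≤ y ^ 7 := pow_le_pow_right₀ hy1 (by norm_num)
            linarith
        _ = 66 * y ^ 7 := by ring
        _ ≤ y * y ^ 7 := by gcongr; linarith
        _ = y ^ 8 := by ring
    have h5 : (k : ℝ) ≤ y ^ 2 := (le_abs_self _).trans hky
    rw [h3]
    calc (a : ℝ) * (xs k t : ℝ) ^ d + k ≤ D * (y ^ 8) ^ D + y ^ 2 := by
          have e1 : (a : ℝ) ≤ D := by exact_mod_cast haD
          have e2 : (xs k t : ℝ) ^ d ≤ (y ^ 8) ^ D := by
            calc (xs k t : ℝ) ^ d ≤ (y ^ 8) ^ d := by gcongr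
              _ ≤ (y ^ 8) ^ D := pow_le_pow_right₀ (one_le_pow₀ hy1) hdD
          have e3 : (a : ℝ) * (xs k t : ℝ) ^ d ≤ D * (y ^ 8) ^ D :=
            mul_le_mul e1 e2 (by positivity) (by positivity)
          linarith
      _ = D * y ^ (8 * D) + y ^ 2 := by rw [← pow_mul]
      _ ≤ D * y ^ (8 * D) + y ^ (8 * D) := by
          have : y ^ 2 ≤ y ^ (8 * D) := pow_le_pow_right₀ hy1 (by omega)
          linarith
      _ = (D + 1) * y ^ (8 * D) := by ring
      _ ≤ y * y ^ (8 * D) := by gcongr; linarith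
      _ = y ^ (8 * D + 1) := by ring
  have hlogX : Real.log X ≤ (8 * D + 1) * L := by
    have h1 := Real.log_le_log (by exact_mod_cast hX1) hXr
    rw [Real.log_pow] at h1
    push_cast at h1
    exact h1
  have hlogX0 : 0 ≤ Real.log X := Real.log_nonneg (by exact_mod_cast hX1)
  have hlogXy : Real.log X ≤ y * L := by
    refine hlogX.trans ?_
    gcongr
    linarith
  have hmain := main_ineqF ha hd hk hg V X hVn hX1 hnX
  have hlogV : 5 * L ≤ Real.log V := by
    have h1 := Real.log_le_log (by positivity) hV1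
    rw [Real.log_pow] at h1
    exact_mod_cast h1
  set S := PSF a d k V X with hS
  set S1 := S.filter (fun p : ℕ => (p : ℝ) ≤ y) with hS1
  set S2 := S.filter (fun p : ℕ => ¬ (p : ℝ) ≤ y) with hS2
  have hsplit := Finset.sum_filter_add_sum_filter_not S (fun p : ℕ => (p : ℝ) ≤ y)
    (fun p : ℕ => (V * (Real.log p / (p - 1)) + Real.log X))
  rw [← hS1, ← hS2] at hsplit
  -- small primes
  have hN1 : 1 ≤ ⌊y⌋₊ := by
    rw [Nat.one_le_floor_iff]; linarith
  have hsub1 : S1 ⊆ (Icc 1 ⌊y⌋₊).filter Nat.Prime := by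
    intro p hp
    obtain ⟨h1, h2⟩ := Finset.mem_filter.1 hp
    obtain ⟨h3, h4, -⟩ := mem_PSF.1 h1
    rw [Finset.mem_filter, Finset.mem_Icc]
    exact ⟨⟨h3.1, Nat.le_floor h2⟩, h4⟩
  have hb1 : ∑ p ∈ S1, (V * (Real.log p / (p - 1)) + Real.log X) ≤
      V * (L + C) + y * (y * L) := by
    have hnn : ∀ p : ℕ, p.Prime → 0 ≤ Real.log p / ((p : ℝ) - 1) := by
      intro p hp
      have hp1 : (1 : ℝ) < p := by exact_mod_cast hp.one_lt
      exact div_nonneg (Real.log_nonneg hp1.le) (by linarith)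
    calc ∑ p ∈ S1, (V * (Real.log p / (p - 1)) + Real.log X) ≤
        ∑ p ∈ (Icc 1 ⌊y⌋₊).filter Nat.Prime,
          (V * (Real.log p / (p - 1)) + Real.log X) := by
          refine Finset.sum_le_sum_of_subset_of_nonneg hsub1 ?_
          intro p hp _
          have := hnn p (Finset.mem_filter.1 hp).2
          positivity
      _ = V * ∑ p ∈ (Icc 1 ⌊y⌋₊).filter Nat.Prime, (Real.log p / (p - 1)) +
          (((Icc 1 ⌊y⌋₊).filter Nat.Prime).card : ℝ) * (Real.log X) := by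
          rw [Finset.sum_add_distrib, ← Finset.mul_sum, Finset.sum_const, nsmul_eq_mul]
      _ ≤ V * (L + C) + y * (y * L) := by
          have h1 := hC ⌊y⌋₊ hN1
          have h2 : Real.log (⌊y⌋₊ : ℝ) ≤ L :=
            Real.log_le_log (by exact_mod_cast hN1) (Nat.floor_le hy0.le)
          have h3 : (((Icc 1 ⌊y⌋₊).filter Nat.Prime).card : ℝ) ≤ y := by
            have h4 : ((Icc 1 ⌊y⌋₊).filter Nat.Prime).card ≤ ⌊y⌋₊ := by
              refine (Finset.card_filter_le _ _).trans ?_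
              simp
            calc (((Icc 1 ⌊y⌋₊).filter Nat.Prime).card : ℝ) ≤ (⌊y⌋₊ : ℝ) := by exact_mod_cast h4
              _ ≤ y := Nat.floor_le hy0.le
          have h5 : ∑ p ∈ (Icc 1 ⌊y⌋₊).filter Nat.Prime, (Real.log p / ((p : ℝ) - 1)) ≤ L + C := by
            linarith
          gcongr
  -- large primes
  have hb2 : ∑ p ∈ S2, (V * (Real.log p / (p - 1)) + Real.log X) ≤
      (S2.card : ℝ) * (3 * V * L / y) := by
    rw [← nsmul_eq_mul]
    refine Finset.sum_le_card_nsmul _ _ _ ?_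
    intro p hp
    have h1 : y < (p : ℝ) := not_le.1 (Finset.mem_filter.1 hp).2
    have hp0 : (0 : ℝ) < p := by linarith
    have h2 : Real.log p / p ≤ L / y := by
      have he : Real.exp 1 ≤ y := by
        have := Real.exp_one_lt_d9
        linarith
      exact Real.log_div_self_antitoneOn he (he.trans h1.le) h1.le
    have hlp : 0 ≤ Real.log p := Real.log_nonneg (by linarith)
    have h3 : Real.log p / (p - 1) ≤ 2 * (L / y) := by
      calc Real.log p / ((p : ℝ) - 1) ≤ Real.log p / ((p : ℝ) / 2) := by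
            apply div_le_div_of_nonneg_left hlp (by positivity)
            linarith
        _ = 2 * (Real.log p / p) := by field_simp
        _ ≤ _ := by gcongr
    have h4 : y * L ≤ V * (L / y) := by
      have h5 : y * y ≤ (V : ℝ) := by
        refine le_trans ?_ hV1
        have : y ^ 2 ≤ y ^ 5 := pow_le_pow_right₀ hy1 (by norm_num)
        nlinarith
      calc y * L = (y * y) * (L / y) := by field_simp
        _ ≤ V * (L / y) := by gcongr
    calc V * (Real.log p / ((p : ℝ) - 1)) + Real.log X ≤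
        V * (2 * (L / y)) + y * L := by gcongr
      _ ≤ V * (2 * (L / y)) + V * (L / y) := by linarith
      _ = 3 * V * L / y := by ring
  have hsub2 : S2 ⊆ (Finset.Icc 1 X).filter (fun p : ℕ => p.Prime ∧ y < (p : ℝ) ∧
      ∃ t : ℤ, (p : ℤ) ∣ (a : ℤ) * t ^ d + k) := by
    intro p hp
    obtain ⟨h1, h2⟩ := Finset.mem_filter.1 hp
    obtain ⟨h3, h4, t, -, h5⟩ := mem_PSF.1 h1
    rw [Finset.mem_filter, Finset.mem_Icc]
    exact ⟨h3, h4, not_le.1 h2, xs k t, Int.natCast_dvd.2 h5⟩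
  have hcard : (S2.card : ℝ) ≤ (((Finset.Icc 1 X).filter (fun p : ℕ => p.Prime ∧ y < (p : ℝ) ∧
      ∃ t : ℤ, (p : ℤ) ∣ (a : ℤ) * t ^ d + k)).card : ℝ) := by
    exact_mod_cast Finset.card_le_card hsub2
  refine le_trans ?_ hcard
  have h1 : (V * (5 * L) - V) ≤ V * (L + C) + y * (y * L) + (S2.card : ℝ) * (3 * V * L / y) := by
    have h2 : (V * (5 * L) - V) ≤ (V * Real.log V - V) := by gcongr
    linarith
  have h2 : y * (y * L) ≤ V := by
    refine le_trans ?_ hV1
    calc y * (y * L) ≤ y * (y * y) := by gcongr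
      _ = y ^ 3 := by ring
      _ ≤ y ^ 5 := pow_le_pow_right₀ hy1 (by norm_num)
  have h3 : (V : ℝ) * (4 * L - 2 - C) ≤ V * ((S2.card : ℝ) * (3 * L / y)) := by
    have h4 : (S2.card : ℝ) * (3 * V * L / y) = V * ((S2.card : ℝ) * (3 * L / y)) := by ring
    rw [h4] at h1
    nlinarith
  have h4 : 4 * L - 2 - C ≤ (S2.card : ℝ) * (3 * L / y) := le_of_mul_le_mul_left h3 hVpos
  have h5 : (4 * L - 2 - C) * y ≤ (S2.card : ℝ) * (3 * L) := by
    have h6 : (S2.card : ℝ) * (3 * L / y) * y = (S2.card : ℝ) * (3 * L) := by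
      field_simp
    rw [← h6]
    gcongr
  have h6 : 3 * L ≤ 4 * L - 2 - C := by linarith
  have h7 : 3 * L * y ≤ (S2.card : ℝ) * (3 * L) := le_trans (by gcongr) h5
  have h8 : (3 * L) * y ≤ (3 * L) * (S2.card : ℝ) := by linarith
  exact le_of_mul_le_mul_left h8 (by positivity)

end Pool.Agent.W154.PV
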