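import Pool.Agent.W154.PV.Arith
import Pool.Agent.W154.PV.Few
import Pool.Agent.W154.PV.RoughD
import Pool.Agent.W154.PV.Many2
import Pool.Agent.H426R3.SQ.Q3
import Pool.Agent.H398R2.RK.Count

set_option autoImplicit false

/-! # Preparations for the final assembly -/

namespace Pool.Agent.W154.PV

open Finset Pool.Agent.H256R2.SC Pool.Agent.H426R3.SQ

open scoped Classical

theorem GP_card (D : ℕ) (y : ℝ) (T : ℕ) (Bad : Finset Cl)
    (h0 : ∀ c ∈ box D T, c.2.2 = 0 → c ∈ Bad) :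
    ((GP D y T Bad).card : ℝ) ≤ ∑ x ∈ (Icc 1 D) ×ˢ (Icc 1 D),
      (((SV y T (x.1 : ℤ)).card : ℝ) + ((SV y T (-(x.1 : ℤ))).card : ℝ)) := by
  have hsub : GP D y T Bad ⊆ ((Icc 1 D) ×ˢ (Icc 1 D)).biUnion (fun x =>
      (SV y T (x.1 : ℤ)).image (fun v : ℕ => ((x.1, x.2, (v : ℤ)) : Cl)) ∪
      (SV y T (-(x.1 : ℤ))).image (fun v : ℕ => ((x.1, x.2, -(v : ℤ)) : Cl))) := by
    rintro ⟨a, d, k⟩ hc
    unfold GP at hc
    rw [mem_filter] at hc
    obtain ⟨hb, hbad, h5, h6⟩ := hc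
    have hk0 : k ≠ 0 := fun h => hbad (h0 _ hb h)
    obtain ⟨⟨a1, a2⟩, ⟨a3, a4⟩, a5, a6⟩ := mem_box.mp hb
    simp only at a1 a2 a3 a4 a5 a6 h5 h6
    rw [mem_biUnion]
    refine ⟨(a, d), mem_product.mpr ⟨mem_Icc.mpr ⟨a1, a2⟩, mem_Icc.mpr ⟨a3, a4⟩⟩, ?_⟩
    have hkT := abs_le.mp a5
    rcases lt_or_gt_of_ne hk0 with h | h
    · apply mem_union_right
      obtain ⟨v, hv⟩ := Int.eq_ofNat_of_zero_le (show 0 ≤ -k by linarith)
      have hv' : k = -(v : ℤ) := by linarith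
      refine mem_image.mpr ⟨v, ?_, by rw [hv']⟩
      unfold SV
      rw [mem_filter, mem_Icc]
      refine ⟨⟨by omega, by omega⟩, fun p hp hp1 hp2 hd => h5 p hp hp1 hp2 ?_,
        fun p hp hp1 hd => h6 p hp hp1 ?_⟩
      · rw [hv']
        exact (Int.dvd_neg).mpr (by exact_mod_cast hd)
      · have e : (a : ℤ) + k = -((v : ℤ) + (-(a : ℤ))) := by rw [hv']; ring
        rw [e]
        exact (Int.dvd_neg).mpr hd
    · apply mem_union_left
      obtain ⟨v, hv⟩ := Int.eq_ofNat_of_zero_le h.le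
      refine mem_image.mpr ⟨v, ?_, by rw [hv]⟩
      unfold SV
      rw [mem_filter, mem_Icc]
      refine ⟨⟨by omega, by omega⟩, fun p hp hp1 hp2 hd => h5 p hp hp1 hp2 ?_,
        fun p hp hp1 hd => h6 p hp hp1 ?_⟩
      · rw [hv]
        exact_mod_cast hd
      · have e : (a : ℤ) + k = (v : ℤ) + a := by rw [hv]; ring
        rw [e]
        exact hd
  have h1 : (GP D y T Bad).card ≤ ∑ x ∈ (Icc 1 D) ×ˢ (Icc 1 D),
      ((SV y T (x.1 : ℤ)).card + (SV y T (-(x.1 : ℤ))).card) := by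
    refine (card_le_card hsub).trans (card_biUnion_le.trans (sum_le_sum fun x _ => ?_))
    exact (card_union_le _ _).trans (add_le_add card_image_le card_image_le)
  exact_mod_cast h1

/-- removing the exceptional primes -/
theorem sum_removeD {D T : ℕ} {c : Cl} (hc : c ∈ box D T) {Y₁ w : ℝ} (hY₁ : 0 < Y₁)
    (hDY : (D : ℝ) ≤ Y₁) (B : Finset ℕ) (hB : (D : ℝ) * (B.card : ℝ) ≤ Y₁) :
    ∑ p ∈ SP Y₁ w ∅, (rt c.1 c.2.1 c.2.2 p : ℝ) / (p : ℝ) ≤
      (∑ p ∈ SP Y₁ w B, gc Y₁ p c) + 1 := by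
  have hgb := fun p => gc_bound hDY p c hc
  have h1 : SP Y₁ w ∅ ⊆ SP Y₁ w B ∪ (SP Y₁ w ∅).filter (fun p => p ∈ B) := by
    intro p hp
    by_cases h : p ∈ B
    · exact mem_union_right _ (mem_filter.mpr ⟨hp, h⟩)
    · apply mem_union_left
      unfold SP at hp ⊢
      rw [mem_filter] at hp ⊢
      exact ⟨hp.1, hp.2.1, hp.2.2.1, h⟩
  have hmem : ∀ p ∈ SP Y₁ w ∅, p.Prime ∧ Y₁ < (p : ℝ) := by
    intro p hp
    unfold SP at hp
    rw [mem_filter] at hp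
    exact ⟨hp.2.1, hp.2.2.1⟩
  have h2 : ∑ p ∈ SP Y₁ w ∅, (rt c.1 c.2.1 c.2.2 p : ℝ) / (p : ℝ) =
      ∑ p ∈ SP Y₁ w ∅, gc Y₁ p c := by
    refine sum_congr rfl fun p hp => ?_
    unfold gc
    rw [if_pos (hmem p hp)]
  rw [h2]
  have h3 : ∑ p ∈ SP Y₁ w ∅, gc Y₁ p c ≤
      ∑ p ∈ SP Y₁ w B, gc Y₁ p c + ∑ p ∈ (SP Y₁ w ∅).filter (fun p => p ∈ B), gc Y₁ p c := by
    refine (sum_le_sum_of_subset_of_nonneg h1 fun p _ _ => (hgb p).1).trans ?_
    have := sum_union_inter (s₁ := SP Y₁ w B) (s₂ := (SP Y₁ w ∅).filter (fun p => p ∈ B))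
      (f := fun p => gc Y₁ p c)
    have h4 : 0 ≤ ∑ p ∈ SP Y₁ w B ∩ (SP Y₁ w ∅).filter (fun p => p ∈ B), gc Y₁ p c :=
      sum_nonneg fun p _ => (hgb p).1
    linarith
  have h4 : ∑ p ∈ (SP Y₁ w ∅).filter (fun p => p ∈ B), gc Y₁ p c ≤ 1 := by
    calc ∑ p ∈ (SP Y₁ w ∅).filter (fun p => p ∈ B), gc Y₁ p c
        ≤ ∑ p ∈ (SP Y₁ w ∅).filter (fun p => p ∈ B), (D : ℝ) / Y₁ := by
          refine sum_le_sum fun p hp => ?_
          have h5 := (hmem p (mem_filter.mp hp).1).2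
          exact (hgb p).2.trans (div_le_div_of_nonneg_left (Nat.cast_nonneg D) hY₁ h5.le)
      _ = (((SP Y₁ w ∅).filter (fun p => p ∈ B)).card : ℝ) * ((D : ℝ) / Y₁) := by
          rw [sum_const, nsmul_eq_mul]
      _ ≤ (B.card : ℝ) * ((D : ℝ) / Y₁) := by
          apply mul_le_mul_of_nonneg_right _ (by positivity)
          exact_mod_cast card_le_card fun p hp => (mem_filter.mp hp).2
      _ ≤ 1 := by
          rw [← mul_div_assoc, div_le_one hY₁]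
          linarith
  linarith

/-- the rough sum starting at `Y₁` is part of the rough sum starting at `y₀` -/
theorem rough_shift {D T : ℕ} {c : Cl} (hc : c ∈ box D T) {y₀ Y₁ z x c₂ l : ℝ} {C₁ : ℕ}
    (hDY : (D : ℝ) ≤ Y₁) (hY : y₀ ≤ Y₁) (hl : 0 < l) (hlog : Real.log Y₁ = C₁ * l)
    (hC₁ : 1 ≤ C₁) (hc₂ : 0 < c₂) (hxY : Y₁ ≤ x ∨ Real.log x ≤ C₁ * l) (hY₁ : 0 < Y₁)
    (B : Finset ℕ)
    (h : Y₁ ≤ x → c₂ * Real.log x / Real.log Y₁ - 1 ≤
      ∑ s ∈ ((SP Y₁ z B).powerset.filter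
            (fun s : Finset ℕ => s.Nonempty ∧ ∏ p ∈ s, (p : ℝ) ≤ x)), ∏ p ∈ s, gc Y₁ p c) :
    (min c₂ 1 / C₁) * Real.log x / l - 1 ≤
      ∑ s ∈ ((SP y₀ z B).powerset.filter
            (fun s : Finset ℕ => s.Nonempty ∧ ∏ p ∈ s, (p : ℝ) ≤ x)), ∏ p ∈ s, gc Y₁ p c := by
  have hC0 : (0 : ℝ) < C₁ := by exact_mod_cast hC₁
  have hnn : ∀ s : Finset ℕ, 0 ≤ ∏ p ∈ s, gc Y₁ p c := fun s =>
    prod_nonneg fun p _ => (gc_bound hDY p c hc).1
  have e1 : (min c₂ 1 / C₁) * Real.log x / l = min c₂ 1 * (Real.log x / (C₁ * l)) := by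
    field_simp
  rw [e1]
  have hcase : Y₁ ≤ x ∨ x < Y₁ := le_or_gt _ _
  rcases hcase with h1 | h1
  · have h2 := h h1
    have h3 : ∑ s ∈ ((SP Y₁ z B).powerset.filter
            (fun s : Finset ℕ => s.Nonempty ∧ ∏ p ∈ s, (p : ℝ) ≤ x)), ∏ p ∈ s, gc Y₁ p c ≤
        ∑ s ∈ ((SP y₀ z B).powerset.filter
            (fun s : Finset ℕ => s.Nonempty ∧ ∏ p ∈ s, (p : ℝ) ≤ x)), ∏ p ∈ s, gc Y₁ p c := by
      apply sum_le_sum_of_subset_of_nonneg _ fun s _ _ => hnn s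
      apply filter_subset_filter
      apply powerset_mono.mpr
      intro p hp
      unfold SP at hp ⊢
      rw [mem_filter] at hp ⊢
      exact ⟨hp.1, hp.2.1, by linarith [hp.2.2.1], hp.2.2.2⟩
    refine le_trans ?_ (h2.trans h3)
    rw [hlog]
    have h4 : 0 ≤ Real.log x / (C₁ * l) := by
      have h5 : Real.log Y₁ ≤ Real.log x := Real.log_le_log hY₁ h1
      rw [hlog] at h5
      have : 0 < (C₁ : ℝ) * l := by positivity
      exact div_nonneg (by linarith) this.le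
    have h6 : min c₂ 1 * (Real.log x / (C₁ * l)) ≤ c₂ * (Real.log x / (C₁ * l)) :=
      mul_le_mul_of_nonneg_right (min_le_left _ _) h4
    have e2 : c₂ * Real.log x / (C₁ * l) = c₂ * (Real.log x / (C₁ * l)) := by ring
    rw [e2]
    linarith
  · have h2 : Real.log x ≤ C₁ * l := by
      rcases hxY with h3 | h3
      · linarith
      · exact h3
    have h3 : Real.log x / (C₁ * l) ≤ 1 := by
      rw [div_le_one (by positivity)]
      exact h2
    have h4 : min c₂ 1 * (Real.log x / (C₁ * l)) ≤ 1 := by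
      have h5 : 0 < min c₂ 1 := lt_min hc₂ one_pos
      calc min c₂ 1 * (Real.log x / (C₁ * l)) ≤ min c₂ 1 * 1 :=
            mul_le_mul_of_nonneg_left h3 h5.le
        _ ≤ 1 := by rw [mul_one]; exact min_le_right _ _
    have h5 : 0 ≤ ∑ s ∈ ((SP y₀ z B).powerset.filter
            (fun s : Finset ℕ => s.Nonempty ∧ ∏ p ∈ s, (p : ℝ) ≤ x)), ∏ p ∈ s, gc Y₁ p c :=
      sum_nonneg fun s _ => hnn s
    linarith

/-- smooth numbers -/
def SM (y : ℝ) (m : ℕ) : Prop := ∀ p : ℕ, p.Prime → p ∣ m → (p : ℝ) ≤ zR y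

/-- sign -/
def sg (k : ℤ) : ℤ := if 0 < k then 1 else -1

theorem sg_mul (k : ℤ) : sg k * (k.natAbs : ℤ) = k := by
  unfold sg
  split_ifs with h
  · omega
  · omega

theorem sg_cases (k : ℤ) : sg k = 1 ∨ sg k = -1 := by
  unfold sg
  split_ifs
  · exact Or.inl rfl
  · exact Or.inr rfl

/-- the bad colours -/
noncomputable def BadC (D : ℕ) (y : ℝ) (T : ℕ) (𝓑 : ℕ → ℕ → ℤ → Finset ℕ) : Finset Cl :=
  (box D T).filter (fun c => c.2.2 = 0 ∨ IsPP D c.2.2.natAbs ∨ SM y c.2.2.natAbs ∨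
    c.2.2.natAbs ∈ 𝓑 c.1 c.2.1 (sg c.2.2))

theorem BadC_card (D : ℕ) (hD : 1 ≤ D) (y : ℝ) (T : ℕ) (𝓑 : ℕ → ℕ → ℤ → Finset ℕ) (b s : ℝ)
    (hs : (((Icc 1 T).filter (fun m => SM y m)).card : ℝ) ≤ s)
    (hb : ∀ a d : ℕ, 1 ≤ a → a ≤ D → 1 ≤ d → d ≤ D → ∀ σ : ℤ, (σ = 1 ∨ σ = -1) →
      ((𝓑 a d σ).card : ℝ) ≤ b) :
    ((BadC D y T 𝓑).card : ℝ) ≤ 2 * (D : ℝ) ^ 2 * (1 + D * Real.sqrt T + s + b) := by
  set I : Finset (ℕ × ℕ × ℤ) := (Icc 1 D) ×ˢ ((Icc 1 D) ×ˢ ({1, -1} : Finset ℤ)) with hI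
  set E : ℕ × ℕ × ℤ → Finset ℕ := fun x => (({0} ∪ (Icc 1 T).filter (fun m => IsPP D m)) ∪
    (Icc 1 T).filter (fun m => SM y m)) ∪ 𝓑 x.1 x.2.1 x.2.2 with hE
  have hsub : BadC D y T 𝓑 ⊆ I.biUnion (fun x => (E x).image
      (fun u : ℕ => ((x.1, x.2.1, x.2.2 * (u : ℤ)) : Cl))) := by
    rintro ⟨a, d, k⟩ hc
    unfold BadC at hc
    rw [mem_filter] at hc
    obtain ⟨hbx, hcase⟩ := hc
    obtain ⟨⟨a1, a2⟩, ⟨a3, a4⟩, a5, a6⟩ := mem_box.mp hbx
    simp only at a1 a2 a3 a4 a5 a6 hcase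
    rw [mem_biUnion]
    refine ⟨(a, d, sg k), ?_, ?_⟩
    · rw [hI, mem_product, mem_product, mem_Icc, mem_Icc, mem_insert, mem_singleton]
      exact ⟨⟨a1, a2⟩, ⟨a3, a4⟩, sg_cases k⟩
    · rw [mem_image]
      refine ⟨k.natAbs, ?_, by rw [sg_mul]⟩
      have hkT : k.natAbs ≤ T := by
        have : (k.natAbs : ℤ) ≤ T := by rw [Int.natCast_natAbs]; exact a5
        exact_mod_cast this
      rw [hE]
      simp only
      rw [mem_union, mem_union, mem_union, mem_singleton, mem_filter, mem_filter, mem_Icc]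
      by_cases hk : k = 0
      · left; left; left
        rw [hk]; rfl
      · have hk1 : 1 ≤ k.natAbs := Int.natAbs_pos.mpr hk
        rcases hcase with h | h | h | h
        · exact absurd h hk
        · left; left; right
          exact ⟨⟨hk1, hkT⟩, h⟩
        · left; right
          exact ⟨⟨hk1, hkT⟩, h⟩
        · right
          exact h
  have h1 : ((BadC D y T 𝓑).card : ℝ) ≤ ∑ x ∈ I, ((E x).card : ℝ) := by
    have : (BadC D y T 𝓑).card ≤ ∑ x ∈ I, (E x).card :=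
      (card_le_card hsub).trans (card_biUnion_le.trans (sum_le_sum fun x _ => card_image_le))
    exact_mod_cast this
  have h2 : ∀ x ∈ I, ((E x).card : ℝ) ≤ 1 + D * Real.sqrt T + s + b := by
    intro x hx
    rw [hI, mem_product, mem_product, mem_Icc, mem_Icc, mem_insert, mem_singleton] at hx
    have e1 : (E x).card ≤ ((1 + ((Icc 1 T).filter (fun m => IsPP D m)).card) +
        ((Icc 1 T).filter (fun m => SM y m)).card) + (𝓑 x.1 x.2.1 x.2.2).card := by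
      rw [hE]
      refine (card_union_le _ _).trans (add_le_add_left ?_ _)
      refine (card_union_le _ _).trans (add_le_add_left ?_ _)
      refine (card_union_le _ _).trans (add_le_add_left ?_ _)
      rw [card_singleton]
    have e2 : ((E x).card : ℝ) ≤ ((1 + (((Icc 1 T).filter (fun m => IsPP D m)).card : ℝ)) +
        (((Icc 1 T).filter (fun m => SM y m)).card : ℝ)) + ((𝓑 x.1 x.2.1 x.2.2).card : ℝ) := by
      exact_mod_cast e1
    have e3 := card_PP D T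
    have e4 := hb x.1 x.2.1 hx.1.1 hx.1.2 hx.2.1.1 hx.2.1.2 x.2.2 hx.2.2
    linarith
  have h3 : (I.card : ℝ) ≤ 2 * (D : ℝ) ^ 2 := by
    have : I.card = D * (D * 2) := by
      rw [hI, card_product, card_product, Nat.card_Icc]
      simp
    rw [this]
    push_cast
    nlinarith
  refine h1.trans ((sum_le_sum h2).trans ?_)
  rw [sum_const, nsmul_eq_mul]
  have h4 : 0 ≤ 1 + D * Real.sqrt T + s + b := by
    have e1 : 0 ≤ s := le_trans (Nat.cast_nonneg _) hs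
    have e2 : 0 ≤ b :=
      le_trans (Nat.cast_nonneg _) (hb 1 1 le_rfl hD le_rfl hD 1 (Or.inl rfl))
    positivity
  exact mul_le_mul_of_nonneg_right h3 h4

end Pool.Agent.W154.PV
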