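import Pool.Agent.W154.PV.FinA
import Pool.Agent.W154.PV.CovD
import Pool.Agent.H426R3.SQ.M1p
import Pool.Agent.H426R3.SQ.S3e

set_option autoImplicit false

/-! # Record gaps around the numbers `a n ^ d` -/

namespace Pool.Agent.W154.PV

open Finset Filter Pool.Agent.H256R2.SC Pool.Agent.H426R3.SQ

open scoped Classical

/-- largeness conditions -/
theorem ev_big (c' K : ℝ) : ∃ L₀ : ℝ, ∀ L : ℝ, L₀ ≤ L →
    c' * (Real.log L) ^ 3 ≤ L ^ (1 / 10 : ℝ) ∧ 10 * c' * (Real.log L) ^ 3 ≤ L ^ (1 / 50 : ℝ) ∧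
    K * Real.log L * L ^ (19 / 20 : ℝ) ≤ L := by
  obtain ⟨L₁, h1⟩ := ev_L c' 1
  have key : ∀ᶠ L : ℝ in atTop, 10 * c' * (Real.log L) ^ 3 ≤ L ^ (1 / 50 : ℝ) := by
    have e1 : (fun L : ℝ => (Real.log L) ^ (3:ℝ)) =o[atTop] (fun L : ℝ => L ^ (1 / 50 : ℝ)) :=
      isLittleO_log_rpow_rpow_atTop 3 (by norm_num)
    have e2 := e1.def (show (0:ℝ) < 1 / (|10 * c'| + 1) by positivity)
    filter_upwards [e2, eventually_ge_atTop (1:ℝ)] with L hL hL2
    have hl : 0 ≤ Real.log L := Real.log_nonneg hL2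
    rw [Real.norm_eq_abs, Real.norm_eq_abs, abs_of_nonneg (Real.rpow_nonneg hl _),
      abs_of_nonneg (Real.rpow_nonneg (by linarith) _)] at hL
    have e3 : (Real.log L) ^ (3:ℝ) = (Real.log L) ^ 3 := by
      rw [← Real.rpow_natCast]; norm_num
    rw [e3] at hL
    have e4 : (|10 * c'| + 1) * (Real.log L) ^ 3 ≤ L ^ (1 / 50 : ℝ) := by
      rw [div_mul_eq_mul_div, one_mul, le_div_iff₀ (by positivity)] at hL
      linarith
    have e5 : (10 * c') * (Real.log L) ^ 3 ≤ (|10 * c'| + 1) * (Real.log L) ^ 3 := by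
      apply mul_le_mul_of_nonneg_right _ (by positivity)
      linarith [le_abs_self (10 * c')]
    linarith
  have h3 : ∀ᶠ L : ℝ in atTop, K * Real.log L * L ^ (19 / 20 : ℝ) ≤ L := by
    have e1 : (fun L : ℝ => Real.log L) =o[atTop] (fun L : ℝ => L ^ (1 / 20 : ℝ)) :=
      isLittleO_log_rpow_atTop (by norm_num)
    have e2 := e1.def (show (0:ℝ) < 1 / (|K| + 1) by positivity)
    filter_upwards [e2, eventually_ge_atTop (1:ℝ)] with L hL hL2
    have hl : 0 ≤ Real.log L := Real.log_nonneg hL2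
    rw [Real.norm_eq_abs, Real.norm_eq_abs, abs_of_nonneg hl,
      abs_of_nonneg (Real.rpow_nonneg (by linarith) _)] at hL
    rw [div_mul_eq_mul_div, one_mul, le_div_iff₀ (by positivity)] at hL
    have e3 : L ^ (1 / 20 : ℝ) * L ^ (19 / 20 : ℝ) = L := by
      rw [← Real.rpow_add (by linarith)]; norm_num
    have e4 : K * Real.log L ≤ (|K| + 1) * Real.log L := by
      apply mul_le_mul_of_nonneg_right _ hl
      linarith [le_abs_self K]
    calc K * Real.log L * L ^ (19 / 20 : ℝ) ≤ L ^ (1 / 20 : ℝ) * L ^ (19 / 20 : ℝ) :=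
          mul_le_mul_of_nonneg_right (by linarith) (Real.rpow_nonneg (by linarith) _)
      _ = L := e3
  obtain ⟨L₂, h4⟩ := eventually_atTop.mp (key.and h3)
  refine ⟨max L₁ L₂, fun L hL => ?_⟩
  obtain ⟨a1, -⟩ := h1 L ((le_max_left _ _).trans hL)
  obtain ⟨a2, a3⟩ := h4 L ((le_max_right _ _).trans hL)
  exact ⟨a1, a2, a3⟩

/-- the record function is at most `L (log L) ^ 3` -/
theorem ff_le {Y : ℝ} (h100 : 100 ≤ Real.log (Real.log Y)) (hL0 : 0 < Real.log Y) :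
    Pool.Agent.H256R2.SC.ff Y ≤ Real.log Y * (Real.log (Real.log Y)) ^ 3 := by
  unfold Pool.Agent.H256R2.SC.ff
  set L := Real.log Y with hL
  have hl0 : 0 < Real.log L := by linarith
  have h3 : 1 ≤ Real.log (Real.log L) := by
    rw [Real.le_log_iff_exp_le hl0]
    have := Real.exp_one_lt_d9
    linarith
  have h4 : Real.log (Real.log (Real.log L)) ≤ Real.log L := by
    have e1 := Real.log_le_sub_one_of_pos (show 0 < Real.log (Real.log L) by linarith)
    have e2 := Real.log_le_sub_one_of_pos hl0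
    linarith
  have h5 : 0 ≤ Real.log (Real.log (Real.log L)) := Real.log_nonneg h3
  rw [div_le_iff₀ (by positivity)]
  have h6 : 1 ≤ (Real.log (Real.log L)) ^ 2 := one_le_pow₀ h3
  calc L * (Real.log L) ^ 2 * Real.log (Real.log (Real.log L)) ≤
        L * (Real.log L) ^ 2 * Real.log L := by gcongr
    _ = L * (Real.log L) ^ 3 * 1 := by ring
    _ ≤ _ := by gcongr

/-- many primes, also for the shift zero -/
theorem many_val (D : ℕ) (hD : 1 ≤ D) : ∃ y₀ : ℝ, ∀ y : ℝ, y₀ ≤ y → ∀ T : ℕ, (T : ℝ) ≤ y ^ 2 →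
    ∀ c ∈ box D T,
    y ≤ (((Finset.Icc 1 ⌊y ^ (8 * D + 1)⌋₊).filter (fun p : ℕ => p.Prime ∧ y < (p : ℝ) ∧
      ∃ t : ℤ, (p : ℤ) ∣ val c t)).card : ℝ) := by
  obtain ⟨y₀, hy₀⟩ := many_roots D hD
  refine ⟨max y₀ 1, fun y hy T hT c hc => ?_⟩
  have hy1 : (1 : ℝ) ≤ y := (le_max_right _ _).trans hy
  have hyy : y₀ ≤ y := (le_max_left _ _).trans hy
  obtain ⟨⟨a1, a2⟩, ⟨a3, a4⟩, a5, a6⟩ := mem_box.mp hc
  by_cases hk : c.2.2 = 0
  · have h1 := hy₀ y hyy c.1 c.2.1 a1 a2 a3 a4 1 one_ne_zero (by simp)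
      (by
        simp only [Int.cast_one, abs_one]
        exact one_le_pow₀ hy1)
    refine h1.trans ?_
    have hsub : (Finset.Icc 1 ⌊y ^ (8 * D + 1)⌋₊).filter (fun p : ℕ => p.Prime ∧ y < (p : ℝ) ∧
        ∃ t : ℤ, (p : ℤ) ∣ (c.1 : ℤ) * t ^ c.2.1 + 1) ⊆
        (Finset.Icc 1 ⌊y ^ (8 * D + 1)⌋₊).filter (fun p : ℕ => p.Prime ∧ y < (p : ℝ) ∧
        ∃ t : ℤ, (p : ℤ) ∣ val c t) := by
      intro p hp
      rw [mem_filter] at hp ⊢
      refine ⟨hp.1, hp.2.1, hp.2.2.1, 0, ?_⟩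
      unfold val
      rw [hk, zero_pow (by omega)]
      simp
    exact_mod_cast card_le_card hsub
  · exact hy₀ y hyy c.1 c.2.1 a1 a2 a3 a4 c.2.2 hk a6 (by
      have : |(c.2.2 : ℝ)| ≤ (T : ℝ) := by exact_mod_cast a5
      exact this.trans hT)

theorem SM_count {y : ℝ} {T : ℕ} (h : (((Finset.Icc 1 T).filter (fun m => ∀ p : ℕ, p.Prime →
      p ∣ m → Real.log p ≤ Real.log y * Real.log (Real.log (Real.log y)) /
        (10 * Real.log (Real.log y)))).card : ℝ) ≤ T / (Real.log y) ^ 3) :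
    (((Icc 1 T).filter (fun m => SM y m)).card : ℝ) ≤ T / (Real.log y) ^ 3 := by
  refine le_trans ?_ h
  have hsub : (Icc 1 T).filter (fun m => SM y m) ⊆ (Finset.Icc 1 T).filter (fun m => ∀ p : ℕ,
      p.Prime → p ∣ m → Real.log p ≤ Real.log y * Real.log (Real.log (Real.log y)) /
        (10 * Real.log (Real.log y))) := by
    intro m hm
    rw [mem_filter] at hm ⊢
    refine ⟨hm.1, fun p hp hpm => ?_⟩
    have h1 := hm.2 p hp hpm
    unfold zR at h1
    rwa [← Real.log_le_iff_le_exp (by exact_mod_cast hp.pos)] at h1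
  exact_mod_cast card_le_card hsub

end Pool.Agent.W154.PV
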