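import Mathlib

set_option autoImplicit false

/-! # Elementary inequalities for the final assembly -/

namespace Pool.Agent.W154.PV

theorem exp_half {L s : ℝ} (hL : 1000 ≤ L) (hs : s ≤ L / 2) : Real.exp s ≤ Real.exp L / 2 := by
  have e1 : Real.exp s ≤ Real.exp (L / 2) := Real.exp_le_exp.mpr hs
  have e2 : Real.exp L = Real.exp (L / 2) * Real.exp (L / 2) := by
    rw [← Real.exp_add]; congr 1; ring
  have e3 : (2 : ℝ) ≤ Real.exp (L / 2) := by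
    have := Real.add_one_le_exp (L / 2)
    linarith
  have e4 : 0 < Real.exp (L / 2) := Real.exp_pos _
  rw [e2]
  nlinarith

theorem K_ge {D : ℝ} (hD1 : 1 ≤ D) :
    2 * (8 * D + 1) ≤ 400 * D ^ 2 * (D + 2) * (8 * D + 1) := by
  have f1 : (1 : ℝ) ≤ D ^ 2 := one_le_pow₀ hD1
  have f2 : (1 : ℝ) ≤ D ^ 2 * (D + 2) := by nlinarith
  have f3 : 0 ≤ 8 * D + 1 := by positivity
  calc 2 * (8 * D + 1) ≤ 400 * 1 * (8 * D + 1) := by linarith
    _ ≤ 400 * (D ^ 2 * (D + 2)) * (8 * D + 1) := by gcongr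
    _ = 400 * D ^ 2 * (D + 2) * (8 * D + 1) := by ring

theorem T_small {L T : ℝ} (hL : 1000 ≤ L) (hT : T ≤ L * L / 200) : T ≤ Real.exp L / 4 := by
  have h1 := Real.quadratic_le_exp_of_nonneg (show 0 ≤ L by linarith)
  have h2 : L ^ 2 = L * L := by ring
  rw [h2] at h1
  have h3 := mul_self_nonneg L
  linarith

theorem y_small {L : ℝ} (hL : 1000 ≤ L) : L / 10 ≤ Real.exp L / 2 := by
  have h1 := Real.add_one_le_exp L
  linarith

theorem P9_small {D L ly ll w : ℝ} (hD1 : 1 ≤ D) (hw : 1 ≤ w) (hly : 0 ≤ ly) (hll : ly ≤ ll)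
    (h : 400 * D ^ 2 * (D + 2) * (8 * D + 1) * ll * w ≤ L) : (8 * D + 1) * ly ≤ L / 2 := by
  have h0 := K_ge hD1
  set K := 400 * D ^ 2 * (D + 2) * (8 * D + 1) with hK
  have hK0 : 0 ≤ K := by
    have : 0 ≤ 2 * (8 * D + 1) := by positivity
    linarith
  have e1 : K * ll * 1 ≤ K * ll * w := by
    apply mul_le_mul_of_nonneg_left hw
    have : 0 ≤ ll := by linarith
    positivity
  have e4 : 2 * (8 * D + 1) * ly ≤ K * ll := mul_le_mul h0 hll hly hK0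
  linarith

theorem cost_le {D L T l1 l2 l3 ll w B c C₃ : ℝ} (hD1 : 1 ≤ D)
    (p1 : 0 < l1) (p3 : 0 < l3) (h32 : l3 ≤ l2) (hll : l1 ≤ ll) (hL0 : 0 < L) (hw : 1 ≤ w)
    (hs : Real.sqrt T ≤ w) (hc : 0 < c) (hC₃ : 0 < C₃)
    (hB : B ≤ 2 * D ^ 2 * (1 + D * Real.sqrt T + T / l1 ^ 3 + w))
    (h1 : 400 * D ^ 2 * (D + 2) * (8 * D + 1) * ll * w ≤ L)
    (h2 : C₃ * T * l2 ^ 2 / (l1 ^ 2 * l3) ≤ c * L)
    (h3 : 400 * D ^ 2 * (8 * D + 1) * c / C₃ ≤ l2) :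
    B * ((8 * D + 1) * l1) ≤ L / 100 := by
  have hD0 : 0 < D := by linarith
  have p2 : 0 < l2 := by linarith
  have g0 : 0 ≤ (8 * D + 1) * l1 := by positivity
  have g1 : B * ((8 * D + 1) * l1) ≤
      (2 * D ^ 2 * (1 + D * Real.sqrt T + T / l1 ^ 3 + w)) * ((8 * D + 1) * l1) :=
    mul_le_mul_of_nonneg_right hB g0
  have g4 : (2 * D ^ 2 * (1 + D * Real.sqrt T + T / l1 ^ 3 + w)) * ((8 * D + 1) * l1) ≤
      (2 * D ^ 2 * ((D + 2) * w)) * ((8 * D + 1) * ll) +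
      2 * D ^ 2 * (8 * D + 1) * (T / l1 ^ 2) := by
    have e1 : (2 * D ^ 2 * (1 + D * Real.sqrt T + T / l1 ^ 3 + w)) * ((8 * D + 1) * l1) =
        (2 * D ^ 2 * (1 + D * Real.sqrt T + w)) * ((8 * D + 1) * l1) +
        2 * D ^ 2 * (8 * D + 1) * (T / l1 ^ 2) := by
      field_simp
      ring
    rw [e1]
    have e2 : 1 + D * Real.sqrt T + w ≤ (D + 2) * w := by
      have := mul_le_mul_of_nonneg_left hs hD0.le
      linarith
    have e0 : 0 ≤ Real.sqrt T := Real.sqrt_nonneg T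
    have e3 : (2 * D ^ 2 * (1 + D * Real.sqrt T + w)) * ((8 * D + 1) * l1) ≤
        (2 * D ^ 2 * ((D + 2) * w)) * ((8 * D + 1) * ll) := by
      gcongr
    linarith
  have g5 : (2 * D ^ 2 * ((D + 2) * w)) * ((8 * D + 1) * ll) ≤ L / 200 := by
    have : (2 * D ^ 2 * ((D + 2) * w)) * ((8 * D + 1) * ll) =
        (400 * D ^ 2 * (D + 2) * (8 * D + 1) * ll * w) / 200 := by ring
    rw [this]
    linarith
  have g6 : 2 * D ^ 2 * (8 * D + 1) * (T / l1 ^ 2) ≤ L / 200 := by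
    have e1 : C₃ * (T / l1 ^ 2) ≤ c * L / l2 := by
      have e2 : C₃ * (T / l1 ^ 2) = (C₃ * T * l2 ^ 2 / (l1 ^ 2 * l3)) * (l3 / l2 ^ 2) := by
        field_simp
      rw [e2]
      have e3 : l3 / l2 ^ 2 ≤ 1 / l2 := by
        rw [div_le_div_iff₀ (by positivity) p2]
        nlinarith
      calc (C₃ * T * l2 ^ 2 / (l1 ^ 2 * l3)) * (l3 / l2 ^ 2) ≤ (c * L) * (1 / l2) := by
            apply mul_le_mul h2 e3 (by positivity) (by positivity)
        _ = c * L / l2 := by ring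
    have e4 : T / l1 ^ 2 ≤ (c * L / l2) / C₃ := by
      rw [le_div_iff₀ hC₃]
      linarith
    calc 2 * D ^ 2 * (8 * D + 1) * (T / l1 ^ 2) ≤
          2 * D ^ 2 * (8 * D + 1) * ((c * L / l2) / C₃) := by gcongr
      _ = ((400 * D ^ 2 * (8 * D + 1) * c / C₃) / l2) * (L / 200) := by
          field_simp
          ring
      _ ≤ 1 * (L / 200) := by
          apply mul_le_mul_of_nonneg_right _ (by positivity)
          rw [div_le_one p2]
          exact h3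
      _ = L / 200 := one_mul _
  linarith

theorem sqrt_le_w {T L : ℝ} (hT0 : 0 ≤ T) (hL1 : 1 ≤ L) (hTL : T ≤ L ^ (11 / 10 : ℝ)) :
    Real.sqrt T ≤ L ^ (19 / 20 : ℝ) := by
  have hL0 : 0 < L := by linarith
  rw [Real.sqrt_eq_rpow]
  calc T ^ (1 / 2 : ℝ) ≤ (L ^ (11 / 10 : ℝ)) ^ (1 / 2 : ℝ) :=
        Real.rpow_le_rpow hT0 hTL (by norm_num)
    _ = L ^ (11 / 20 : ℝ) := by rw [← Real.rpow_mul hL0.le]; norm_num
    _ ≤ L ^ (19 / 20 : ℝ) := Real.rpow_le_rpow_of_exponent_le hL1 (by norm_num)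

theorem bad_le {B D l1 L : ℝ} (hB : 0 ≤ B) (hD : 1 ≤ D) (hl : 1 ≤ l1)
    (h : B * ((8 * D + 1) * l1) ≤ L / 100) : B ≤ L / 100 := by
  refine le_trans ?_ h
  apply le_mul_of_one_le_right hB
  have h1 : 1 ≤ 8 * D + 1 := by linarith
  exact one_le_mul_of_one_le_of_one_le h1 hl

end Pool.Agent.W154.PV
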