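import Pool.Agent.W154.PV.FinB
import Pool.Agent.W154.PV.FinC

set_option autoImplicit false

/-! # Record gaps around the numbers `a n ^ d`: the assembly -/

namespace Pool.Agent.W154.PV

open Finset Filter Pool.Agent.H256R2.SC Pool.Agent.H426R3.SQ

open scoped Classical

theorem pow_main (D : ℕ) (hD : 1 ≤ D) : ∃ c : ℝ, 0 < c ∧ ∃ Y₀ : ℝ, ∀ Y : ℝ, Y₀ ≤ Y →
    ∀ M : ℕ, Y ≤ (M : ℝ) → ∃ m : ℕ, M < m ∧ (m : ℝ) ≤ M + Y ∧
      ∀ a d : ℕ, 1 ≤ a → a ≤ D → 1 ≤ d → d ≤ D →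
        ∀ q : ℕ, q.Prime → c * Pool.Agent.H256R2.SC.ff Y < |(q : ℝ) - (a : ℝ) * (m : ℝ) ^ d| := by
  have hD1 : (1 : ℝ) ≤ D := by exact_mod_cast hD
  have hD0 : (0 : ℝ) < D := by linarith
  set C₁ : ℕ := 3 * D + 6 with hC₁
  obtain ⟨Cf, hCf, L₁, hfew⟩ := few_badD D C₁ (by omega)
  obtain ⟨c₂, hc₂, y₁, hy₁, hRL⟩ := rough_lowerD (D : ℝ) (Cf + 1) hD1
  have hC₁0 : (0 : ℝ) < C₁ := by rw [hC₁]; push_cast; positivity
  obtain ⟨c, hc, X₁, hcov⟩ := covering_hitD (D : ℝ) (min c₂ 1 / C₁) hD1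
    (div_pos (lt_min hc₂ one_pos) hC₁0)
  obtain ⟨y₂, hmany⟩ := many_val D hD
  obtain ⟨Cs, hCs, y₃, hsur⟩ := survivors_e
  obtain ⟨y₄, hsm⟩ := Pool.Agent.H398R2.RK.smooth_count
  set Pe : ℝ := ∑ a ∈ Icc 1 D, ∏ p ∈ a.primeFactors, (1 + 3 / (p : ℝ)) with hPe
  have hPea : ∀ a : ℕ, 0 < ∏ p ∈ a.primeFactors, (1 + 3 / (p : ℝ)) := fun a =>
    Finset.prod_pos fun p _ => by positivity
  have hPe0 : 0 < Pe := Finset.sum_pos (fun a _ => hPea a) ⟨1, mem_Icc.mpr ⟨le_rfl, hD⟩⟩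
  have hPele : ∀ a : ℕ, 1 ≤ a → a ≤ D → ∏ p ∈ a.primeFactors, (1 + 3 / (p : ℝ)) ≤ Pe := by
    intro a h1 h2
    exact Finset.single_le_sum (f := fun a : ℕ => ∏ p ∈ a.primeFactors, (1 + 3 / (p : ℝ)))
      (fun a _ => (hPea a).le) (mem_Icc.mpr ⟨h1, h2⟩)
  -- constants
  set C₃ : ℝ := 2 * (D : ℝ) ^ 2 * Cs * Pe with hC₃
  have hC₃0 : 0 < C₃ := by positivity
  set K₂ : ℝ := 400 * (D : ℝ) ^ 2 * (8 * D + 1) * c / C₃ with hK₂
  set K : ℝ := 400 * (D : ℝ) ^ 2 * (D + 2) * (8 * D + 1) with hK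
  obtain ⟨c', hc', X₂, hana⟩ := LG.ana
    (y₀ := max (max y₂ y₃) (max y₄ (Real.exp (Real.exp (max K₂ 3))))) hc hC₃0
  obtain ⟨L₂, hL₂⟩ := ev_L c' (max (max L₁ y₁) (max (D : ℝ) (10 * (D : ℝ))))
  obtain ⟨L₃, hL₃⟩ := ev_big c' K
  refine ⟨c' / 2, by positivity, max (max X₁ X₂) (max (Real.exp L₂) (Real.exp L₃)),
    fun Y hY M hM => ?_⟩
  have hYX1 : X₁ ≤ Y := (le_max_left _ _).trans ((le_max_left _ _).trans hY)
  have hYX2 : X₂ ≤ Y := (le_max_right _ _).trans ((le_max_left _ _).trans hY)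
  have hYL2 : Real.exp L₂ ≤ Y := (le_max_left _ _).trans ((le_max_right _ _).trans hY)
  have hYL3 : Real.exp L₃ ≤ Y := (le_max_right _ _).trans ((le_max_right _ _).trans hY)
  obtain ⟨a1, a2, a3, a4, a5, a6, a7, a8, a9, a10, -, -, -, -, -, -, a17⟩ :=
    hana Y hYX2 _ _ rfl rfl _ rfl
  have hY0 : 0 < Y := by linarith
  set L : ℝ := Real.log Y with hL
  have hLL2 : L₂ ≤ L := by
    rw [hL, Real.le_log_iff_exp_le hY0]
    exact hYL2
  have hLL3 : L₃ ≤ L := by
    rw [hL, Real.le_log_iff_exp_le hY0]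
    exact hYL3
  obtain ⟨b1, b2, b3, b4, b5, b6, b7⟩ := hL₂ L hLL2
  obtain ⟨-, d2, d3⟩ := hL₃ L hLL3
  have hLL1 : L₁ ≤ L := (le_max_left _ _).trans ((le_max_left _ _).trans b5)
  have hLy1 : y₁ ≤ L := (le_max_right _ _).trans ((le_max_left _ _).trans b5)
  have hLD : (D : ℝ) ≤ L := (le_max_left _ _).trans ((le_max_right _ _).trans b5)
  have hLD10 : 10 * (D : ℝ) ≤ L := (le_max_right _ _).trans ((le_max_right _ _).trans b5)
  set y : ℝ := L / 10 with hy
  have hyy2 : y₂ ≤ y := (le_max_left _ _).trans ((le_max_left _ _).trans a3)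
  have hyy3 : y₃ ≤ y := (le_max_right _ _).trans ((le_max_left _ _).trans a3)
  have hyy4 : y₄ ≤ y := (le_max_left _ _).trans ((le_max_right _ _).trans a3)
  have hyee : Real.exp (Real.exp (max K₂ 3)) ≤ y :=
    (le_max_right _ _).trans ((le_max_right _ _).trans a3)
  set F : ℝ := c' * Pool.Agent.H256R2.SC.ff Y with hF
  set T : ℕ := ⌊F⌋₊ with hT
  have hL0 : 0 < L := by linarith
  have hL1 : 1 ≤ L := by linarith
  have hYexp : Y = Real.exp L := (Real.exp_log hY0).symm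
  have hlL0 : 0 < Real.log L := by linarith
  -- logarithms of y
  have hly0 : Real.log y = Real.log L - Real.log 10 := by
    rw [hy, Real.log_div hL0.ne' (by norm_num)]
  have hl10 := LG.log10_lt
  have hly : 97 ≤ Real.log y := by rw [hly0]; linarith
  have hly' : Real.log y ≤ Real.log L := by
    rw [hly0]
    have : 0 < Real.log 10 := Real.log_pos (by norm_num)
    linarith
  have hy0 : 0 < y := by positivity
  have hy1 : 1 ≤ y := by rw [hy]; linarith
  have hly2 : max K₂ 3 ≤ Real.log (Real.log y) := by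
    rw [Real.le_log_iff_exp_le (by linarith), Real.le_log_iff_exp_le hy0]
    exact hyee
  have hlly3 : 3 ≤ Real.log (Real.log y) := (le_max_right _ _).trans hly2
  have hllyK : K₂ ≤ Real.log (Real.log y) := (le_max_left _ _).trans hly2
  have hzy : zR y ≤ y := zR_le hy0 (by linarith) (by linarith)
  have hl3 : 1 ≤ Real.log (Real.log (Real.log y)) := by
    rw [Real.le_log_iff_exp_le (by linarith)]
    have := Real.exp_one_lt_d9
    linarith
  have hl32 : Real.log (Real.log (Real.log y)) ≤ Real.log (Real.log y) := by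
    have := Real.log_le_sub_one_of_pos (show 0 < Real.log (Real.log y) by linarith)
    linarith
  -- T is small
  have hFle : F ≤ c' * (L * (Real.log L) ^ 3) := by
    rw [hF]
    exact mul_le_mul_of_nonneg_left (ff_le b7 hL0) hc'.le
  have hTL : (T : ℝ) ≤ L ^ (11 / 10 : ℝ) := by
    refine a6.trans (hFle.trans ?_)
    have h2 : L ^ (11 / 10 : ℝ) = L * L ^ (1 / 10 : ℝ) := by
      rw [← Real.rpow_one_add' hL0.le (by norm_num)]
      norm_num
    rw [h2]
    calc c' * (L * (Real.log L) ^ 3) = L * (c' * (Real.log L) ^ 3) := by ring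
      _ ≤ L * L ^ (1 / 10 : ℝ) := by gcongr
  have hTyM : (T : ℝ) / y ≤ L ^ (1 / 50 : ℝ) := by
    rw [div_le_iff₀ hy0]
    refine a6.trans (hFle.trans ?_)
    have : c' * (L * (Real.log L) ^ 3) = (10 * c' * (Real.log L) ^ 3) * y := by
      rw [hy]; ring
    rw [this]
    gcongr
  have hTL2 : (T : ℝ) ≤ L * L / 200 := by
    have h1 : L ^ (11 / 10 : ℝ) ≤ L * L ^ (9 / 10 : ℝ) := by
      rw [← Real.rpow_one_add' hL0.le (by norm_num)]
      exact Real.rpow_le_rpow_of_exponent_le (by linarith) (by norm_num)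
    have h2 : L * L ^ (9 / 10 : ℝ) ≤ L * (L / 200) := by
      apply mul_le_mul_of_nonneg_left _ hL0.le
      linarith
    linarith
  have hTy2 : (T : ℝ) ≤ y ^ 2 := by
    have e2 : y ^ 2 = L * L / 100 := by rw [hy]; ring
    rw [e2]
    have e3 : 0 < L * L := mul_pos hL0 hL0
    linarith
  have hT100 : (100 : ℝ) ≤ T := by
    refine le_trans ?_ a5
    rw [hy]; linarith
  have hT2 : 2 ≤ T := by
    have : (2 : ℝ) ≤ T := by linarith
    exact_mod_cast this
  -- the threshold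
  set Y₁ : ℝ := L ^ C₁ with hY₁
  have hY₁0 : 0 < Y₁ := by positivity
  have hL3Y : L ^ 3 ≤ Y₁ := pow_le_pow_right₀ hL1 (by omega)
  have hLY₁ : L ≤ Y₁ := le_self_pow₀ hL1 (by omega)
  have hlogY₁ : Real.log Y₁ = C₁ * Real.log L := by rw [hY₁, Real.log_pow]
  have hTY₁ : ((2 * (D * T) ^ D : ℕ) : ℝ) ≤ Y₁ := by
    push_cast
    have e1 : (D : ℝ) * T ≤ L ^ 3 := by
      calc (D : ℝ) * T ≤ L * (L * L / 200) := by gcongr
        _ ≤ L * (L * L) := by
            have : 0 < L * L := mul_pos hL0 hL0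
            gcongr
            linarith
        _ = L ^ 3 := by ring
    calc 2 * ((D : ℝ) * T) ^ D ≤ L * (L ^ 3) ^ D := by
          have : (2 : ℝ) ≤ L := by linarith
          gcongr
      _ = L ^ (3 * D + 1) := by rw [← pow_mul]; ring
      _ ≤ Y₁ := pow_le_pow_right₀ hL1 (by omega)
  -- the exceptional sets
  set yn : ℕ := ⌊y⌋₊ with hyn
  set M₀ : ℕ := ⌊L ^ (1 / 50 : ℝ)⌋₊ with hM₀
  have hrp50 : 0 ≤ L ^ (1 / 50 : ℝ) := Real.rpow_nonneg hL0.le _
  have hM₀L : (M₀ : ℝ) ≤ L ^ (1 / 50 : ℝ) := Nat.floor_le hrp50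
  have hM₀yn : M₀ ≤ yn := by
    apply Nat.floor_le_floor
    have h1 : L ^ (1 / 50 : ℝ) ≤ L ^ (1 / 20 : ℝ) :=
      Real.rpow_le_rpow_of_exponent_le hL1 (by norm_num)
    rw [hy]
    linarith
  have hex : ∀ a d : ℕ, ∀ σ : ℤ, ∃ 𝓑 : Finset ℕ, (1 ≤ a ∧ a ≤ D ∧ 1 ≤ d ∧ d ≤ D ∧
      (σ = 1 ∨ σ = -1)) → ((𝓑.card : ℝ) ≤ L ^ (19 / 20 : ℝ) ∧
        ∀ u ∈ UU T yn M₀, u ∉ 𝓑 → ∀ w : ℝ, L ^ C₁ ≤ w → w ≤ Real.exp (L ^ (1 / 20 : ℝ)) →
          Real.log (Real.log w) - Real.log (Real.log (L ^ C₁)) - Cf ≤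
            ∑ p ∈ SP (L ^ C₁) w ∅, (rt a d (σ * u) p : ℝ) / (p : ℝ)) := by
    intro a d σ
    by_cases h : 1 ≤ a ∧ a ≤ D ∧ 1 ≤ d ∧ d ≤ D ∧ (σ = 1 ∨ σ = -1)
    · obtain ⟨h1, h2, h3, h4, h5⟩ := h
      obtain ⟨𝓑, e1, _, e3⟩ := hfew L hLL1 T yn M₀ hT2 hTL hM₀yn hM₀L a d h1 h2 h3 h4 σ h5
      exact ⟨𝓑, fun _ => ⟨e1, e3⟩⟩
    · exact ⟨∅, fun h' => absurd h' h⟩
  choose 𝓑 h𝓑 using hex
  set Bad : Finset Cl := BadC D y T 𝓑 with hBad
  -- its size
  have hSM := SM_count (hsm y hyy4 T a5)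
  have hBc := BadC_card D hD y T 𝓑 (L ^ (19 / 20 : ℝ)) (T / (Real.log y) ^ 3) hSM
    (fun a d h1 h2 h3 h4 σ h5 => (h𝓑 a d σ ⟨h1, h2, h3, h4, h5⟩).1)
  rw [← hBad] at hBc
  have hrp : 0 < L ^ (19 / 20 : ℝ) := Real.rpow_pos_of_pos hL0 _
  have hcost : (Bad.card : ℝ) * ((8 * D + 1) * Real.log y) ≤ L / 100 :=
    cost_le hD1 (by linarith only [hly]) (by linarith only [hl3]) hl32 hly' hL0
      (Real.one_le_rpow hL1 (by norm_num)) (sqrt_le_w (Nat.cast_nonneg T) hL1 hTL) hc hC₃0 hBc d3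
      a8 hllyK
  have hBadL : (Bad.card : ℝ) ≤ L / 100 :=
    bad_le (Nat.cast_nonneg _) hD1 (by linarith only [hly]) hcost
  -- the exceptional primes
  set P9 : ℝ := y ^ (8 * D + 1) with hP9
  obtain ⟨pu, hpu, hinj⟩ := exists_inj_choice Bad
    (fun u => (Finset.Icc 1 ⌊y ^ (8 * D + 1)⌋₊).filter (fun p : ℕ => p.Prime ∧ y < (p : ℝ) ∧
      ∃ t : ℤ, (p : ℤ) ∣ val u t)) (by
      intro u hu
      have hub : u ∈ box D T := by
        rw [hBad] at hu
        unfold BadC at hu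
        exact (mem_filter.mp hu).1
      have h2 := hmany y hyy2 T hTy2 u hub
      have h3 : (Bad.card : ℝ) ≤ y := by
        rw [hy]
        linarith
      exact_mod_cast h3.trans h2)
  have hpu' : ∀ u ∈ Bad, (pu u).Prime ∧ y < (pu u : ℝ) ∧ (pu u : ℝ) ≤ P9 ∧
      ∃ t : ℤ, (pu u : ℤ) ∣ val u t := by
    intro u hu
    have h1 := hpu u hu
    rw [mem_filter, mem_Icc] at h1
    refine ⟨h1.2.1, h1.2.2.1, ?_, h1.2.2.2⟩
    calc (pu u : ℝ) ≤ (⌊y ^ (8 * D + 1)⌋₊ : ℝ) := by exact_mod_cast h1.1.2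
      _ ≤ P9 := Nat.floor_le (by positivity)
  have hP9exp : P9 = Real.exp ((8 * D + 1) * Real.log y) := by
    have : ((8 * (D : ℝ) + 1)) = ((8 * D + 1 : ℕ) : ℝ) := by push_cast; ring
    rw [this, Real.exp_nat_mul, Real.exp_log hy0]
  -- small compared with Y
  have hP9Y : P9 ≤ Y / 2 := by
    rw [hP9exp, hYexp]
    exact exp_half b6 (P9_small hD1 (Real.one_le_rpow hL1 (by norm_num)) (by linarith only [hly])
      hly' d3)
  have hTY4 : (T : ℝ) ≤ Y / 4 := by
    rw [hYexp]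
    exact T_small b6 hTL2
  have hrp20 : 0 ≤ L ^ (1 / 20 : ℝ) := Real.rpow_nonneg hL0.le _
  have hyY : y ≤ Y / 2 := by
    rw [hYexp]
    exact y_small b6
  -- hypotheses of the core
  have hk0Bad : ∀ c ∈ box D T, c.2.2 = 0 → c ∈ Bad := by
    intro c hc h0
    rw [hBad]
    unfold BadC
    exact mem_filter.mpr ⟨hc, Or.inl h0⟩
  obtain ⟨m, hm1, hm2, hm3⟩ := pow_arith (D := D) (c₂ := min c₂ 1 / C₁) (c := c) (Y := Y)
    (Y₁ := Y₁) (fun B κ _ _ _ => hcov Y hYX1 B κ) a1 (y := y) hy0.le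
    (by
      rw [hy]
      linarith only [hLD10]) hzy
    (by
      rw [← hL]
      have : y ≤ L := by rw [hy]; linarith
      exact this.trans (le_self_pow₀ hL1 (by norm_num))) hLD hL3Y (T := T) (by omega) hTY₁
    Bad pu P9 (Y / 2) (one_le_pow₀ hy1) hpu' hinj
    (by
      intro c hc hpp
      rw [hBad]
      unfold BadC
      exact mem_filter.mpr ⟨hc, Or.inr (Or.inl hpp)⟩)
    (by
      intro u hu z x hx hxz hz
      rw [← hL] at hx hz ⊢
      unfold GP at hu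
      rw [mem_filter] at hu
      obtain ⟨hub, hunb, hu1, hu2⟩ := hu
      obtain ⟨⟨q1, q2⟩, ⟨q3, q4⟩, q5, q6⟩ := mem_box.mp hub
      have hunb' : ¬ (u.2.2 = 0 ∨ IsPP D u.2.2.natAbs ∨ SM y u.2.2.natAbs ∨
          u.2.2.natAbs ∈ 𝓑 u.1 u.2.1 (sg u.2.2)) := by
        intro h
        apply hunb
        rw [hBad]
        unfold BadC
        exact mem_filter.mpr ⟨hub, h⟩
      push Not at hunb'
      obtain ⟨r1, r2, r3, r4⟩ := hunb'
      have hkT : u.2.2.natAbs ≤ T := by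
        have : (u.2.2.natAbs : ℤ) ≤ T := by rw [Int.natCast_natAbs]; exact q5
        exact_mod_cast this
      have hk1 : 1 ≤ u.2.2.natAbs := Int.natAbs_pos.mpr r1
      have hUU : u.2.2.natAbs ∈ UU T yn M₀ := by
        unfold SM at r3
        push Not at r3
        obtain ⟨p, hp, hpk, hpz⟩ := r3
        have hpy : y < (p : ℝ) := by
          by_contra hcon
          push Not at hcon
          exact hu1 p hp hpz hcon (Int.natCast_dvd.mpr hpk)
        unfold UU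
        rw [mem_filter, mem_Icc]
        refine ⟨⟨hk1, hkT⟩, p, hp, ?_, hpk, ?_⟩
        · rw [hyn]
          exact (Nat.floor_lt hy0.le).mpr hpy
        · rw [hM₀]
          apply Nat.le_floor
          calc ((u.2.2.natAbs / p : ℕ) : ℝ) ≤ (u.2.2.natAbs : ℝ) / p := Nat.cast_div_le
            _ ≤ (T : ℝ) / y := by
                have : (u.2.2.natAbs : ℝ) ≤ T := by exact_mod_cast hkT
                gcongr
            _ ≤ _ := hTyM
      have hgood := (h𝓑 u.1 u.2.1 (sg u.2.2) ⟨q1, q2, q3, q4, sg_cases _⟩).2 _ hUU r4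
      rw [sg_mul] at hgood
      have hcardB : ((Bad.image pu).card : ℝ) ≤ (Bad.card : ℝ) := by
        exact_mod_cast card_image_le
      have hDB : (D : ℝ) * ((Bad.image pu).card : ℝ) ≤ Y₁ := by
        calc (D : ℝ) * ((Bad.image pu).card : ℝ) ≤ L * L := by
              apply mul_le_mul hLD (by linarith) (Nat.cast_nonneg _) hL0.le
          _ = L ^ 2 := by ring
          _ ≤ Y₁ := pow_le_pow_right₀ hL1 (by omega)
      refine rough_shift hub (hLD.trans hLY₁) hL3Y hlL0 hlogY₁ (by omega) hc₂ ?_ hY₁0 _ ?_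
      · by_cases h : Y₁ ≤ x
        · exact Or.inl h
        · right
          push Not at h
          rw [← hlogY₁]
          exact Real.log_le_log (lt_of_lt_of_le (by positivity) hx) h.le
      · intro hxY
        exact hRL Y₁ z (Bad.image pu) (fun p => gc Y₁ p u) (hLy1.trans hLY₁)
          (fun p => gc_bound (hLD.trans hLY₁) p u hub) (by
            intro w hw1 hw2
            have h2 := hgood w hw1 (hw2.trans hz)
            have h3 := sum_removeD hub (w := w) hY₁0 (hLD.trans hLY₁) (Bad.image pu) hDB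
            linarith) x hxY hxz)
    (by
      rw [← hL]
      refine (GP_card D y T Bad hk0Bad).trans ?_
      have h1 : ∀ x ∈ (Icc 1 D) ×ˢ (Icc 1 D), (((SV y T (x.1 : ℤ)).card : ℝ) +
          ((SV y T (-(x.1 : ℤ))).card : ℝ)) ≤ 2 * (Cs * T * (Real.log (Real.log y)) ^ 2 /
          ((Real.log y) ^ 2 * Real.log (Real.log (Real.log y))) * Pe) := by
        intro x hx
        rw [mem_product, mem_Icc, mem_Icc] at hx
        have hx0 : ((x.1 : ℕ) : ℤ) ≠ 0 := by
          have : x.1 ≠ 0 := by omega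
          exact_mod_cast this
        have e1 := hsur y hyy3 T a5 a7 (x.1 : ℤ) hx0
        have e2 := hsur y hyy3 T a5 a7 (-(x.1 : ℤ)) (neg_ne_zero.mpr hx0)
        rw [Int.natAbs_neg] at e2
        rw [Int.natAbs_natCast] at e1 e2
        have e3 := hPele x.1 hx.1.1 hx.1.2
        have e4 : 0 ≤ Cs * T * (Real.log (Real.log y)) ^ 2 /
          ((Real.log y) ^ 2 * Real.log (Real.log (Real.log y))) := by
          have : 0 < Real.log (Real.log (Real.log y)) := by linarith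
          positivity
        have e5 := mul_le_mul_of_nonneg_left e3 e4
        have e1' : ((SV y T (x.1 : ℤ)).card : ℝ) ≤ Cs * T * (Real.log (Real.log y)) ^ 2 /
          ((Real.log y) ^ 2 * Real.log (Real.log (Real.log y))) *
            ∏ p ∈ x.1.primeFactors, (1 + 3 / (p : ℝ)) := e1
        have e2' : ((SV y T (-(x.1 : ℤ))).card : ℝ) ≤ Cs * T * (Real.log (Real.log y)) ^ 2 /
          ((Real.log y) ^ 2 * Real.log (Real.log (Real.log y))) *
            ∏ p ∈ x.1.primeFactors, (1 + 3 / (p : ℝ)) := e2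
        linarith
      refine (sum_le_sum h1).trans ?_
      rw [sum_const, nsmul_eq_mul, card_product, Nat.card_Icc]
      refine le_trans (le_of_eq ?_) a8
      simp only [add_tsub_cancel_right]
      push_cast
      rw [hC₃]
      ring)
    (by
      have h1 := primorial_le_exp a4
      have h2 : P9 ^ Bad.card ≤ Real.exp (L / 100) := by
        rw [hP9exp, ← Real.exp_nat_mul]
        exact Real.exp_le_exp.mpr hcost
      have h3 : Y ^ (1 / 2 : ℝ) = Real.exp (L / 2) := by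
        rw [Real.rpow_def_of_pos hY0]
        congr 1
        ring
      rw [h3]
      have h4 : (4 : ℝ) ≤ Real.exp 3 := by
        have := Real.add_one_le_exp (3 : ℝ)
        linarith
      calc 4 * ((primorial ⌊y⌋₊ : ℝ) * P9 ^ Bad.card) ≤
            Real.exp 3 * (Real.exp (2 * y) * Real.exp (L / 100)) := by
              apply mul_le_mul h4 _ (by positivity) (Real.exp_pos _).le
              exact mul_le_mul h1 h2 (by positivity) (Real.exp_pos _).le
        _ = Real.exp (3 + (2 * y + L / 100)) := by rw [Real.exp_add, Real.exp_add]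
        _ ≤ Real.exp (L / 2) := by
              apply Real.exp_le_exp.mpr
              rw [hy]
              linarith)
    hyY hP9Y
    (by
      rw [← hL, hYexp]
      apply exp_half b6
      linarith only [b4, hrp20])
    M (by
      have : (1 : ℝ) < Y := by
        have h1 := Real.add_one_le_exp L
        rw [← hYexp] at h1
        linarith only [h1, b6]
      linarith only [hM, hTY4, this])
  refine ⟨m, hm1, hm2, fun a d ha haD hd hdD q hq => ?_⟩
  by_contra hcon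
  push Not at hcon
  refine hm3 a d ha haD hd hdD q ?_ hq
  have h1 : |(q : ℝ) - (a : ℝ) * (m : ℝ) ^ d| =
      ((((q : ℤ) - ((a : ℤ) * (m : ℤ) ^ d)).natAbs : ℕ) : ℝ) := by
    rw [Nat.cast_natAbs]
    push_cast
    rfl
  have h0 : c' / 2 * Pool.Agent.H256R2.SC.ff Y = F / 2 := by rw [hF]; ring
  rw [h0, h1] at hcon
  have h2 : ((q : ℤ) - ((a : ℤ) * (m : ℤ) ^ d)).natAbs ≤ T := by
    rw [hT]
    apply Nat.le_floor
    linarith
  rw [Int.abs_eq_natAbs]
  exact_mod_cast h2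

end Pool.Agent.W154.PV
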