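import Pool.Agent.H426R3.SQ.N5

set_option autoImplicit false

/-! # Solutions of `a x ^ d + k ≡ 0` modulo odd prime powers along a progression -/

namespace Pool.Agent.W154.PV

open Finset

open scoped Classical

/-- the arguments -/
def xs (k : ℤ) (s : ℕ) : ℕ := 1 + k.natAbs * (2 * s + 1)

/-- the values -/
def FF (a d : ℕ) (k : ℤ) (s : ℕ) : ℕ := ((a : ℤ) * (xs k s : ℤ) ^ d + k).natAbs

section
variable {a d : ℕ} {k : ℤ}

theorem xs_ge (hk : k ≠ 0) (s : ℕ) : k.natAbs + s ≤ xs k s := by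
  unfold xs
  have h : 1 ≤ k.natAbs := Int.natAbs_pos.mpr hk
  nlinarith

theorem FF_eq (ha : 1 ≤ a) (hd : 1 ≤ d) (hk : k ≠ 0) (s : ℕ) :
    (FF a d k s : ℤ) = (a : ℤ) * (xs k s : ℤ) ^ d + k ∧ s ^ d ≤ FF a d k s := by
  have h1 := xs_ge hk s
  have h2 : (k.natAbs + s) ^ d ≤ (xs k s) ^ d := Nat.pow_le_pow_left h1 d
  have h3 : s ^ d + k.natAbs ≤ (k.natAbs + s) ^ d := by
    have h4 : k.natAbs ≤ k.natAbs ^ d := Nat.le_self_pow (by omega) _
    have h5 : k.natAbs ^ d + s ^ d ≤ (k.natAbs + s) ^ d := by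
      exact pow_add_pow_le (Nat.zero_le _) (Nat.zero_le _) (by omega)
    omega
  have h4 : (xs k s) ^ d ≤ a * (xs k s) ^ d := Nat.le_mul_of_pos_left _ (by omega)
  have h5 : ((s ^ d + k.natAbs : ℕ) : ℤ) ≤ (a : ℤ) * (xs k s : ℤ) ^ d := by
    have : s ^ d + k.natAbs ≤ a * (xs k s) ^ d := by omega
    exact_mod_cast this
  have h6 : -(k.natAbs : ℤ) ≤ k := by omega
  have h7 : ((s ^ d : ℕ) : ℤ) ≤ (a : ℤ) * (xs k s : ℤ) ^ d + k := by
    have h6' : -|k| ≤ k := neg_abs_le k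
    push_cast at h5 ⊢
    linarith
  have h8 : (0 : ℤ) ≤ (a : ℤ) * (xs k s : ℤ) ^ d + k := le_trans (by positivity) h7
  have h9 : (FF a d k s : ℤ) = (a : ℤ) * (xs k s : ℤ) ^ d + k := by
    unfold FF
    rw [Int.natAbs_of_nonneg h8]
  refine ⟨h9, ?_⟩
  rw [← h9] at h7
  exact_mod_cast h7

theorem FF_odd (hg : Int.gcd a k = 1) (hd : 1 ≤ d) (s : ℕ) : ¬ 2 ∣ FF a d k s := by
  unfold FF
  intro h
  have h1 : (2 : ℤ) ∣ (a : ℤ) * (xs k s : ℤ) ^ d + k := Int.natCast_dvd.mpr (by exact_mod_cast h)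
  have hx : (xs k s : ℤ) = 1 + k.natAbs * (2 * s + 1) := by unfold xs; push_cast; ring
  by_cases hk : (2 : ℤ) ∣ k
  · have h2 : (2 : ℤ) ∣ (a : ℤ) * (xs k s : ℤ) ^ d := (Int.dvd_add_left hk).mp h1
    rcases Int.prime_two.dvd_or_dvd h2 with h3 | h3
    · have h4 : (2 : ℤ) ∣ (Int.gcd a k : ℤ) := Int.dvd_coe_gcd h3 hk
      rw [hg] at h4
      norm_num at h4
    · have h4 := Int.prime_two.dvd_of_dvd_pow h3
      rw [hx] at h4
      have h5 : (2 : ℤ) ∣ (k.natAbs : ℤ) * (2 * s + 1) :=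
        Dvd.dvd.mul_right (Int.dvd_natAbs.mpr hk) _
      have h6 : (2 : ℤ) ∣ 1 := (Int.dvd_add_left h5).mp h4
      norm_num at h6
  · have h2 : (2 : ℤ) ∣ (xs k s : ℤ) := by
      rw [hx]
      have h3 : ¬ (2 : ℤ) ∣ (k.natAbs : ℤ) := fun h => hk (Int.dvd_natAbs.mp h)
      have h4 : ((k.natAbs : ℤ)) % 2 = 1 := by omega
      have h5 : ((k.natAbs : ℤ) * (2 * s + 1)) % 2 = 1 := by
        rw [Int.mul_emod, h4]
        omega
      omega
    have h3 : (2 : ℤ) ∣ (a : ℤ) * (xs k s : ℤ) ^ d :=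
      Dvd.dvd.mul_left (dvd_pow h2 (by omega)) _
    exact hk ((Int.dvd_add_right h3).mp h1)

theorem FF_cop_k (hg : Int.gcd a k = 1) {p : ℕ} (hp : p.Prime) (s : ℕ) (h : p ∣ FF a d k s) :
    ¬ (p : ℤ) ∣ k := by
  intro hk
  have h1 : (p : ℤ) ∣ (a : ℤ) * (xs k s : ℤ) ^ d + k := Int.natCast_dvd.mpr h
  have hx : (xs k s : ℤ) = 1 + k.natAbs * (2 * s + 1) := by unfold xs; push_cast; ring
  have h2 : (p : ℤ) ∣ (a : ℤ) * (xs k s : ℤ) ^ d := (Int.dvd_add_left hk).mp h1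
  have hpp := Nat.prime_iff_prime_int.mp hp
  rcases hpp.dvd_or_dvd h2 with h3 | h3
  · have h4 : (p : ℤ) ∣ (Int.gcd a k : ℤ) := Int.dvd_coe_gcd h3 hk
    rw [hg] at h4
    have h5 : p ∣ 1 := by exact_mod_cast h4
    exact hp.one_lt.ne' (Nat.dvd_one.mp h5)
  · have h4 := hpp.dvd_of_dvd_pow h3
    rw [hx] at h4
    have h5 : (p : ℤ) ∣ (k.natAbs : ℤ) * (2 * s + 1) :=
      Dvd.dvd.mul_right (Int.dvd_natAbs.mpr hk) _
    have h6 : (p : ℤ) ∣ 1 := (Int.dvd_add_left h5).mp h4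
    have h5 : p ∣ 1 := by exact_mod_cast h6
    exact hp.one_lt.ne' (Nat.dvd_one.mp h5)

theorem FF_cop_a (hg : Int.gcd a k = 1) {p : ℕ} (hp : p.Prime) (s : ℕ) (h : p ∣ FF a d k s) :
    ¬ p ∣ a := by
  intro ha
  apply FF_cop_k hg hp s h
  have h1 : (p : ℤ) ∣ (a : ℤ) * (xs k s : ℤ) ^ d + k := Int.natCast_dvd.mpr h
  have h2 : (p : ℤ) ∣ (a : ℤ) * (xs k s : ℤ) ^ d :=
    Dvd.dvd.mul_right (by exact_mod_cast ha) _
  exact (Int.dvd_add_right h2).mp h1

theorem FF_cop_x (hg : Int.gcd a k = 1) (hd : 1 ≤ d) {p : ℕ} (hp : p.Prime) (s : ℕ)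
    (h : p ∣ FF a d k s) : ¬ p ∣ xs k s := by
  intro hx
  apply FF_cop_k hg hp s h
  have h1 : (p : ℤ) ∣ (a : ℤ) * (xs k s : ℤ) ^ d + k := Int.natCast_dvd.mpr h
  have h2 : (p : ℤ) ∣ (a : ℤ) * (xs k s : ℤ) ^ d :=
    Dvd.dvd.mul_left (dvd_pow (by exact_mod_cast hx) (by omega)) _
  exact (Int.dvd_add_right h2).mp h1

/-- elements of `[1, V]` which are congruent modulo `q` -/
theorem card_congr_class (V q : ℕ) (T : Finset ℕ) (hT : T ⊆ Icc 1 V)
    (h : ∀ s ∈ T, ∀ t ∈ T, s % q = t % q) : T.card ≤ V / q + 1 := by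
  have h1 : T.card ≤ (Finset.range (V / q + 1)).card := by
    refine Finset.card_le_card_of_injOn (fun t => t / q) ?_ ?_
    · intro t ht
      have h2 := Finset.mem_Icc.1 (hT ht)
      simp only [Finset.coe_range, Set.mem_Iio]
      exact Nat.lt_succ_of_le (Nat.div_le_div_right h2.2)
    · intro t ht t' ht' heq
      simp only at heq
      have h2 := Nat.div_add_mod t q
      have h3 := Nat.div_add_mod t' q
      rw [h t ht t' ht', heq] at h2
      omega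
  simpa using h1

theorem card_sol {p e : ℕ} (hp : p.Prime) (he : 1 ≤ e) (ha : 1 ≤ a) (hd : 1 ≤ d) (hk : k ≠ 0)
    (hg : Int.gcd a k = 1) (V : ℕ) :
    (((Icc 1 V).filter (fun s => p ^ e ∣ FF a d k s)).card : ℝ) ≤
      d * (V / (p : ℝ) ^ e + 1) := by
  rcases ((Icc 1 V).filter (fun s => p ^ e ∣ FF a d k s)).eq_empty_or_nonempty with h0 | ⟨s0, hs0⟩
  · rw [h0]
    simp only [Finset.card_empty, Nat.cast_zero]
    positivity
  have hs02 := (Finset.mem_filter.1 hs0).2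
  have hpe : p ∣ p ^ e := dvd_pow_self p (by omega)
  have hp2 : p ≠ 2 := by
    rintro rfl
    exact FF_odd hg hd s0 (hpe.trans hs02)
  have hq0 : NeZero (p ^ e) := ⟨(pow_pos hp.pos e).ne'⟩
  have hcyc : IsCyclic (ZMod (p ^ e))ˣ := ZMod.isCyclic_units_of_prime_pow p hp hp2 e
  have hcop : ∀ s : ℕ, p ^ e ∣ FF a d k s → (xs k s).Coprime (p ^ e) := by
    intro s hs
    apply Nat.Coprime.pow_right
    rw [Nat.coprime_comm]
    exact (Nat.Prime.coprime_iff_not_dvd hp).mpr (FF_cop_x hg hd hp s (hpe.trans hs))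
  have hac : (a).Coprime (p ^ e) := by
    apply Nat.Coprime.pow_right
    rw [Nat.coprime_comm]
    exact (Nat.Prime.coprime_iff_not_dvd hp).mpr (FF_cop_a hg hp s0 (hpe.trans hs02))
  set U := (ZMod (p ^ e))ˣ with hU
  let f : ℕ → U := fun s => if h : (xs k s).Coprime (p ^ e) then
    ZMod.unitOfCoprime (xs k s) h else 1
  have hf : ∀ s : ℕ, p ^ e ∣ FF a d k s → ((f s : U) : ZMod (p ^ e)) = (xs k s : ZMod (p ^ e)) := by
    intro s hs
    simp only [f, dif_pos (hcop s hs), ZMod.coe_unitOfCoprime]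
  have hroot : ∀ s : ℕ, p ^ e ∣ FF a d k s →
      (a : ZMod (p ^ e)) * ((f s : U) : ZMod (p ^ e)) ^ d = -(k : ZMod (p ^ e)) := by
    intro s hs
    rw [hf s hs]
    have h1 : ((p ^ e : ℕ) : ℤ) ∣ (a : ℤ) * (xs k s : ℤ) ^ d + k := Int.natCast_dvd.mpr hs
    have h2 := (ZMod.intCast_zmod_eq_zero_iff_dvd _ (p ^ e)).mpr h1
    push_cast at h2
    exact eq_neg_of_add_eq_zero_left h2
  have hau : IsUnit (a : ZMod (p ^ e)) := by
    rw [ZMod.isUnit_iff_coprime]
    exact hac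
  have hpow : ∀ s : ℕ, p ^ e ∣ FF a d k s → (f s) ^ d = (f s0) ^ d := by
    intro s hs
    apply Units.ext
    apply hau.mul_left_cancel
    have e1 := hroot s hs
    have e2 := hroot s0 hs02
    rw [← Units.val_pow_eq_pow_val] at e1 e2
    rw [e1, e2]
  have himg : (((Icc 1 V).filter (fun s => p ^ e ∣ FF a d k s)).image
      (fun s => f s * (f s0)⁻¹)).card ≤ d := by
    refine le_trans (card_le_card ?_) (IsCyclic.card_pow_eq_one_le (α := U) (show 0 < d by omega))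
    intro u hu
    rw [mem_image] at hu
    obtain ⟨s, hs, rfl⟩ := hu
    rw [mem_filter] at hs ⊢
    refine ⟨mem_univ _, ?_⟩
    rw [mul_pow, hpow s hs.2, inv_pow, mul_inv_cancel]
  have hfib := card_le_mul_card_image (f := fun s => f s * (f s0)⁻¹)
    ((Icc 1 V).filter (fun s => p ^ e ∣ FF a d k s)) (V / p ^ e + 1) (by
      intro u _
      apply card_congr_class V (p ^ e)
      · exact (filter_subset _ _).trans (filter_subset _ _)
      · intro s hs t ht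
        rw [mem_filter, mem_filter] at hs ht
        have h1 : f s = f t := mul_right_cancel (hs.2.trans ht.2.symm)
        have h2 : (xs k s : ZMod (p ^ e)) = (xs k t : ZMod (p ^ e)) := by
          rw [← hf s hs.1.2, ← hf t ht.1.2, h1]
        have h3 : ((p ^ e : ℕ) : ℤ) ∣ (xs k s : ℤ) - (xs k t : ℤ) := by
          rw [← ZMod.intCast_zmod_eq_zero_iff_dvd]
          push_cast
          rw [h2, sub_self]
        have h4 : (xs k s : ℤ) - (xs k t : ℤ) = (2 * k.natAbs) * ((s : ℤ) - t) := by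
          unfold xs
          push_cast
          ring
        rw [h4] at h3
        have h5 : IsCoprime ((p ^ e : ℕ) : ℤ) (2 * k.natAbs) := by
          push_cast
          apply IsCoprime.pow_left
          rw [(Nat.prime_iff_prime_int.mp hp).coprime_iff_not_dvd]
          intro h6
          rcases (Nat.prime_iff_prime_int.mp hp).dvd_or_dvd h6 with h7 | h7
          · have h8 : p ∣ 2 := by exact_mod_cast h7
            exact hp2 ((Nat.prime_dvd_prime_iff_eq hp Nat.prime_two).mp h8)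
          · exact FF_cop_k hg hp s0 (hpe.trans hs02) (by
              rw [← Int.dvd_natAbs]
              simpa using h7)
        have h6 := h5.dvd_of_dvd_mul_left h3
        have h7 : (t : ℤ) ≡ s [ZMOD ((p ^ e : ℕ) : ℤ)] := (Int.modEq_iff_dvd).mpr h6
        have h8 : t ≡ s [MOD (p ^ e)] := (Int.natCast_modEq_iff).mp h7
        exact h8.symm)
  have h1 : ((Icc 1 V).filter (fun s => p ^ e ∣ FF a d k s)).card ≤ (V / p ^ e + 1) * d :=
    hfib.trans (Nat.mul_le_mul_left _ himg)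
  have h2 : ((V / p ^ e : ℕ) : ℝ) ≤ V / (p : ℝ) ^ e := by
    have := @Nat.cast_div_le ℝ _ _ _ V (p ^ e)
    push_cast at this
    exact this
  calc (((Icc 1 V).filter (fun s => p ^ e ∣ FF a d k s)).card : ℝ) ≤
        (((V / p ^ e + 1) * d : ℕ) : ℝ) := by exact_mod_cast h1
    _ = (((V / p ^ e : ℕ) : ℝ) + 1) * d := by push_cast; ring
    _ ≤ (V / (p : ℝ) ^ e + 1) * d := by gcongr
    _ = d * (V / (p : ℝ) ^ e + 1) := by ring

end

end Pool.Agent.W154.PV
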