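import Pool.Agent.W89.VP.Defs

set_option autoImplicit false
set_option linter.all false

namespace Pool.Agent.W154.PV

open Finset Polynomial
open Pool.Agent.W89.VP

theorem exists_perm_of_map_eq {m : ℕ} {α : Type} (f g : Fin m → α)
    (h : Multiset.map f Finset.univ.val = Multiset.map g Finset.univ.val) :
    ∃ σ : Equiv.Perm (Fin m), ∀ j, f (σ j) = g j := by
  classical
  have hcard : ∀ a : α, Nat.card {j // g j = a} = Nat.card {j // f j = a} := by
    intro a
    have h1 := congrArg (Multiset.count a) h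
    rw [Multiset.count_map, Multiset.count_map] at h1
    rw [Nat.card_eq_fintype_card, Nat.card_eq_fintype_card, Fintype.card_subtype,
      Fintype.card_subtype]
    have h2 : ∀ k : Fin m → α, (Finset.univ.filter fun j => k j = a).card =
        (Multiset.filter (fun j => a = k j) Finset.univ.val).card := by
      intro k
      rw [Finset.card_def, Finset.filter_val]
      congr 1
      apply Multiset.filter_congr
      intro x _
      exact eq_comm
    rw [h2, h2, h1]
  have he : ∀ a, Nonempty ({j // g j = a} ≃ {j // f j = a}) := fun a => Finite.card_eq.mp (hcard a)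
  exact ⟨Equiv.ofFiberEquiv (fun a => (he a).some), fun j =>
    Equiv.ofFiberEquiv_map (fun a => (he a).some) j⟩

/-- the polynomial with the given roots -/
noncomputable def PP {s : ℕ} (x : Fin s → ℕ) : ℤ[X] := ∏ i, ((X : ℤ[X]) - C (x i : ℤ))

theorem perm_of_PP {s : ℕ} (x y : Fin s → ℕ) (h : PP x = PP y) :
    ∃ σ : Equiv.Perm (Fin s), y = x ∘ σ := by
  have key : ∀ x : Fin s → ℕ, (PP x).roots = Multiset.map (fun i => (x i : ℤ)) univ.val := by
    intro x
    have e : PP x = ((Multiset.map (fun i => (x i : ℤ)) univ.val).map (fun a => X - C a)).prod := by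
      rw [Multiset.map_map]; rfl
    rw [e, roots_multiset_prod_X_sub_C]
  have h1 := congrArg Polynomial.roots h
  rw [key, key] at h1
  obtain ⟨σ, hσ⟩ := exists_perm_of_map_eq _ _ h1
  refine ⟨σ, ?_⟩
  funext j
  have := hσ j
  simp only [Nat.cast_inj] at this
  exact this.symm

theorem PP_eval_zero {s : ℕ} (y : Fin s → ℕ) (i : Fin s) : (PP y).eval (y i : ℤ) = 0 := by
  unfold PP
  rw [eval_prod]
  apply Finset.prod_eq_zero (Finset.mem_univ i)
  simp

theorem PP_eval {s : ℕ} (y : Fin s → ℕ) (a : ℤ) : (PP y).eval a = ∏ i, (a - (y i : ℤ)) := by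
  unfold PP
  rw [eval_prod]
  simp

theorem mem_VD {t k N : ℕ} (p : (Fin t → ℕ) × (Fin t → ℕ)) :
    p ∈ VD t k N ↔ ((∀ i, 1 ≤ p.1 i ∧ p.1 i ≤ N) ∧ (∀ i, 1 ≤ p.2 i ∧ p.2 i ≤ N)) ∧
      (∀ j : Fin k, ∑ i : Fin t, p.1 i ^ (j.val + 1) = ∑ i : Fin t, p.2 i ^ (j.val + 1)) ∧
      ∀ i j, p.1 i ≠ p.2 j := by
  unfold VD VS
  simp only [Finset.mem_filter, Finset.mem_product, Fintype.mem_piFinset, Finset.mem_Icc]
  tauto

theorem uniq1 (hN : NEWTStm) {k r n : ℕ} (hrn : r ≤ n) (x y y0 : Fin (k + r) → ℕ)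
    (z : Fin n → ℕ) (e : Fin n → Fin (k + r)) (hz : Function.Injective z)
    (h1 : ∀ j : Fin k, ∑ i, x i ^ (j.val + 1) = ∑ i, y i ^ (j.val + 1))
    (h0 : ∀ j : Fin k, ∑ i, x i ^ (j.val + 1) = ∑ i, y0 i ^ (j.val + 1))
    (he : ∀ j, y (e j) = z j) (he0 : ∀ j, y0 (e j) = z j) : ∃ σ : Equiv.Perm (Fin (k + r)), y = y0 ∘ σ := by
  apply perm_of_PP
  have d1 := hN (k + r) k x y h1
  have d0 := hN (k + r) k x y0 h0
  have e1 : k + r - k = r := by omega
  rw [e1] at d1 d0
  have hd : (PP y0 - PP y).degree < ((univ : Finset (Fin n)).card : WithBot ℕ) := by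
    have e2 : PP y0 - PP y = (PP x - PP y) - (PP x - PP y0) := by ring
    rw [e2]
    refine lt_of_le_of_lt (degree_sub_le _ _) (max_lt ?_ ?_)
    · refine lt_of_lt_of_le d1 ?_
      rw [Finset.card_univ, Fintype.card_fin]
      exact_mod_cast hrn
    · refine lt_of_lt_of_le d0 ?_
      rw [Finset.card_univ, Fintype.card_fin]
      exact_mod_cast hrn
  refine Polynomial.eq_of_degree_sub_lt_of_eval_index_eq (v := fun j : Fin n => (z j : ℤ)) univ ?_ hd ?_
  · intro a _ b _ hab
    apply hz
    simpa using hab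
  · intro j _
    rw [← he0 j, PP_eval_zero, he0 j, ← he j, PP_eval_zero]

open scoped Classical in
/-- case 1, fixed position and values -/
theorem card_S (hN : NEWTStm) {k r n N : ℕ} (hrn : r ≤ n) (e : Fin n → Fin (k + r))
    (z : Fin n → ℕ) (hz : Function.Injective z) :
    ((VD (k + r) k N).filter (fun p => ∀ j, p.2 (e j) = z j)).card ≤
      (k + r).factorial * (ZS r n (k + r) N z).card := by
  set S := (VD (k + r) k N).filter (fun p => ∀ j, p.2 (e j) = z j) with hS
  have himg : S.image Prod.fst ⊆ ZS r n (k + r) N z := by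
    intro x hx
    rw [Finset.mem_image] at hx
    obtain ⟨p, hp, rfl⟩ := hx
    rw [hS, Finset.mem_filter, mem_VD] at hp
    obtain ⟨⟨⟨h1, h2⟩, h3, h4⟩, h5⟩ := hp
    unfold ZS
    rw [Finset.mem_filter, Fintype.mem_piFinset]
    refine ⟨fun i => Finset.mem_Icc.2 (h1 i), ?_, PP p.1 - PP p.2, ?_, ?_⟩
    · intro i j
      rw [← h5 j]
      exact h4 i (e j)
    · have := hN (k + r) k p.1 p.2 h3
      rwa [show k + r - k = r by omega] at this
    · intro j
      rw [eval_sub, ← h5 j, PP_eval_zero, sub_zero, PP_eval]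
  have hfib : ∀ b ∈ S.image Prod.fst, (S.filter fun p => p.1 = b).card ≤ (k + r).factorial := by
    intro b hb
    rw [Finset.mem_image] at hb
    obtain ⟨p0, hp0, rfl⟩ := hb
    have hsub : (S.filter fun p => p.1 = p0.1) ⊆
        (univ : Finset (Equiv.Perm (Fin (k + r)))).image
          (fun σ : Equiv.Perm (Fin (k + r)) => (p0.1, fun i => p0.2 (σ i))) := by
      intro p hp
      rw [Finset.mem_filter] at hp
      obtain ⟨hp, hpe⟩ := hp
      rw [hS, Finset.mem_filter, mem_VD] at hp hp0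
      obtain ⟨σ, hσ⟩ := uniq1 hN hrn p0.1 p.2 p0.2 z e hz (by rw [← hpe]; exact hp.1.2.1) hp0.1.2.1
        hp.2 hp0.2
      rw [Finset.mem_image]
      refine ⟨σ, Finset.mem_univ _, ?_⟩
      apply Prod.ext
      · exact hpe.symm
      · exact hσ.symm
    refine (Finset.card_le_card hsub).trans (Finset.card_image_le.trans ?_)
    rw [Finset.card_univ, Fintype.card_perm, Fintype.card_fin]
  have h6 := Finset.card_le_mul_card_image S _ hfib
  exact h6.trans (Nat.mul_le_mul_left _ (Finset.card_le_card himg))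

open scoped Classical in
/-- case 2: few distinct values -/
theorem card_V2 (hN : NEWTStm) {k r n N : ℕ} (hN1 : 1 ≤ N) :
    ((VD (k + r) k N).filter (fun p => ¬ ∃ e : Fin n → Fin (k + r),
      Function.Injective (fun j => p.2 (e j)))).card ≤
      k.factorial * (n ^ (k + r) * N ^ n * N ^ r) := by
  set S := (VD (k + r) k N).filter (fun p => ¬ ∃ e : Fin n → Fin (k + r),
      Function.Injective (fun j => p.2 (e j))) with hS
  let f : (Fin (k + r) → ℕ) × (Fin (k + r) → ℕ) → (Fin (k + r) → ℕ) × (Fin r → ℕ) :=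
    fun p => (p.2, fun j => p.1 (Fin.natAdd k j))
  let Y2 : Finset (Fin (k + r) → ℕ) :=
    ((univ : Finset (Fin (k + r) → Fin n)) ×ˢ
      (Fintype.piFinset fun _ : Fin n => Finset.Icc 1 N)).image (fun q => q.2 ∘ q.1)
  have hY2 : Y2.card ≤ n ^ (k + r) * N ^ n := by
    refine Finset.card_image_le.trans ?_
    rw [Finset.card_product, Finset.card_univ, Fintype.card_piFinset]
    simp
  have himg : S.image f ⊆ Y2 ×ˢ (Fintype.piFinset fun _ : Fin r => Finset.Icc 1 N) := by
    intro q hq
    rw [Finset.mem_image] at hq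
    obtain ⟨p, hp, rfl⟩ := hq
    rw [hS, Finset.mem_filter, mem_VD] at hp
    obtain ⟨⟨⟨h1, h2⟩, h3, h4⟩, h5⟩ := hp
    rw [Finset.mem_product]
    refine ⟨?_, ?_⟩
    · -- the values
      set T := (univ : Finset (Fin (k + r))).image p.2 with hT
      have hTm : ∀ a ∈ T, ∃ i, p.2 i = a := by
        intro a ha
        rw [hT, Finset.mem_image] at ha
        obtain ⟨i, _, hi⟩ := ha
        exact ⟨i, hi⟩
      have hTc : Fintype.card T ≤ Fintype.card (Fin n) := by
        by_contra hcon
        push Not at hcon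
        obtain ⟨em⟩ := Function.Embedding.nonempty_of_card_le hcon.le
        apply h5
        have hsec : ∀ a : T, ∃ i, p.2 i = a := fun a => hTm a.1 a.2
        choose sec hsec using hsec
        refine ⟨fun j => sec (em j), ?_⟩
        intro a b hab
        simp only [hsec] at hab
        exact em.injective (Subtype.ext hab)
      obtain ⟨em⟩ := Function.Embedding.nonempty_of_card_le hTc
      have hmem : ∀ i, p.2 i ∈ T := fun i => by
        rw [hT]; exact Finset.mem_image_of_mem _ (Finset.mem_univ i)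
      let g : Fin (k + r) → Fin n := fun i => em ⟨p.2 i, hmem i⟩
      let v : Fin n → ℕ := fun j => if h : ∃ a : T, em a = j then ((h.choose : T) : ℕ) else 1
      have hv : ∀ i, v (g i) = p.2 i := by
        intro i
        have h : ∃ a : T, em a = g i := ⟨_, rfl⟩
        simp only [v]
        rw [dif_pos h]
        have := em.injective h.choose_spec
        rw [this]
      rw [Finset.mem_image]
      refine ⟨(g, v), ?_, ?_⟩
      · rw [Finset.mem_product, Fintype.mem_piFinset]
        refine ⟨Finset.mem_univ _, fun j => ?_⟩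
        simp only [v]
        split_ifs with h
        · obtain ⟨i, hi⟩ := hTm h.choose.1 h.choose.2
          rw [← hi, Finset.mem_Icc]
          exact h2 i
        · exact Finset.mem_Icc.2 ⟨le_rfl, hN1⟩
      · funext i
        exact hv i
    · rw [Fintype.mem_piFinset]
      intro j
      exact Finset.mem_Icc.2 (h1 _)
  have hfib : ∀ b ∈ S.image f, (S.filter fun p => f p = b).card ≤ k.factorial := by
    intro b hb
    rw [Finset.mem_image] at hb
    obtain ⟨p0, hp0, rfl⟩ := hb
    have hsub : (S.filter fun p => f p = f p0) ⊆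
        (univ : Finset (Equiv.Perm (Fin k))).image (fun σ =>
          ((fun i => Fin.addCases (fun a => p0.1 (Fin.castAdd r (σ a)))
            (fun b => p0.1 (Fin.natAdd k b)) i : Fin (k + r) → ℕ), p0.2)) := by
      intro p hp
      rw [Finset.mem_filter] at hp
      obtain ⟨hp, hpe⟩ := hp
      rw [hS, Finset.mem_filter, mem_VD] at hp hp0
      have hpe' : p.2 = p0.2 ∧ (fun j : Fin r => p.1 (Fin.natAdd k j)) =
          fun j : Fin r => p0.1 (Fin.natAdd k j) := Prod.mk.inj hpe
      obtain ⟨e1, e2⟩ := hpe'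
      have hps : ∀ j : Fin k, ∑ i : Fin k, p0.1 (Fin.castAdd r i) ^ (j.val + 1) =
          ∑ i : Fin k, p.1 (Fin.castAdd r i) ^ (j.val + 1) := by
        intro j
        have a1 := hp.1.2.1 j
        have a2 := hp0.1.2.1 j
        rw [e1] at a1
        rw [← a2, Fin.sum_univ_add, Fin.sum_univ_add] at a1
        have a3 : ∑ i : Fin r, p.1 (Fin.natAdd k i) ^ (j.val + 1) =
            ∑ i : Fin r, p0.1 (Fin.natAdd k i) ^ (j.val + 1) := by
          apply Finset.sum_congr rfl
          intro i _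
          rw [show p.1 (Fin.natAdd k i) = p0.1 (Fin.natAdd k i) from congrFun e2 i]
        omega
      have hdeg := hN k k (fun i => p0.1 (Fin.castAdd r i)) (fun i => p.1 (Fin.castAdd r i)) hps
      rw [Nat.sub_self] at hdeg
      have hzero : PP (fun i => p0.1 (Fin.castAdd r i)) - PP (fun i => p.1 (Fin.castAdd r i)) = 0 := by
        rw [← Polynomial.degree_eq_bot]
        exact Nat.WithBot.lt_zero_iff.1 hdeg
      obtain ⟨σ, hσ⟩ := perm_of_PP _ _ (sub_eq_zero.1 hzero)
      rw [Finset.mem_image]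
      refine ⟨σ, Finset.mem_univ _, ?_⟩
      apply Prod.ext
      · funext i
        refine Fin.addCases (fun a => ?_) (fun b => ?_) i
        · simp only [Fin.addCases_left]
          exact (congrFun hσ a).symm
        · simp only [Fin.addCases_right]
          exact (congrFun e2 b).symm
      · exact e1.symm
    refine (Finset.card_le_card hsub).trans (Finset.card_image_le.trans ?_)
    rw [Finset.card_univ, Fintype.card_perm, Fintype.card_fin]
  have h6 := Finset.card_le_mul_card_image S _ hfib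
  refine h6.trans (Nat.mul_le_mul_left _ ?_)
  refine (Finset.card_le_card himg).trans ?_
  rw [Finset.card_product, Fintype.card_piFinset]
  refine Nat.mul_le_mul hY2 ?_
  simp

theorem main (hM : MAINStm) (hN : NEWTStm) : DISJStm := by
  classical
  intro k t hkt h300
  obtain ⟨r, rfl⟩ : ∃ r, t = k + r := ⟨t - k, by omega⟩
  have hr1 : 1 ≤ r := by omega
  have hkr : 300 * r ≤ k := by omega
  obtain ⟨C1, hC1, hmain⟩ := hM r (k + r) hr1 (by omega)
  set n := 32 * r with hn
  refine ⟨((k + r : ℕ) : ℝ) ^ n * ((k + r).factorial * C1) + k.factorial * (n : ℝ) ^ (k + r) + 1,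
    by positivity, ?_⟩
  intro N hN1
  have hNr : (1 : ℝ) ≤ N := by exact_mod_cast hN1
  have hN0 : (0 : ℝ) < N := by linarith
  set B : ℝ := C1 * (N : ℝ) ^ (((k + r : ℕ) : ℝ) - ((k + r : ℕ) : ℝ) / 8 + 1) with hB
  have hB0 : 0 ≤ B := by positivity
  -- case 1
  let I : Finset ((Fin n → Fin (k + r)) × (Fin n → ℕ)) :=
    ((univ : Finset (Fin n → Fin (k + r))) ×ˢ
      (Fintype.piFinset fun _ : Fin n => Finset.Icc 1 N)).filter (fun q => Function.Injective q.2)
  have hI : (I.card : ℝ) ≤ ((k + r : ℕ) : ℝ) ^ n * (N : ℝ) ^ n := by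
    have h1 : I.card ≤ (k + r) ^ n * N ^ n := by
      refine (Finset.card_filter_le _ _).trans ?_
      rw [Finset.card_product, Finset.card_univ, Fintype.card_piFinset]
      simp
    exact_mod_cast h1
  have hV1 : (((VD (k + r) k N).filter (fun p => ∃ e : Fin n → Fin (k + r),
      Function.Injective (fun j => p.2 (e j)))).card : ℝ) ≤
      (((k + r : ℕ) : ℝ) ^ n * (N : ℝ) ^ n) * ((k + r).factorial * B) := by
    have hsub : ((VD (k + r) k N).filter (fun p => ∃ e : Fin n → Fin (k + r),
        Function.Injective (fun j => p.2 (e j)))) ⊆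
        I.biUnion (fun q => (VD (k + r) k N).filter (fun p => ∀ j, p.2 (q.1 j) = q.2 j)) := by
      intro p hp
      rw [Finset.mem_filter] at hp
      obtain ⟨hp, e, he⟩ := hp
      rw [Finset.mem_biUnion]
      refine ⟨(e, fun j => p.2 (e j)), ?_, ?_⟩
      · rw [Finset.mem_filter, Finset.mem_product, Fintype.mem_piFinset]
        refine ⟨⟨Finset.mem_univ _, fun j => ?_⟩, he⟩
        exact Finset.mem_Icc.2 (((mem_VD p).1 hp).1.2 _)
      · rw [Finset.mem_filter]
        exact ⟨hp, fun j => rfl⟩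
    have h2 : ((I.biUnion (fun q => (VD (k + r) k N).filter (fun p => ∀ j, p.2 (q.1 j) = q.2 j))).card : ℝ)
        ≤ ∑ q ∈ I, (((VD (k + r) k N).filter (fun p => ∀ j, p.2 (q.1 j) = q.2 j)).card : ℝ) := by
      exact_mod_cast Finset.card_biUnion_le
    have h3 : ∀ q ∈ I, (((VD (k + r) k N).filter (fun p => ∀ j, p.2 (q.1 j) = q.2 j)).card : ℝ) ≤
        (k + r).factorial * B := by
      intro q hq
      rw [Finset.mem_filter, Finset.mem_product, Fintype.mem_piFinset] at hq
      obtain ⟨⟨_, hq2⟩, hq3⟩ := hq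
      have h4 := card_S (N := N) hN (show r ≤ n by omega) q.1 q.2 hq3
      have h5 := hmain N hN1 q.2 ⟨hq3, fun j => Finset.mem_Icc.1 (hq2 j)⟩
      calc (((VD (k + r) k N).filter (fun p => ∀ j, p.2 (q.1 j) = q.2 j)).card : ℝ)
          ≤ (((k + r).factorial * (ZS r n (k + r) N q.2).card : ℕ) : ℝ) := by exact_mod_cast h4
        _ = (k + r).factorial * ((ZS r n (k + r) N q.2).card : ℝ) := by push_cast; ring
        _ ≤ (k + r).factorial * B := mul_le_mul_of_nonneg_left h5 (by positivity)
    calc _ ≤ ((I.biUnion (fun q => (VD (k + r) k N).filter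
          (fun p => ∀ j, p.2 (q.1 j) = q.2 j))).card : ℝ) := by
          exact_mod_cast Finset.card_le_card hsub
      _ ≤ _ := h2
      _ ≤ ∑ q ∈ I, ((k + r).factorial * B : ℝ) := Finset.sum_le_sum h3
      _ = (I.card : ℝ) * ((k + r).factorial * B) := by rw [Finset.sum_const, nsmul_eq_mul]
      _ ≤ _ := mul_le_mul_of_nonneg_right hI (by positivity)
  -- case 2
  have hV2 : (((VD (k + r) k N).filter (fun p => ¬ ∃ e : Fin n → Fin (k + r),
      Function.Injective (fun j => p.2 (e j)))).card : ℝ) ≤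
      k.factorial * ((n : ℝ) ^ (k + r) * (N : ℝ) ^ n * (N : ℝ) ^ r) := by
    exact_mod_cast card_V2 (n := n) hN hN1
  have hsum : ((VD (k + r) k N).card : ℝ) =
      (((VD (k + r) k N).filter (fun p => ∃ e : Fin n → Fin (k + r),
      Function.Injective (fun j => p.2 (e j)))).card : ℝ) +
      (((VD (k + r) k N).filter (fun p => ¬ ∃ e : Fin n → Fin (k + r),
      Function.Injective (fun j => p.2 (e j)))).card : ℝ) := by
    exact_mod_cast (Finset.card_filter_add_card_filter_not _).symm
  -- exponents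
  have hrr : (1 : ℝ) ≤ r := by exact_mod_cast hr1
  have hkk : (300 : ℝ) * r ≤ k := by exact_mod_cast hkr
  have hE1 : (N : ℝ) ^ n * (N : ℝ) ^ (((k + r : ℕ) : ℝ) - ((k + r : ℕ) : ℝ) / 8 + 1) ≤
      (N : ℝ) ^ (((k + r : ℕ) : ℝ) - (k : ℝ) / 100) := by
    rw [← Real.rpow_natCast, ← Real.rpow_add hN0]
    apply Real.rpow_le_rpow_of_exponent_le hNr
    rw [hn]
    push_cast
    linarith
  have hE2 : (N : ℝ) ^ n * (N : ℝ) ^ r ≤ (N : ℝ) ^ (((k + r : ℕ) : ℝ) - (k : ℝ) / 100) := by
    rw [← Real.rpow_natCast, ← Real.rpow_natCast, ← Real.rpow_add hN0]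
    apply Real.rpow_le_rpow_of_exponent_le hNr
    rw [hn]
    push_cast
    linarith
  set Q := (N : ℝ) ^ (((k + r : ℕ) : ℝ) - (k : ℝ) / 100) with hQ
  have hQ0 : 0 < Q := Real.rpow_pos_of_pos hN0 _
  rw [hsum]
  have t1 : (((k + r : ℕ) : ℝ) ^ n * (N : ℝ) ^ n) * ((k + r).factorial * B) ≤
      ((k + r : ℕ) : ℝ) ^ n * ((k + r).factorial * C1) * Q := by
    have : (((k + r : ℕ) : ℝ) ^ n * (N : ℝ) ^ n) * ((k + r).factorial * B) =
        (((k + r : ℕ) : ℝ) ^ n * ((k + r).factorial * C1)) *
          ((N : ℝ) ^ n * (N : ℝ) ^ (((k + r : ℕ) : ℝ) - ((k + r : ℕ) : ℝ) / 8 + 1)) := by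
      rw [hB]; ring
    rw [this]
    exact mul_le_mul_of_nonneg_left hE1 (by positivity)
  have t2 : k.factorial * ((n : ℝ) ^ (k + r) * (N : ℝ) ^ n * (N : ℝ) ^ r) ≤
      k.factorial * (n : ℝ) ^ (k + r) * Q := by
    have : (k.factorial : ℝ) * ((n : ℝ) ^ (k + r) * (N : ℝ) ^ n * (N : ℝ) ^ r) =
        (k.factorial * (n : ℝ) ^ (k + r)) * ((N : ℝ) ^ n * (N : ℝ) ^ r) := by ring
    rw [this]
    exact mul_le_mul_of_nonneg_left hE2 (by positivity)
  nlinarith [hV1, hV2, t1, t2, hQ0]

end Pool.Agent.W154.PV
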