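import Pool.Agent.W154.PV.Amp

set_option autoImplicit false

/-! # Factorisations into numbers with a large prime factor -/

namespace Pool.Agent.W154.PV

open Finset

open scoped Classical

theorem tup_card_le (𝓑 : Finset ℕ) (yn M₀ r : ℕ) (hM : M₀ ≤ yn)
    (h : ∀ u ∈ 𝓑, 1 ≤ u ∧ ∃ l : ℕ, l.Prime ∧ yn < l ∧ l ∣ u ∧ u / l ≤ M₀) (n : ℕ) :
    ((tup 𝓑 r n).card : ℝ) ≤ ((r : ℝ) * M₀) ^ r := by
  have h' : ∀ u : ℕ, ∃ l : ℕ, u ∈ 𝓑 → (1 ≤ u ∧ l.Prime ∧ yn < l ∧ l ∣ u ∧ u / l ≤ M₀) := by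
    intro u
    by_cases hu : u ∈ 𝓑
    · obtain ⟨h0, l, h1, h2, h3, h4⟩ := h u hu
      exact ⟨l, fun _ => ⟨h0, h1, h2, h3, h4⟩⟩
    · exact ⟨0, fun h5 => absurd h5 hu⟩
  choose lf hlf using h'
  rcases (tup 𝓑 r n).eq_empty_or_nonempty with h0 | ⟨f0, hf0⟩
  · rw [h0]
    simp only [card_empty, Nat.cast_zero]
    positivity
  unfold tup at hf0
  rw [mem_filter, Fintype.mem_piFinset] at hf0
  set PF : Finset ℕ := n.primeFactors.filter (fun l => yn < l) with hPF
  have hmpos : ∀ u ∈ 𝓑, 1 ≤ u / lf u := by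
    intro u hu
    obtain ⟨h0, h1, h2, h3, h4⟩ := hlf u hu
    exact Nat.div_pos (Nat.le_of_dvd (by omega) h3) h1.pos
  have hPFc : PF.card ≤ r := by
    have hsub : PF ⊆ (univ : Finset (Fin r)).image (fun i => lf (f0 i)) := by
      intro l hl
      rw [hPF, mem_filter, Nat.mem_primeFactors] at hl
      obtain ⟨⟨hl1, hl2, hl3⟩, hl4⟩ := hl
      rw [← hf0.2, Prime.dvd_finsetProd_iff hl1.prime] at hl2
      obtain ⟨i, _, hi⟩ := hl2
      obtain ⟨h0, h1, h2, h3, h4⟩ := hlf _ (hf0.1 i)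
      rw [mem_image]
      refine ⟨i, mem_univ _, ?_⟩
      have h5 : f0 i = (f0 i / lf (f0 i)) * lf (f0 i) := (Nat.div_mul_cancel h3).symm
      rw [h5] at hi
      rcases hl1.prime.dvd_or_dvd hi with h6 | h6
      · exfalso
        have h7 := Nat.le_of_dvd (hmpos _ (hf0.1 i)) h6
        omega
      · exact ((Nat.prime_dvd_prime_iff_eq hl1 h1).mp h6).symm
    exact (card_le_card hsub).trans (card_image_le.trans (by simp))
  have hinj : (tup 𝓑 r n).card ≤
      (Fintype.piFinset (fun _ : Fin r => Icc 1 M₀ ×ˢ PF)).card := by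
    refine card_le_card_of_injOn (fun f i => (f i / lf (f i), lf (f i))) ?_ ?_
    · intro f hf
      rw [mem_coe] at hf ⊢
      unfold tup at hf
      rw [mem_filter, Fintype.mem_piFinset] at hf
      rw [Fintype.mem_piFinset]
      intro i
      obtain ⟨h0, h1, h2, h3, h4⟩ := hlf _ (hf.1 i)
      rw [mem_product, mem_Icc]
      refine ⟨⟨hmpos _ (hf.1 i), h4⟩, ?_⟩
      rw [hPF, mem_filter, Nat.mem_primeFactors]
      refine ⟨⟨h1, ?_, ?_⟩, h2⟩
      · rw [← hf.2]
        exact h3.trans (dvd_prod_of_mem f (mem_univ i))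
      · rw [← hf.2]
        exact prod_ne_zero_iff.mpr fun i _ => by
          have := (hlf _ (hf.1 i)).1
          omega
    · intro f hf g hg hfg
      rw [mem_coe] at hf hg
      unfold tup at hf hg
      rw [mem_filter, Fintype.mem_piFinset] at hf hg
      funext i
      have h1 := congrFun hfg i
      simp only [Prod.mk.injEq] at h1
      have h2 : f i = (f i / lf (f i)) * lf (f i) :=
        (Nat.div_mul_cancel (hlf _ (hf.1 i)).2.2.2.1).symm
      have h3 : g i = (g i / lf (g i)) * lf (g i) :=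
        (Nat.div_mul_cancel (hlf _ (hg.1 i)).2.2.2.1).symm
      rw [h2, h3, h1.1, h1.2]
  have h1 : (Fintype.piFinset (fun _ : Fin r => Icc 1 M₀ ×ˢ PF)).card ≤ (r * M₀) ^ r := by
    rw [Fintype.card_piFinset_const, card_product, Nat.card_Icc]
    apply Nat.pow_le_pow_left
    simp only [add_tsub_cancel_right]
    calc M₀ * PF.card ≤ M₀ * r := Nat.mul_le_mul_left _ hPFc
      _ = r * M₀ := mul_comm _ _
  exact_mod_cast hinj.trans h1

end Pool.Agent.W154.PV
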